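import Mathlib

/-! Definitions for the results on the Birch and Swinnerton-Dyer conjecture. -/

set_option autoImplicit false

namespace Pool.Agent.W263.BSD

open Classical Filter

/-- `N_p`: the number of pairs `(x, y) ∈ (ℤ/p)²` with `y² = x³ + a x + b`. -/
noncomputable def pointCount (a b : ℤ) (p : ℕ) : ℕ :=
  Nat.card {q : ZMod p × ZMod p // q.2 ^ 2 = q.1 ^ 3 + (a : ZMod p) * q.1 + (b : ZMod p)}

/-- `p` is a prime not dividing `2 Δ`, `Δ = -4 a³ - 27 b²`. -/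
def GoodPrime (a b : ℤ) (p : ℕ) : Prop :=
  p.Prime ∧ ¬ ((p : ℤ) ∣ 2 * (-4 * a ^ 3 - 27 * b ^ 2))

/-- `F` is an entire function which for `Re s > 3/2` is the incomplete L-series
`∏_{p ∤ 2Δ} (1 - a_p p^{-s} + p^{1-2s})⁻¹`, `a_p = p - N_p`, of `y² = x³ + a x + b`. (There is at most
one such `F`, and by the modularity theorem there is one for every elliptic curve over `ℚ`.) -/
def IsLSeries (a b : ℤ) (F : ℂ → ℂ) : Prop :=
  Differentiable ℂ F ∧ ∀ s : ℂ, (3 : ℝ) / 2 < s.re →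
    HasProd (fun p : ℕ => if GoodPrime a b p then
      (1 - ((p : ℂ) - (pointCount a b p : ℂ)) * (p : ℂ) ^ (-s) + (p : ℂ) ^ (1 - 2 * s))⁻¹ else 1)
      (F s)

/-- The Riesz mean of order `k` of the logarithms of the original Birch and Swinnerton-Dyer
products `P(t) = ∏_{p ≤ t, p ∤ 2Δ} (N_p + 1) / p`:
`R_k(x) = ∑_{p ≤ x, p ∤ 2Δ} (1 - log p / log x)^k log ((N_p + 1) / p)`. So `R_0(x) = log P(x)`, and
`R_1(x) = (log x)⁻¹ ∫_1^x log P(t) dt/t` is the logarithmic mean of `log P`. -/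
noncomputable def rieszMean (a b : ℤ) (k : ℕ) (x : ℝ) : ℝ :=
  ∑ p ∈ (Finset.range (⌊x⌋₊ + 1)).filter (GoodPrime a b),
    (1 - Real.log p / Real.log x) ^ k * Real.log (((pointCount a b p : ℝ) + 1) / p)

end Pool.Agent.W263.BSD
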