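import Pool.Agent.W263.BSD.Main
import Pool.Agent.W263.BSD.Defs
import Pool.Agent.H341R2.NF.ECCount

/-! The data of an elliptic curve over `ℚ`. -/

set_option autoImplicit false

namespace Pool.Agent.W263.BSD

open MeasureTheory Filter Topology Set Classical

variable {a b : ℤ}

theorem hasse {p : ℕ} (h : GoodPrime a b p) (h5 : 5 ≤ p) :
    |(p : ℝ) - pointCount a b p| ≤ 2 * √p := by
  obtain ⟨hp, hnd⟩ := h
  have : Fact p.Prime := ⟨hp⟩
  have h2 : (2 : ZMod p) ≠ 0 := by
    intro h0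
    have : ((2 : ℕ) : ZMod p) = 0 := by exact_mod_cast h0
    rw [ZMod.natCast_eq_zero_iff] at this
    have := Nat.le_of_dvd (by norm_num) this
    omega
  have h3 : (3 : ZMod p) ≠ 0 := by
    intro h0
    have : ((3 : ℕ) : ZMod p) = 0 := by exact_mod_cast h0
    rw [ZMod.natCast_eq_zero_iff] at this
    have := Nat.le_of_dvd (by norm_num) this
    omega
  have h6 : (6 : ZMod p) ≠ 0 := by
    rw [show (6 : ZMod p) = 2 * 3 by norm_num]
    exact mul_ne_zero h2 h3
  have h27 : (27 : ZMod p) ≠ 0 := by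
    rw [show (27 : ZMod p) = 3 ^ 3 by norm_num]
    exact pow_ne_zero _ h3
  have h54 : (54 : ZMod p) ≠ 0 := by
    rw [show (54 : ZMod p) = 2 * 27 by norm_num]
    exact mul_ne_zero h2 h27
  have h4 : (4 : ZMod p) ≠ 0 := by
    rw [show (4 : ZMod p) = 2 ^ 2 by norm_num]
    exact pow_ne_zero _ h2
  set c : ZMod p := -(a : ZMod p) / 27 with hc
  set c' : ZMod p := -(b : ZMod p) / 54 with hc'
  have hca : -27 * c = (a : ZMod p) := by rw [hc]; field_simp
  have hcb : -54 * c' = (b : ZMod p) := by rw [hc']; field_simp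
  have hΔ : (4 * (a : ZMod p) ^ 3 + 27 * (b : ZMod p) ^ 2) ≠ 0 := by
    intro h0
    apply hnd
    have h1 : ((-4 * a ^ 3 - 27 * b ^ 2 : ℤ) : ZMod p) = 0 := by
      push_cast
      linear_combination -h0
    rw [ZMod.intCast_zmod_eq_zero_iff_dvd] at h1
    exact h1.mul_left 2
  have hcc : c ^ 3 - c' ^ 2 ≠ 0 := by
    intro h0
    apply hΔ
    rw [← hca, ← hcb]
    linear_combination (-78732 : ZMod p) * h0
  have e1 : pointCount a b p = Pool.Agent.H341R2.EC.short c c' := by
    unfold pointCount Pool.Agent.H341R2.EC.short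
    congr 1
    have : ∀ q : ZMod p × ZMod p, (q.2 ^ 2 = q.1 ^ 3 + (a : ZMod p) * q.1 + (b : ZMod p)) =
        (q.2 ^ 2 = q.1 ^ 3 - 27 * c * q.1 - 54 * c') := by
      intro q
      rw [← hca, ← hcb]
      congr 1; ring
    simp only [this]
  have e2 := Pool.Agent.H341R2.EC.short_eq h6 c c'
  have e3 := Pool.Agent.H341R2.EC.csum_bound h6 hcc
  rw [← e1, ZMod.card] at e2
  rw [ZMod.card] at e3
  have e4 : (p : ℝ) - pointCount a b p = -(Pool.Agent.H341R2.EC.csum c c' : ℝ) := by
    have : ((pointCount a b p : ℤ) : ℝ) = ((p + Pool.Agent.H341R2.EC.csum c c' : ℤ) : ℝ) := by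
      rw [e2]; rfl
    push_cast at this
    linarith
  rw [e4, abs_neg]
  exact e3

theorem pointCount_le {p : ℕ} (hp : p.Prime) : pointCount a b p ≤ p ^ 2 := by
  have : Fact p.Prime := ⟨hp⟩
  unfold pointCount
  refine (Nat.card_le_card_of_injective (Subtype.val) Subtype.val_injective).trans ?_
  rw [Nat.card_prod, Nat.card_zmod, sq]

/-- the set of good primes `≥ 25` -/
def SS (a b : ℤ) : Set ℕ := {p | GoodPrime a b p ∧ 25 ≤ p}

/-- `a_p` -/
noncomputable def Ap (a b : ℤ) (p : ℕ) : ℝ := p - pointCount a b p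

theorem eData (a b : ℤ) : EData (SS a b) (Ap a b) where
  prime := fun _ hp => hp.1.1
  big := fun _ hp => hp.2
  hasse := fun _ hp => hasse hp.1 (by have := hp.2; omega)

/-- inverse of the local factor at `s = 1 + w` -/
noncomputable def ef (a b : ℤ) (p : ℕ) (w : ℂ) : ℂ :=
  1 - ((p : ℂ) - (pointCount a b p : ℂ)) * (p : ℂ) ^ (-(1 + w)) + (p : ℂ) ^ (1 - 2 * (1 + w))

theorem ef_eq {p : ℕ} (hp : 1 ≤ p) (w : ℂ) : ef a b p w = fac (Ap a b) p (xp p w) := by
  have hp0 : (p : ℂ) ≠ 0 := by exact_mod_cast (show p ≠ 0 by omega)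
  unfold ef fac tt Ap xp
  have h1 : ((dl p : ℝ) : ℂ) ^ 2 = 1 / p := by
    rw [← Complex.ofReal_pow, dl_sq hp]
    push_cast; rfl
  have h2 : (p : ℂ) ^ (-(1 + w)) = (p : ℂ) ^ (-w) / p := by
    rw [show -(1 + w) = -w + -1 by ring, Complex.cpow_add _ _ hp0, Complex.cpow_neg_one]
    rfl
  have h3 : (p : ℂ) ^ (1 - 2 * (1 + w)) = ((p : ℂ) ^ (-w)) ^ 2 / p := by
    rw [show 1 - 2 * (1 + w) = (-w) * (2 : ℕ) + -1 by push_cast; ring, Complex.cpow_add _ _ hp0,
      Complex.cpow_neg_one, Complex.cpow_mul_nat]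
    rfl
  rw [h1, h2, h3]
  push_cast
  ring

theorem ef_differentiable {p : ℕ} (hp : 1 ≤ p) : Differentiable ℂ (ef a b p) := by
  have hp0 : (p : ℂ) ≠ 0 := by exact_mod_cast (show p ≠ 0 by omega)
  intro w
  unfold ef
  refine DifferentiableAt.add (DifferentiableAt.sub (differentiableAt_const _)
    (DifferentiableAt.const_mul ?_ _)) ?_
  · refine DifferentiableAt.const_cpow ?_ (Or.inl hp0)
    fun_prop
  · refine DifferentiableAt.const_cpow ?_ (Or.inl hp0)
    fun_prop

/-- the crude bound gives nonvanishing for `Re w ≥ 1` -/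
theorem ef_ne_zero {p : ℕ} (hp : p.Prime) {w : ℂ} (hw : 1 ≤ w.re) : ef a b p w ≠ 0 := by
  have hp2 : (2 : ℝ) ≤ p := by exact_mod_cast hp.two_le
  have hp0 : (0 : ℝ) < p := by linarith
  intro h0
  have h1 : (1 : ℂ) = ((p : ℂ) - (pointCount a b p : ℂ)) * (p : ℂ) ^ (-(1 + w)) -
      (p : ℂ) ^ (1 - 2 * (1 + w)) := by
    unfold ef at h0
    linear_combination h0
  have h2 : (1 : ℝ) ≤ ‖((p : ℂ) - (pointCount a b p : ℂ)) * (p : ℂ) ^ (-(1 + w))‖ +
      ‖(p : ℂ) ^ (1 - 2 * (1 + w))‖ := by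
    calc (1 : ℝ) = ‖(1 : ℂ)‖ := by simp
      _ = ‖((p : ℂ) - (pointCount a b p : ℂ)) * (p : ℂ) ^ (-(1 + w)) -
          (p : ℂ) ^ (1 - 2 * (1 + w))‖ := by rw [← h1]
      _ ≤ _ := norm_sub_le _ _
  have h3 : ‖(p : ℂ) ^ (1 - 2 * (1 + w))‖ ≤ 1 / p ^ 3 := by
    rw [Complex.norm_natCast_cpow_of_pos hp.pos]
    have : (1 - 2 * (1 + w)).re ≤ -3 := by simp; linarith
    refine (Real.rpow_le_rpow_of_exponent_le (by linarith) this).trans (le_of_eq ?_)
    rw [Real.rpow_neg hp0.le, one_div]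
    congr 1
    exact_mod_cast Real.rpow_natCast (p : ℝ) 3
  have h4 : ‖(p : ℂ) ^ (-(1 + w))‖ ≤ 1 / p ^ 2 := by
    rw [Complex.norm_natCast_cpow_of_pos hp.pos]
    have : (-(1 + w)).re ≤ -2 := by simp; linarith
    refine (Real.rpow_le_rpow_of_exponent_le (by linarith) this).trans (le_of_eq ?_)
    rw [Real.rpow_neg hp0.le, one_div]
    congr 1
    exact_mod_cast Real.rpow_natCast (p : ℝ) 2
  have h5 : ‖(p : ℂ) - (pointCount a b p : ℂ)‖ ≤ p ^ 2 - p := by
    have e : (p : ℂ) - (pointCount a b p : ℂ) = (((p : ℝ) - pointCount a b p : ℝ) : ℂ) := by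
      push_cast; rfl
    rw [e, Complex.norm_real, Real.norm_eq_abs, abs_le]
    have h6 : (pointCount a b p : ℝ) ≤ p ^ 2 := by exact_mod_cast pointCount_le hp
    have h7 : (0 : ℝ) ≤ pointCount a b p := by positivity
    constructor
    · linarith
    · nlinarith
  rw [norm_mul] at h2
  have h8 : ‖(p : ℂ) - (pointCount a b p : ℂ)‖ * ‖(p : ℂ) ^ (-(1 + w))‖ ≤
      (p ^ 2 - p) * (1 / p ^ 2) := mul_le_mul h5 h4 (norm_nonneg _) (by nlinarith)
  have h9 : ((p : ℝ) ^ 2 - p) * (1 / p ^ 2) = 1 - 1 / p := by field_simp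
  have h10 : (1 : ℝ) / p ^ 3 < 1 / p := by
    apply one_div_lt_one_div_of_lt hp0
    nlinarith [sq_nonneg ((p : ℝ) - 1)]
  linarith

/-- positivity at real points -/
theorem ef_real_pos {p : ℕ} (hp : p.Prime) {w : ℝ} (hw : 0 ≤ w) :
    ∃ y : ℝ, 0 < y ∧ ef a b p w = y := by
  have hp2 : (2 : ℝ) ≤ p := by exact_mod_cast hp.two_le
  have hp0 : (0 : ℝ) < p := by linarith
  set X : ℝ := (p : ℝ) ^ (-w) with hX
  have hX0 : 0 < X := by positivity
  have hX1 : X ≤ 1 := Real.rpow_le_one_of_one_le_of_nonpos (by linarith) (by linarith)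
  refine ⟨(1 - X) + (pointCount a b p / p) * X + X ^ 2 / p, ?_, ?_⟩
  · have h1 : 0 ≤ (pointCount a b p / p : ℝ) * X := by positivity
    have h2 : 0 < X ^ 2 / p := by positivity
    linarith
  · rw [ef_eq hp.one_le, xp_real, ← hX]
    unfold fac tt Ap
    have h1 : ((dl p : ℝ) : ℂ) ^ 2 = 1 / p := by
      rw [← Complex.ofReal_pow, dl_sq hp.one_le]
      push_cast; rfl
    rw [h1]
    have hpc : (p : ℂ) ≠ 0 := by exact_mod_cast hp.ne_zero
    push_cast
    field_simp
    ring

/-- the finite product over the small primes -/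
noncomputable def small (a b : ℤ) (w : ℂ) : ℂ :=
  ∏ p ∈ Finset.range 25, if GoodPrime a b p then ef a b p w else 1

theorem small_differentiable : Differentiable ℂ (small a b) := by
  intro w
  unfold small
  refine DifferentiableAt.fun_finsetProd fun p _ => ?_
  split_ifs with h
  · exact (ef_differentiable h.1.one_le) w
  · exact differentiableAt_const _

theorem small_ne_zero_real {w : ℝ} (hw : 0 ≤ w) : small a b w ≠ 0 := by
  unfold small
  rw [Finset.prod_ne_zero_iff]
  intro p _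
  split_ifs with h
  · obtain ⟨y, hy, he⟩ := ef_real_pos (a := a) (b := b) h.1 hw
    rw [he]
    exact_mod_cast hy.ne'
  · exact one_ne_zero

/-- the continuation attached to the primes `≥ 25` -/
noncomputable def PhiF (a b : ℤ) (F : ℂ → ℂ) (w : ℂ) : ℂ := F (1 + w) * small a b w

theorem PhiF_differentiable {F : ℂ → ℂ} (hF : IsLSeries a b F) : Differentiable ℂ (PhiF a b F) := by
  have h1 : Differentiable ℂ fun w : ℂ => F (1 + w) := hF.1.comp (by fun_prop)
  exact h1.mul small_differentiable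

theorem PhiF_hasProd {F : ℂ → ℂ} (hF : IsLSeries a b F) {w : ℂ} (hw : 1 < w.re) :
    HasProd (fun p => if p ∈ SS a b then (fac (Ap a b) p (xp p w))⁻¹ else 1) (PhiF a b F w) := by
  have h1 := hF.2 (1 + w) (by simp; linarith)
  have h2 : HasProd (fun p : ℕ => if p ∈ Finset.range 25 then
      (if GoodPrime a b p then ef a b p w else 1) else 1) (small a b w) := by
    have : small a b w = ∏ p ∈ Finset.range 25, if p ∈ Finset.range 25 then
        (if GoodPrime a b p then ef a b p w else 1) else 1 := by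
      unfold small
      refine Finset.prod_congr rfl fun p hp => ?_
      rw [if_pos hp]
    rw [this]
    refine hasProd_prod_of_ne_finset_one fun p hp => ?_
    rw [if_neg hp]
  have h3 := h1.mul h2
  unfold PhiF
  have h4 : (fun p : ℕ => (if GoodPrime a b p then
      (1 - ((p : ℂ) - (pointCount a b p : ℂ)) * (p : ℂ) ^ (-(1 + w)) +
        (p : ℂ) ^ (1 - 2 * (1 + w)))⁻¹ else 1) * if p ∈ Finset.range 25 then
      (if GoodPrime a b p then ef a b p w else 1) else 1) =
      fun p => if p ∈ SS a b then (fac (Ap a b) p (xp p w))⁻¹ else 1 := by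
    funext p
    by_cases hg : GoodPrime a b p
    · have he : (1 - ((p : ℂ) - (pointCount a b p : ℂ)) * (p : ℂ) ^ (-(1 + w)) +
          (p : ℂ) ^ (1 - 2 * (1 + w))) = ef a b p w := rfl
      by_cases h25 : 25 ≤ p
      · have hm : p ∉ Finset.range 25 := by rw [Finset.mem_range]; omega
        have hS : p ∈ SS a b := ⟨hg, h25⟩
        simp only [if_pos hg, if_neg hm, if_pos hS, mul_one, he, ef_eq hg.1.one_le]
      · have hm : p ∈ Finset.range 25 := by rw [Finset.mem_range]; omega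
        have hS : p ∉ SS a b := fun h => h25 h.2
        simp only [if_pos hg, if_pos hm, if_neg hS, he]
        exact inv_mul_cancel₀ (ef_ne_zero hg.1 hw.le)
    · have hS : p ∉ SS a b := fun h => hg h.1
      simp only [if_neg hg, if_neg hS, ite_self, mul_one]
  rw [h4] at h3
  exact h3

theorem data (k : ℕ) {F : ℂ → ℂ} (hF : IsLSeries a b F) :
    Data (k + 1) (aak (SS a b) (Ap a b) k) (PhiF a b F) (GG (SS a b) (Ap a b)) 2 :=
  (eData a b).data k (PhiF_differentiable hF) fun _ hw => PhiF_hasProd hF hw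

theorem ordZero {F : ℂ → ℂ} (hF : IsLSeries a b F) {r : ℕ} (hr : analyticOrderAt F 1 = r) :
    OrdZero (PhiF a b F) r := by
  have hFa : AnalyticAt ℂ F 1 := hF.1.analyticAt 1
  obtain ⟨g, hg, hg0, he⟩ := (hFa.analyticOrderAt_eq_natCast).mp hr
  refine ⟨fun w => g (1 + w) * small a b w, ?_, ?_, ?_⟩
  · refine AnalyticAt.mul ?_ (small_differentiable.analyticAt 0)
    refine AnalyticAt.fun_comp (g := g) (f := fun w : ℂ => 1 + w) ?_ ?_
    · simpa using hg
    · fun_prop
  · refine mul_ne_zero (by simpa using hg0) ?_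
    have := small_ne_zero_real (a := a) (b := b) (w := 0) le_rfl
    simpa using this
  · have h1 : Tendsto (fun w : ℂ => 1 + w) (𝓝 0) (𝓝 1) := by
      have : Continuous fun w : ℂ => 1 + w := by fun_prop
      simpa using this.tendsto 0
    filter_upwards [h1.eventually he] with w hw
    unfold PhiF
    rw [hw, add_sub_cancel_left, smul_eq_mul]
    ring

theorem order_finite {F : ℂ → ℂ} (hF : IsLSeries a b F) : ∃ r : ℕ, analyticOrderAt F 1 = r := by
  have hne : analyticOrderAt F 1 ≠ ⊤ := by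
    intro htop
    rw [analyticOrderAt_eq_top] at htop
    have h1 : AnalyticOnNhd ℂ F univ := hF.1.differentiableOn.analyticOnNhd isOpen_univ
    have h2 := h1.eqOn_zero_of_preconnected_of_eventuallyEq_zero isPreconnected_univ
      (mem_univ (1 : ℂ)) htop
    have h3 : PhiF a b F 3 = 0 := by
      unfold PhiF
      rw [show F (1 + 3) = 0 from h2 (mem_univ _), zero_mul]
    have h4 := (data 0 hF).eq 3 (by norm_num)
    rw [h3] at h4
    exact Complex.exp_ne_zero _ h4.symm
  obtain ⟨r, hr⟩ := ENat.ne_top_iff_exists.mp hne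
  exact ⟨r, hr.symm⟩

end Pool.Agent.W263.BSD
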