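import Pool.Agent.W263.BSD.Lead7

/-! Rankin-Selberg and the original product. -/

set_option autoImplicit false

namespace Pool.Agent.W263.BSD

open MeasureTheory Filter Topology Set Classical

theorem prime_half : Tendsto (fun u : ℝ =>
    ∑ p ∈ (Finset.Ioc ⌊Real.exp (u / 2)⌋₊ ⌊Real.exp u⌋₊).filter Nat.Prime, (1 : ℝ) / p) atTop
    (𝓝 (Real.log 2)) := by
  obtain ⟨C, hC0, hC⟩ := Pool.Agent.Helper923.HMertens.mertens_ratio
  -- logarithms of the floors
  have hfl : ∀ v : ℝ, 2 ≤ v → v - 1 ≤ Real.log ⌊Real.exp v⌋₊ ∧ Real.log ⌊Real.exp v⌋₊ ≤ v ∧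
      2 ≤ ⌊Real.exp v⌋₊ := by
    intro v hv
    have hexp2 : 4 ≤ Real.exp v := by
      have e1 := Real.exp_one_gt_d9
      have e2 : Real.exp 2 ≤ Real.exp v := Real.exp_le_exp.mpr hv
      have e3 : Real.exp 2 = Real.exp 1 * Real.exp 1 := by rw [← Real.exp_add]; norm_num
      nlinarith
    have ha1 : Real.exp v / 2 ≤ ⌊Real.exp v⌋₊ := by
      have := Nat.sub_one_lt_floor (Real.exp v)
      linarith
    have ha2 : 2 ≤ ⌊Real.exp v⌋₊ := by
      have : (2 : ℝ) ≤ ⌊Real.exp v⌋₊ := by linarith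
      exact_mod_cast this
    have ha0 : (0 : ℝ) < ⌊Real.exp v⌋₊ := by
      have : (2 : ℝ) ≤ ⌊Real.exp v⌋₊ := by exact_mod_cast ha2
      linarith
    refine ⟨?_, ?_, ha2⟩
    · have e1 : Real.log (Real.exp v / 2) ≤ Real.log ⌊Real.exp v⌋₊ :=
        Real.log_le_log (by positivity) ha1
      rw [Real.log_div (Real.exp_pos _).ne' (by norm_num), Real.log_exp] at e1
      have := Real.log_two_lt_d9
      linarith
    · rw [Real.log_le_iff_le_exp ha0]
      exact Nat.floor_le (Real.exp_pos _).le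
  -- squeeze for the quotient
  have hq : Tendsto (fun u : ℝ => Real.log (Real.log ⌊Real.exp u⌋₊ / Real.log ⌊Real.exp (u / 2)⌋₊))
      atTop (𝓝 (Real.log 2)) := by
    have h1 : Tendsto (fun u : ℝ => (u - 1) / (u / 2)) atTop (𝓝 2) := by
      have h2 : Tendsto (fun u : ℝ => 2 - 2 / u) atTop (𝓝 (2 - 0)) :=
        (tendsto_const_nhds.div_atTop tendsto_id).const_sub 2
      rw [sub_zero] at h2
      refine h2.congr' ?_
      filter_upwards [eventually_gt_atTop 0] with u hu
      field_simp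
    have h3 : Tendsto (fun u : ℝ => u / (u / 2 - 1)) atTop (𝓝 2) := by
      have h2 : Tendsto (fun u : ℝ => 2 + 2 / (u / 2 - 1)) atTop (𝓝 (2 + 0)) :=
        (tendsto_const_nhds.div_atTop (tendsto_atTop_add_const_right _ _
          (tendsto_id.atTop_div_const (by norm_num)))).const_add 2
      rw [add_zero] at h2
      refine h2.congr' ?_
      filter_upwards [eventually_gt_atTop 2] with u hu
      have : u / 2 - 1 ≠ 0 := by
        have : 0 < u / 2 - 1 := by linarith
        exact this.ne'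
      have h3 : 2 + 2 / (u / 2 - 1) = (2 * (u / 2 - 1) + 2) / (u / 2 - 1) := by field_simp
      rw [h3]
      congr 1
      ring
    refine Tendsto.log ?_ (by norm_num)
    refine tendsto_of_tendsto_of_tendsto_of_le_of_le' h1 h3 ?_ ?_
    · filter_upwards [eventually_ge_atTop 4] with u hu
      obtain ⟨e1, e2, _⟩ := hfl u (by linarith)
      obtain ⟨e3, e4, _⟩ := hfl (u / 2) (by linarith)
      have : 0 < Real.log ⌊Real.exp (u / 2)⌋₊ := by linarith
      have h5 : 0 ≤ u - 1 := by linarith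
      gcongr
    · filter_upwards [eventually_ge_atTop 4] with u hu
      obtain ⟨e1, e2, _⟩ := hfl u (by linarith)
      obtain ⟨e3, e4, _⟩ := hfl (u / 2) (by linarith)
      have : 0 < u / 2 - 1 := by linarith
      gcongr
  have hz : Tendsto (fun u : ℝ => C / (u / 2 - 1)) atTop (𝓝 0) :=
    tendsto_const_nhds.div_atTop (tendsto_atTop_add_const_right _ _
      (tendsto_id.atTop_div_const (by norm_num)))
  have hd : Tendsto (fun u : ℝ =>
      (∑ p ∈ (Finset.Ioc ⌊Real.exp (u / 2)⌋₊ ⌊Real.exp u⌋₊).filter Nat.Prime, (1 : ℝ) / p) -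
      Real.log (Real.log ⌊Real.exp u⌋₊ / Real.log ⌊Real.exp (u / 2)⌋₊)) atTop (𝓝 0) := by
    refine squeeze_zero_norm' ?_ hz
    filter_upwards [eventually_ge_atTop 4] with u hu
    obtain ⟨e3, e4, e5⟩ := hfl (u / 2) (by linarith)
    have h1 := hC ⌊Real.exp (u / 2)⌋₊ ⌊Real.exp u⌋₊ e5
      (Nat.floor_le_floor (Real.exp_le_exp.mpr (by linarith)))
    rw [Real.norm_eq_abs]
    refine h1.trans ?_
    have : 0 < u / 2 - 1 := by linarith
    gcongr
  have := hd.add hq
  simpa using this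

variable {a b : ℤ}

theorem good_of_large (hΔ : 4 * a ^ 3 + 27 * b ^ 2 ≠ 0) : ∃ D : ℕ, ∀ p : ℕ, p.Prime → D < p →
    GoodPrime a b p := by
  refine ⟨(2 * (-4 * a ^ 3 - 27 * b ^ 2)).natAbs, fun p hp h => ⟨hp, fun hd => ?_⟩⟩
  have h1 : (2 * (-4 * a ^ 3 - 27 * b ^ 2)) ≠ 0 := by
    intro h0
    apply hΔ
    linarith
  have h2 := Int.natAbs_dvd_natAbs.mpr hd
  rw [Int.natAbs_natCast] at h2
  have := Nat.le_of_dvd (Int.natAbs_pos.mpr h1) h2
  omega

/-- `∑_{√x < p ≤ x} (a_p² - p)/p²` over good primes; it tends to `0` by Rankin and Selberg -/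
noncomputable def rsSum (a b : ℤ) (x : ℝ) : ℝ :=
  ∑ p ∈ (Finset.range (⌊x⌋₊ + 1)).filter (fun p => GoodPrime a b p ∧ √x < p),
    (((p : ℝ) - pointCount a b p) ^ 2 - p) / (p : ℝ) ^ 2

theorem corr_tendsto (hΔ : 4 * a ^ 3 + 27 * b ^ 2 ≠ 0)
    (h : Tendsto (rsSum a b) atTop (𝓝 0)) :
    Tendsto (fun x : ℝ => ∑ p ∈ (Finset.range (⌊x⌋₊ + 1)).filter
      (fun p => GoodPrime a b p ∧ √x < p),
        (((p : ℝ) - pointCount a b p) ^ 2 - 2 * p) / (2 * (p : ℝ) ^ 2)) atTop
      (𝓝 (-(Real.log 2 / 2))) := by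
  obtain ⟨D, hD⟩ := good_of_large hΔ
  have h1 : Tendsto (fun x : ℝ => ∑ p ∈ (Finset.range (⌊x⌋₊ + 1)).filter
      (fun p => GoodPrime a b p ∧ √x < p), (1 : ℝ) / p) atTop (𝓝 (Real.log 2)) := by
    refine (prime_half.comp Real.tendsto_log_atTop).congr' ?_
    filter_upwards [eventually_gt_atTop 0, eventually_ge_atTop ((D : ℝ) ^ 2)] with x hx hxD
    simp only [Function.comp_apply]
    have hsq : Real.exp (Real.log x / 2) = √x := by
      rw [Real.sqrt_eq_rpow, Real.rpow_def_of_pos hx]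
      congr 1; ring
    rw [Real.exp_log hx, hsq]
    refine Finset.sum_congr ?_ fun _ _ => rfl
    ext p
    rw [Finset.mem_filter, Finset.mem_filter, Finset.mem_Ioc, Finset.mem_range,
      Nat.floor_lt (Real.sqrt_nonneg x)]
    have hDx : (D : ℝ) ≤ √x := Real.le_sqrt_of_sq_le hxD
    constructor
    · rintro ⟨⟨h2, h3⟩, h4⟩
      refine ⟨by omega, hD p h4 ?_, h2⟩
      have : (D : ℝ) < p := by linarith
      exact_mod_cast this
    · rintro ⟨h2, h3, h4⟩
      exact ⟨⟨h4, by omega⟩, h3.1⟩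
  have h2 := (h.const_mul (1 / 2)).sub (h1.const_mul (1 / 2))
  have h3 : (1 / 2 * 0 - 1 / 2 * Real.log 2) = -(Real.log 2 / 2) := by ring
  rw [h3] at h2
  refine h2.congr fun x => ?_
  unfold rsSum
  rw [Finset.mul_sum, Finset.mul_sum, ← Finset.sum_sub_distrib]
  refine Finset.sum_congr rfl fun p hp => ?_
  have hp0 : (p : ℝ) ≠ 0 := by
    exact_mod_cast (Finset.mem_filter.mp hp).2.1.1.ne_zero
  field_simp
  ring

/-- the original product and the corrected one -/
theorem product_iff_star (hΔ : 4 * a ^ 3 + 27 * b ^ 2 ≠ 0)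
    (h : Tendsto (rsSum a b) atTop (𝓝 0)) (r : ℕ) (C : ℝ) :
    Tendsto (fun x : ℝ => bsdProduct a b x / (Real.log x) ^ r) atTop (𝓝 (√2 * C)) ↔
      Tendsto (fun x : ℝ => bsdStar a b x / (Real.log x) ^ r) atTop (𝓝 C) := by
  have hc := corr_tendsto hΔ h
  have h2 : Real.exp (-(Real.log 2 / 2)) * √2 = 1 := by
    rw [Real.sqrt_eq_rpow, Real.rpow_def_of_pos two_pos, ← Real.exp_add]
    rw [show -(Real.log 2 / 2) + Real.log 2 * (1 / 2) = 0 by ring, Real.exp_zero]
  constructor
  · intro h1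
    have h3 := h1.mul hc.rexp
    have h4 : √2 * C * Real.exp (-(Real.log 2 / 2)) = C := by
      rw [mul_comm (√2) C, mul_assoc, mul_comm (√2), h2, mul_one]
    rw [h4] at h3
    refine h3.congr fun x => ?_
    unfold bsdStar
    ring
  · intro h1
    have h3 := h1.mul hc.neg.rexp
    have h5 : Real.exp (-(-(Real.log 2 / 2))) = √2 := by
      rw [neg_neg, Real.sqrt_eq_rpow, Real.rpow_def_of_pos two_pos]
      congr 1; ring
    rw [h5, mul_comm C] at h3
    refine h3.congr fun x => ?_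
    unfold bsdStar
    rw [mul_div_right_comm, mul_assoc, ← Real.exp_add, add_neg_cancel, Real.exp_zero, mul_one]

/-- the leading coefficient is a positive real number if there are no real zeros `> 1` -/
theorem coeff_real {F : ℂ → ℂ} (hF : IsLSeries a b F) {r : ℕ} (hr : analyticOrderAt F 1 = r)
    (hconv : ∀ w > 0, LInt (aak (SS a b) (Ap a b) 0) w) :
    iteratedDeriv r F 1 = (‖iteratedDeriv r F 1‖ : ℂ) := by
  -- `F (1 + w)` is a positive real for `w > 0`
  have h1 : ∀ w : ℝ, 0 < w → F (1 + w) = (‖F (1 + w)‖ : ℂ) := by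
    intro w hw
    have h2 := (data 0 hF).real_eq le_rfl hconv hw
    have h3 : ∃ y : ℝ, 0 < y ∧ small a b w = y := by
      unfold small
      have : ∀ s : Finset ℕ, ∃ y : ℝ, 0 < y ∧
          (∏ p ∈ s, if GoodPrime a b p then ef a b p w else 1) = (y : ℂ) := by
        intro s
        induction s using Finset.induction_on with
        | empty => exact ⟨1, one_pos, by simp⟩
        | insert p s hps ih =>
          obtain ⟨y, hy, he⟩ := ih
          rw [Finset.prod_insert hps, he]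
          split_ifs with hg
          · obtain ⟨z, hz, he'⟩ := ef_real_pos (a := a) (b := b) hg.1 hw.le
            exact ⟨z * y, mul_pos hz hy, by rw [he']; push_cast; ring⟩
          · exact ⟨y, hy, by rw [one_mul]⟩
      exact this _
    obtain ⟨y, hy, he⟩ := h3
    set z : ℝ := Real.exp ((GG (SS a b) (Ap a b) w).re - w ^ (0 + 1) *
      lap (aak (SS a b) (Ap a b) 0) w) with hz
    have h4 : F (1 + w) = ((z / y : ℝ) : ℂ) := by
      unfold PhiF at h2
      rw [he] at h2
      have hyc : (y : ℂ) ≠ 0 := by exact_mod_cast hy.ne'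
      rw [eq_div_iff hyc |>.mpr h2]
      push_cast
      rfl
    rw [h4, Complex.norm_real, Real.norm_of_nonneg (by positivity)]
  obtain ⟨hpos, hlim⟩ := lead_limit hF.1 hr
  -- complex limit
  have hFa : AnalyticAt ℂ F 1 := hF.1.analyticAt 1
  have hz := (natCast_le_analyticOrderAt_iff_iteratedDeriv_eq_zero hFa (n := r)).mp hr.ge
  have hfa : AnalyticAt ℂ (fun w : ℂ => F (1 + w)) 0 := by
    have : Differentiable ℂ (fun w : ℂ => F (1 + w)) := hF.1.comp (by fun_prop)
    exact this.analyticAt 0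
  obtain ⟨G, hG, hG'⟩ := hfa.exists_eq_sum_add_pow_mul (r + 1)
  have h4 : ∀ i, iteratedDeriv i (fun w : ℂ => F (1 + w)) 0 = iteratedDeriv i F 1 := by
    intro i
    rw [iteratedDeriv_comp_const_add]
    simp
  have h5 : ∀ w : ℂ, F (1 + w) = w ^ r * (iteratedDeriv r F 1 / (r.factorial : ℂ) + w * G w) := by
    intro w
    rw [hG' w, Finset.sum_range_succ, Finset.sum_eq_zero, h4, zero_add, smul_eq_mul, smul_eq_mul]
    · ring
    · intro i hi
      rw [h4, hz i (Finset.mem_range.mp hi), smul_zero]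
  have h6 : Tendsto (fun w : ℝ => (w : ℂ)) (𝓝[>] 0) (𝓝 0) := by
    have := Complex.continuous_ofReal.tendsto 0
    rw [Complex.ofReal_zero] at this
    exact tendsto_nhdsWithin_of_tendsto_nhds this
  have h7 : Tendsto (fun w : ℝ => iteratedDeriv r F 1 / (r.factorial : ℂ) + w * G w) (𝓝[>] 0)
      (𝓝 (iteratedDeriv r F 1 / (r.factorial : ℂ))) := by
    have h8 : Tendsto (fun w : ℂ => iteratedDeriv r F 1 / (r.factorial : ℂ) + w * G w) (𝓝 0)
        (𝓝 (iteratedDeriv r F 1 / (r.factorial : ℂ) + 0 * G 0)) :=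
      (tendsto_id.mul hG.continuousAt.tendsto).const_add _
    rw [zero_mul, add_zero] at h8
    exact h8.comp h6
  have h8 : Tendsto (fun w : ℝ => ((‖F (1 + w)‖ / w ^ r : ℝ) : ℂ)) (𝓝[>] 0)
      (𝓝 (leadAbs F r : ℂ)) := (Complex.continuous_ofReal.tendsto _).comp hlim
  have h9 : iteratedDeriv r F 1 / (r.factorial : ℂ) = (leadAbs F r : ℂ) := by
    refine tendsto_nhds_unique h7 (h8.congr' ?_)
    filter_upwards [self_mem_nhdsWithin] with w hw
    have hw0 : (0 : ℝ) < w := hw
    have hwc : (w : ℂ) ≠ 0 := by exact_mod_cast hw0.ne'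
    push_cast
    rw [← h1 w hw0, h5 w]
    field_simp
  have hfac : (r.factorial : ℂ) ≠ 0 := by exact_mod_cast r.factorial_ne_zero
  rw [div_eq_iff hfac] at h9
  rw [h9]
  unfold leadAbs
  rw [norm_mul, Complex.norm_real, Complex.norm_natCast, Real.norm_of_nonneg (by positivity)]
  push_cast
  rfl

end Pool.Agent.W263.BSD
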