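import Pool.Agent.W263.BSD.Euler2

/-! The data of an Euler product. -/

set_option autoImplicit false

namespace Pool.Agent.W263.BSD

open MeasureTheory Filter Topology Set Classical

variable {S : Set ℕ} {A : ℕ → ℝ}

theorem EData.hasProd (E : EData S A) (k : ℕ) {w : ℂ} (hw : 1 < w.re) :
    HasProd (fun p => if p ∈ S then (fac A p (xp p w))⁻¹ else 1)
      (Complex.exp (GG S A w - w ^ (k + 1) * lapC (aak S A k) w)) := by
  have h1 := lap_hasSum E k hw
  have h2 := (E.gterm_summable (by linarith : 0 < w.re)).hasSum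
  have h3 := (h2.sub h1)
  have h4 : (fun p => gterm S A p w - if p ∈ S then (cc A p : ℂ) * xp p w else 0) =
      fun p => if p ∈ S then -Complex.log (fac A p (xp p w)) else 0 := by
    funext p
    unfold gterm
    split_ifs
    · ring
    · simp
  rw [h4] at h3
  have h5 := h3.cexp
  have h6 : (Complex.exp ∘ fun p => if p ∈ S then -Complex.log (fac A p (xp p w)) else 0) =
      fun p => if p ∈ S then (fac A p (xp p w))⁻¹ else 1 := by
    funext p
    simp only [Function.comp_apply]
    split_ifs with h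
    · rw [Complex.exp_neg, Complex.exp_log]
      have h25 := E.big p h
      have := factor_slit (dl_nonneg p) (dl_le h25) (E.tt_le h)
        (norm_xp_le (p := p) (by omega) (by linarith : 0 ≤ w.re))
      exact Complex.slitPlane_ne_zero this
    · simp
  rw [h6] at h5
  exact h5

theorem summable_primes {w : ℝ} (hw : 0 < w) :
    Summable fun p : Nat.Primes => (p : ℝ) ^ (-(1 + w)) :=
  (Real.summable_nat_rpow.mpr (by linarith : -(1 + w) < -1)).comp_injective
    Nat.Primes.coe_nat_injective

theorem EData.GG_bound (E : EData S A) : ∃ C : ℝ, ∀ᶠ w : ℝ in 𝓝[>] 0, |(GG S A w).re| ≤ C := by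
  obtain ⟨C, hC⟩ := Pool.Agent.H341R2.lam_bounded
  have hC2 : ∀ᶠ w : ℝ in 𝓝[>] 0, |Pool.Agent.H341R2.lam (2 * w) + Real.log (2 * w)| ≤ C := by
    have h1 : Tendsto (fun w : ℝ => 2 * w) (𝓝[>] 0) (𝓝[>] 0) := by
      rw [tendsto_nhdsWithin_iff]
      constructor
      · have : Tendsto (fun w : ℝ => 2 * w) (𝓝 0) (𝓝 (2 * 0)) := by
          exact tendsto_id.const_mul 2
        rw [mul_zero] at this
        exact tendsto_nhdsWithin_of_tendsto_nhds this
      · filter_upwards [self_mem_nhdsWithin] with w hw
        have : (0 : ℝ) < w := hw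
        show (0 : ℝ) < 2 * w
        linarith
    exact h1.eventually hC
  refine ⟨2 * C + Real.log 2 + ∑' p : ℕ, 60 * (p : ℝ) ^ (-(3 / 2) : ℝ), ?_⟩
  filter_upwards [hC, hC2, self_mem_nhdsWithin] with w h1 h2 h3
  have hw : (0 : ℝ) < w := h3
  have hs1 := summable_primes hw
  have hs2 := summable_primes (w := 2 * w) (by linarith)
  -- the majorant over the primes
  set f : ℕ → ℝ := fun p => (p : ℝ) ^ (-(1 + w)) - (p : ℝ) ^ (-(1 + 2 * w)) with hf
  have hf1 : Summable (({p : ℕ | p.Prime}).indicator f) := by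
    have : Summable (fun p : Nat.Primes => f p) := hs1.sub hs2
    exact (summable_subtype_iff_indicator (f := f) (s := {p : ℕ | p.Prime})).mp this
  have hf2 : ∑' p, ({p : ℕ | p.Prime}).indicator f p =
      Pool.Agent.H341R2.lam w - Pool.Agent.H341R2.lam (2 * w) := by
    unfold Pool.Agent.H341R2.lam
    rw [← hs1.tsum_sub hs2]
    exact (tsum_subtype {p : ℕ | p.Prime} f).symm
  have hg1 : Summable fun p : ℕ => 60 * (p : ℝ) ^ (-(3 / 2) : ℝ) :=
    (Real.summable_nat_rpow.mpr (by norm_num)).mul_left _
  have hb : ∀ p, ‖gterm S A p w‖ ≤ ({p : ℕ | p.Prime}).indicator f p +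
      60 * (p : ℝ) ^ (-(3 / 2) : ℝ) := by
    intro p
    by_cases hp : p ∈ S
    · have h25 := E.big p hp
      have hp1 : (1 : ℝ) ≤ p := by exact_mod_cast (show 1 ≤ p by omega)
      have hp0 : (0 : ℝ) < p := by linarith
      rw [indicator_of_mem (show p ∈ {p : ℕ | p.Prime} from E.prime p hp)]
      have h4 := E.gterm_main hp (w := w) (by simpa using hw.le)
      rw [dl_cube (by omega)] at h4
      have h5 : ‖(mm A p * (xp p w - xp p w ^ 2) : ℂ)‖ ≤ f p := by
        rw [xp_real, ← Complex.ofReal_pow, ← Complex.ofReal_sub, ← Complex.ofReal_mul,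
          Complex.norm_real, Real.norm_eq_abs, abs_mul]
        set x : ℝ := (p : ℝ) ^ (-w) with hx
        have hx0 : 0 < x := by positivity
        have hx1 : x ≤ 1 := Real.rpow_le_one_of_one_le_of_nonpos hp1 (by linarith)
        have h6 : 0 ≤ x - x ^ 2 := by nlinarith
        rw [abs_of_nonneg h6]
        have h7 : f p = 1 / p * (x - x ^ 2) := by
          have e1 : (p : ℝ) ^ (-(1 + w)) = 1 / p * x := by
            rw [show (-(1 + w) : ℝ) = -1 + -w by ring, Real.rpow_add hp0, Real.rpow_neg_one,
              one_div]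
          have e2 : (p : ℝ) ^ (-(1 + 2 * w)) = 1 / p * x ^ 2 := by
            rw [show (-(1 + 2 * w) : ℝ) = -1 + (-w) * (2 : ℕ) by push_cast; ring,
              Real.rpow_add hp0, Real.rpow_neg_one, one_div, Real.rpow_mul hp0.le,
              Real.rpow_natCast]
          rw [hf]
          simp only []
          rw [e1, e2]
          ring
        rw [h7]
        exact mul_le_mul_of_nonneg_right (E.mm_le hp) h6
      have h8 : ‖gterm S A p w‖ ≤ ‖gterm S A p w - mm A p * (xp p w - xp p w ^ 2)‖ +
          ‖(mm A p * (xp p w - xp p w ^ 2) : ℂ)‖ := by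
        have := norm_add_le (gterm S A p w - mm A p * (xp p w - xp p w ^ 2))
          (mm A p * (xp p w - xp p w ^ 2))
        rwa [sub_add_cancel] at this
      linarith
    · unfold gterm
      rw [if_neg hp, norm_zero]
      refine add_nonneg ?_ (by positivity)
      refine indicator_nonneg (fun q hq => ?_) p
      have hq' : q.Prime := hq
      have hq1 : (1 : ℝ) ≤ q := by exact_mod_cast hq'.one_le
      rw [hf]
      simp only []
      rw [sub_nonneg]
      exact Real.rpow_le_rpow_of_exponent_le hq1 (by linarith)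
  have h9 : ‖GG S A w‖ ≤ ∑' p, (({p : ℕ | p.Prime}).indicator f p +
      60 * (p : ℝ) ^ (-(3 / 2) : ℝ)) := by
    unfold GG
    exact tsum_of_norm_bounded (hf1.add hg1).hasSum hb
  rw [hf1.tsum_add hg1, hf2] at h9
  have h10 := abs_le.mp h1
  have h11 := abs_le.mp h2
  rw [Real.log_mul (by norm_num) hw.ne'] at h11
  have h12 := Complex.abs_re_le_norm (GG S A w)
  linarith [h10.1, h10.2, h11.1, h11.2]

/-- The data attached to an Euler product with entire continuation. -/
theorem EData.data (E : EData S A) (k : ℕ) {Φ : ℂ → ℂ} (hΦ : Differentiable ℂ Φ)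
    (hprod : ∀ w : ℂ, 1 < w.re →
      HasProd (fun p => if p ∈ S then (fac A p (xp p w))⁻¹ else 1) (Φ w)) :
    Data (k + 1) (aak S A k) Φ (GG S A) 2 where
  meas := aak_measurable k
  c0_nonneg := zero_le_two
  int := fun _ hw => E.aak_LInt k hw
  hΦ := hΦ
  hG := fun _ hz => E.GG_differentiable hz
  hGre := fun _ hw => E.GG_im hw
  eq := fun z hz => (hprod z (by linarith)).unique (E.hasProd k (by linarith))

end Pool.Agent.W263.BSD
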