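import Pool.Agent.W263.BSD.Kara2
import Pool.Agent.W263.BSD.Euler3

/-! Abstract main theorems. -/

set_option autoImplicit false

namespace Pool.Agent.W263.BSD

open MeasureTheory Filter Topology Set Classical

variable {k : ℕ} {a : ℝ → ℝ} {Φ G : ℂ → ℂ} {c0 : ℝ}

/-- one-sided subexponential bounds imply convergence for all `w > 0` -/
theorem Data.conv_of_upper {m : ℕ} (D : Data m a Φ G c0)
    (hloc : ∀ u, |a u| ≤ Real.exp (2 * u) + Real.exp u)
    (h : ∀ ε > 0, ∀ᶠ u in atTop, a u ≤ Real.exp (ε * u)) : ∀ w > 0, LInt a w := by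
  intro w hw
  obtain ⟨U, hU⟩ := eventually_atTop.mp (h (w / 2) (half_pos hw))
  set V : ℝ := max U 1 with hV
  set K : ℝ := Real.exp (2 * V) + Real.exp V with hK
  set κ : ℝ → ℝ := fun u => ex (w / 2) u + K * ex 0 u with hκ
  have hκm : Measurable κ := (ex_meas _).add ((ex_meas 0).const_mul _)
  have hκi : ∀ w' > w / 2, LInt κ w' := fun w' hw' =>
    (ex_LInt hw').add ((ex_LInt (by linarith)).const_mul _)
  refine D.core_upper (half_pos hw).le hκm hκi (fun u hu => ?_) w (by linarith)
  rw [hκ]
  simp only [ex, zero_mul, Real.exp_zero, mul_one]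
  rcases le_or_gt V u with h2 | h2
  · have h3 := hU u ((le_max_left _ _).trans h2)
    have : 0 ≤ K := by positivity
    linarith
  · have h3 := (abs_le.mp (hloc u)).2
    have h5 : Real.exp u ≤ Real.exp V := Real.exp_le_exp.mpr h2.le
    have h5' : Real.exp (2 * u) ≤ Real.exp (2 * V) := Real.exp_le_exp.mpr (by linarith)
    have := Real.exp_pos (w / 2 * u)
    linarith

theorem Data.nonvanish {m : ℕ} (D : Data m a Φ G c0) (h : ∀ w > 0, LInt a w) {z : ℂ}
    (hz : 0 < z.re) : Φ z ≠ 0 := by
  rw [D.eq_of_conv le_rfl h z hz]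
  exact Complex.exp_ne_zero _

/-- `pk k u * log u` is subexponential -/
theorem pk_log_le (k : ℕ) (K : ℝ) {ε : ℝ} (hε : 0 < ε) :
    ∀ᶠ u in atTop, K * (pk k u * Real.log u) ≤ Real.exp (ε * u) := by
  have h1 := (isLittleO_pow_exp_pos_mul_atTop (k + 1) hε).bound
    (show (0 : ℝ) < 1 / (|K| + 1) by positivity)
  filter_upwards [h1, eventually_ge_atTop 1] with u h1 h2
  have hu : 0 < u := by linarith
  rw [Real.norm_of_nonneg (by positivity), Real.norm_of_nonneg (Real.exp_pos _).le] at h1
  have h3 : pk k u ≤ u ^ k := by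
    unfold pk
    exact div_le_self (by positivity) (by exact_mod_cast Nat.one_le_iff_ne_zero.mpr k.factorial_ne_zero)
  have h4 : Real.log u ≤ u := (Real.log_le_sub_one_of_pos hu).trans (by linarith)
  have h5 : 0 ≤ Real.log u := Real.log_nonneg h2
  have h6 : pk k u * Real.log u ≤ u ^ (k + 1) := by
    rw [pow_succ]
    exact mul_le_mul h3 h4 h5 (by positivity)
  have h7 : 0 ≤ pk k u * Real.log u := mul_nonneg (pk_nonneg k hu.le) h5
  calc K * (pk k u * Real.log u) ≤ |K| * u ^ (k + 1) :=
        mul_le_mul (le_abs_self K) h6 h7 (abs_nonneg _)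
    _ ≤ |K| * (1 / (|K| + 1) * Real.exp (ε * u)) := by gcongr
    _ = (|K| / (|K| + 1)) * Real.exp (ε * u) := by ring
    _ ≤ 1 * Real.exp (ε * u) := by
        gcongr
        rw [div_le_one (by positivity)]
        linarith
    _ = _ := one_mul _

theorem log_div_tendsto {f : ℝ → ℝ} {c C : ℝ}
    (h : ∀ᶠ w : ℝ in 𝓝[>] 0, |f w - c * (-Real.log w)| ≤ C) :
    Tendsto (fun w : ℝ => f w / (-Real.log w)) (𝓝[>] 0) (𝓝 c) := by
  have h1 : Tendsto (fun w : ℝ => C / (-Real.log w)) (𝓝[>] 0) (𝓝 0) := by
    refine Tendsto.const_div_atTop ?_ C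
    exact tendsto_neg_atBot_atTop.comp Real.tendsto_log_nhdsGT_zero
  rw [tendsto_iff_dist_tendsto_zero]
  refine squeeze_zero' (Eventually.of_forall fun w => dist_nonneg) ?_ h1
  filter_upwards [h, Ioo_mem_nhdsGT (show (0 : ℝ) < 1 by norm_num)] with w h2 h3
  have h4 : 0 < -Real.log w := by
    have := Real.log_neg h3.1 h3.2
    linarith
  rw [Real.dist_eq]
  have h5 : f w / (-Real.log w) - c = (f w - c * (-Real.log w)) / (-Real.log w) := by
    rw [sub_div, mul_div_cancel_right₀ _ h4.ne']
  rw [h5, abs_div, abs_of_pos h4]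
  exact div_le_div_of_nonneg_right h2 h4.le

/-- **Tauberian theorem**: an upper bound for `a` forces the mean value of `a`. -/
theorem Data.mean (D : Data (k + 1) a Φ G c0)
    (hloc : ∀ u, |a u| ≤ Real.exp (2 * u) + Real.exp u)
    (hGb : ∃ C : ℝ, ∀ᶠ w : ℝ in 𝓝[>] 0, |(G w).re| ≤ C) {r : ℕ} (hr : OrdZero Φ r) {K : ℝ}
    (h : ∀ᶠ u in atTop, a u ≤ K * (pk k u * Real.log u)) :
    Tendsto (fun U : ℝ => (∫ u in Ioc 0 U, a u) / (U ^ (k + 1) / (k + 1).factorial * Real.log U))
      atTop (𝓝 r) := by
  have hconv : ∀ w > 0, LInt a w := by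
    refine D.conv_of_upper hloc fun ε hε => ?_
    filter_upwards [h, pk_log_le k K hε] with u h1 h2 using h1.trans h2
  obtain ⟨C, hC⟩ := hGb
  obtain ⟨c, hc0, hc⟩ := hr.limit
  obtain ⟨U, hU⟩ := eventually_atTop.mp h
  set V : ℝ := max U 1 with hV
  have hV1 : 1 ≤ V := le_max_right _ _
  set L : ℝ := (Real.exp (2 * V) + Real.exp V) * Real.exp V with hL
  have hL0 : 0 ≤ L := by positivity
  set κ : ℝ → ℝ := fun u => |K| * pl k u + L * ex (-1) u with hκ
  have hκm : Measurable κ := ((pl_meas k).const_mul _).add ((ex_meas (-1)).const_mul _)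
  have hκi : ∀ w > 0, LInt κ w := fun w hw =>
    ((pl_LInt k hw).const_mul _).add ((ex_LInt (show (-1 : ℝ) < w by linarith)).const_mul _)
  have hκ0 : ∀ u, 0 < u → 0 ≤ κ u := by
    intro u hu
    rw [hκ]
    simp only [ex, pl]
    have h1 := pk_nonneg k hu.le
    have h2 := ell_nonneg hu.le
    have h3 : 0 ≤ ell u := by linarith
    positivity
  have hle : ∀ u, 0 < u → a u ≤ κ u := by
    intro u hu
    rw [hκ]
    simp only [ex, pl]
    have hpk := pk_nonneg k hu.le
    have hel : 0 ≤ ell u := by linarith [ell_nonneg hu.le]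
    rcases le_or_gt V u with h2 | h2
    · have h3 := hU u ((le_max_left _ _).trans h2)
      have h5 : 0 ≤ L * Real.exp (-1 * u) := by positivity
      have h6 : 0 ≤ pk k u * Real.log u := mul_nonneg hpk (Real.log_nonneg (by linarith))
      have h7 : K * (pk k u * Real.log u) ≤ |K| * (pk k u * ell u) :=
        mul_le_mul (le_abs_self K) (mul_le_mul_of_nonneg_left (log_le_ell hu) hpk) h6 (abs_nonneg _)
      linarith
    · have h3 := (abs_le.mp (hloc u)).2
      have h4 : Real.exp (2 * V) + Real.exp V ≤ L * Real.exp (-1 * u) := by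
        rw [hL, mul_assoc, ← Real.exp_add]
        have : 1 ≤ Real.exp (V + -1 * u) := Real.one_le_exp (by linarith)
        have h5 : 0 ≤ Real.exp (2 * V) + Real.exp V := by positivity
        nlinarith
      have h5 : Real.exp u ≤ Real.exp V := Real.exp_le_exp.mpr h2.le
      have h5' : Real.exp (2 * u) ≤ Real.exp (2 * V) := Real.exp_le_exp.mpr (by linarith)
      have h6 : 0 ≤ |K| * (pk k u * ell u) := by positivity
      linarith
  -- Laplace transform of `κ`
  have hκlap : ∀ᶠ w : ℝ in 𝓝[>] 0, |w ^ (k + 1) * lap κ w - |K| * (-Real.log w)| ≤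
      |K| * (Real.exp 1 + k + |ck k|) + L := by
    filter_upwards [Ioo_mem_nhdsGT (show (0 : ℝ) < 1 by norm_num)] with w hw
    have hw0 := hw.1
    have hwk : 0 < w ^ (k + 1) := pow_pos hw0 _
    have hwk1 : w ^ (k + 1) ≤ 1 := pow_le_one₀ hw0.le hw.2.le
    rw [hκ, lap_add ((pl_LInt k hw0).const_mul _)
      ((ex_LInt (show (-1 : ℝ) < w by linarith)).const_mul _), lap_const_mul, lap_const_mul,
      ex_lap (show (-1 : ℝ) < w by linarith)]
    have e1 := pl_lap_le k hw0 hw.2.le
    have e2 := le_pl_lap k hw0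
    have e3 : 0 ≤ 1 / (w - -1) ∧ 1 / (w - -1) ≤ 1 := by
      constructor
      · apply div_nonneg zero_le_one; linarith
      · rw [div_le_one (by linarith)]; linarith
    have e4 : 0 ≤ w ^ (k + 1) * (L * (1 / (w - -1))) ∧ w ^ (k + 1) * (L * (1 / (w - -1))) ≤ L := by
      constructor
      · exact mul_nonneg hwk.le (mul_nonneg hL0 e3.1)
      · calc w ^ (k + 1) * (L * (1 / (w - -1))) ≤ 1 * (L * 1) := by
              have := e3.1
              have := e3.2
              gcongr
          _ = L := by ring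
    have e5 : w ^ (k + 1) * (|K| * lap (pl k) w + L * (1 / (w - -1))) - |K| * (-Real.log w) =
        |K| * (w ^ (k + 1) * lap (pl k) w - -Real.log w) +
          w ^ (k + 1) * (L * (1 / (w - -1))) := by ring
    rw [e5]
    have e6 : |w ^ (k + 1) * lap (pl k) w - -Real.log w| ≤ Real.exp 1 + k + |ck k| := by
      rw [abs_le]
      constructor
      · have := le_abs_self (ck k)
        have := Real.exp_pos 1
        have : (0 : ℝ) ≤ k := by positivity
        linarith
      · have := abs_nonneg (ck k)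
        linarith
    refine (abs_add_le _ _).trans (add_le_add ?_ ?_)
    · rw [abs_mul, abs_abs]
      exact mul_le_mul_of_nonneg_left e6 (abs_nonneg _)
    · rw [abs_of_nonneg e4.1]; exact e4.2
  -- Laplace transform of `a`
  have halap : ∀ᶠ w : ℝ in 𝓝[>] 0, |w ^ (k + 1) * lap a w - r * (-Real.log w)| ≤
      C + (|Real.log c| + 1) := by
    have h1 : Tendsto (fun w : ℝ => Real.log (‖Φ w‖ / w ^ r)) (𝓝[>] 0) (𝓝 (Real.log c)) :=
      hc.log hc0.ne'
    have h2 : ∀ᶠ w : ℝ in 𝓝[>] 0, |Real.log (‖Φ w‖ / w ^ r)| ≤ |Real.log c| + 1 := by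
      have := h1.abs.eventually (gt_mem_nhds (show |Real.log c| < |Real.log c| + 1 by linarith))
      filter_upwards [this] with w hw using hw.le
    filter_upwards [hC, h2, self_mem_nhdsWithin] with w h3 h4 h5
    have hw : (0 : ℝ) < w := h5
    rw [D.real_eq le_rfl hconv hw, Complex.norm_real, Real.norm_of_nonneg (Real.exp_pos _).le,
      Real.log_div (Real.exp_pos _).ne' (pow_pos hw _).ne', Real.log_exp, Real.log_pow] at h4
    have e1 : w ^ (k + 1) * lap a w - r * (-Real.log w) =
        (G w).re - ((G w).re - w ^ (k + 1) * lap a w - r * Real.log w) := by ring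
    rw [e1]
    exact (abs_sub _ _).trans (add_le_add h3 h4)
  -- apply Karamata
  have hb0 : ∀ u, 0 < u → 0 ≤ κ u - a u := fun u hu => by have := hle u hu; linarith
  have hbi : ∀ w > 0, LInt (fun u => κ u - a u) w := fun w hw => (hκi w hw).sub (hconv w hw)
  have hbm : Measurable fun u => κ u - a u := hκm.sub D.meas
  have hk1 := karamata k hκm hκ0 hκi (log_div_tendsto hκlap)
  have hk2 : Tendsto (fun U : ℝ => (∫ u in Ioc 0 U, (κ u - a u)) /
      (U ^ (k + 1) / (k + 1).factorial * Real.log U)) atTop (𝓝 (|K| - r)) := by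
    refine karamata k hbm hb0 hbi (log_div_tendsto
      (C := (|K| * (Real.exp 1 + k + |ck k|) + L) + (C + (|Real.log c| + 1))) ?_)
    filter_upwards [hκlap, halap, self_mem_nhdsWithin] with w h1 h2 h3
    have hw : (0 : ℝ) < w := h3
    rw [lap_sub (hκi w hw) (hconv w hw)]
    have e1 : w ^ (k + 1) * (lap κ w - lap a w) - (|K| - r) * (-Real.log w) =
        (w ^ (k + 1) * lap κ w - |K| * (-Real.log w)) -
        (w ^ (k + 1) * lap a w - r * (-Real.log w)) := by ring
    rw [e1]
    exact (abs_sub _ _).trans (add_le_add h1 h2)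
  have hk3 := hk1.sub hk2
  rw [sub_sub_cancel] at hk3
  refine hk3.congr fun U => ?_
  rw [← sub_div, ← integral_sub (b_integrable hκm hκi U) (b_integrable hbm hbi U)]
  congr 2
  funext u
  ring

variable {S : Set ℕ} {A : ℕ → ℝ}

theorem EData.integral_aak (E : EData S A) (k : ℕ) {U : ℝ} (hU : 0 < U) :
    ∫ u in Ioc 0 U, aak S A k u = aak S A (k + 1) U := by
  set R := Finset.range (⌊Real.exp U⌋₊ + 1) with hR
  -- the sum with indicators
  have h1 : ∀ u ∈ Ioc 0 U, aak S A k u =
      ∑ p ∈ R, if p ∈ S then (Ici (Real.log p)).indicator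
        (fun u => cc A p * ((u - Real.log p) ^ k / k.factorial)) u else 0 := by
    intro u hu
    unfold aak
    have hsub : Finset.range (⌊Real.exp u⌋₊ + 1) ⊆ R := by
      apply Finset.range_subset_range.mpr
      have := Nat.floor_le_floor (Real.exp_le_exp.mpr hu.2)
      omega
    rw [← Finset.sum_subset hsub (f := fun p => if p ∈ S then (Ici (Real.log p)).indicator
        (fun u => cc A p * ((u - Real.log p) ^ k / k.factorial)) u else 0)]
    · refine Finset.sum_congr rfl fun p hp => ?_
      unfold rt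
      split_ifs with h
      · rw [indicator_of_mem]
        exact (mem_iff E h u).mp hp
      · rfl
    · intro p _ hp
      split_ifs with h
      · rw [indicator_of_notMem]
        rw [mem_iff E h u] at hp
        exact hp
      · rfl
  rw [setIntegral_congr_fun measurableSet_Ioc h1]
  have hint : ∀ p ∈ R, IntegrableOn (fun u => if p ∈ S then (Ici (Real.log p)).indicator
        (fun u => cc A p * ((u - Real.log p) ^ k / k.factorial)) u else 0) (Ioc 0 U) := by
    intro p _
    split_ifs
    · refine IntegrableOn.indicator ?_ measurableSet_Ici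
      refine (Continuous.integrableOn_Icc (a := 0) (b := U) (by fun_prop)).mono_set Ioc_subset_Icc_self
    · exact integrableOn_zero
  rw [integral_finsetSum _ hint]
  unfold aak
  rw [← hR]
  refine Finset.sum_congr rfl fun p hp => ?_
  unfold rt
  split_ifs with h
  · have hpl := (mem_iff E h U).mp hp
    have hp0 := log_prime_pos E h
    rw [setIntegral_indicator measurableSet_Ici]
    have e1 : Ioc 0 U ∩ Ici (Real.log p) = Icc (Real.log p) U := by
      ext u
      simp only [mem_inter_iff, mem_Ioc, mem_Ici, mem_Icc]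
      constructor
      · rintro ⟨⟨_, h1⟩, h2⟩; exact ⟨h2, h1⟩
      · rintro ⟨h1, h2⟩; exact ⟨⟨by linarith, h2⟩, h1⟩
    rw [e1, integral_Icc_eq_integral_Ioc, ← intervalIntegral.integral_of_le hpl,
      intervalIntegral.integral_const_mul, intervalIntegral.integral_div]
    have e2 := intervalIntegral.integral_comp_sub_right (a := Real.log p) (b := U)
      (fun u => u ^ k) (Real.log p)
    rw [e2, integral_pow, sub_self, Nat.factorial_succ]
    have : (k.factorial : ℝ) ≠ 0 := by positivity
    push_cast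
    field_simp
    simp
  · simp

end Pool.Agent.W263.BSD
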