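import Pool.Agent.W263.BSD.Curve

/-! Final theorems on Riesz means of the Birch and Swinnerton-Dyer products. -/

set_option autoImplicit false

namespace Pool.Agent.W263.BSD

open MeasureTheory Filter Topology Set Classical

variable {a b : ℤ}

/-- `log ((N_p + 1)/p)` -/
noncomputable def lp (a b : ℤ) (p : ℕ) : ℝ := Real.log (((pointCount a b p : ℝ) + 1) / p)

theorem cc_eq_lp {p : ℕ} (hp : 1 ≤ p) : cc (Ap a b) p = lp a b p := by
  have hp0 : (p : ℝ) ≠ 0 := by exact_mod_cast (show p ≠ 0 by omega)
  unfold cc lp tt Ap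
  rw [dl_sq hp]
  congr 1
  field_simp
  ring

theorem riesz_approx (a b : ℤ) : ∃ B : ℝ, 0 ≤ B ∧ ∀ k : ℕ, ∀ u : ℝ, 0 < u →
    |rieszMean a b k (Real.exp u) * pk k u - aak (SS a b) (Ap a b) k u| ≤ B * pk k u := by
  refine ⟨∑ p ∈ Finset.range 25, |lp a b p|, Finset.sum_nonneg fun p _ => abs_nonneg _, ?_⟩
  intro k u hu
  have hpk : 0 < pk k u := by unfold pk; positivity
  set R := Finset.range (⌊Real.exp u⌋₊ + 1) with hR
  have h1 : rieszMean a b k (Real.exp u) * pk k u =
      ∑ p ∈ R, if GoodPrime a b p then (1 - Real.log p / u) ^ k * lp a b p * pk k u else 0 := by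
    unfold rieszMean
    rw [Real.log_exp, ← hR, Finset.sum_filter, Finset.sum_mul]
    refine Finset.sum_congr rfl fun p _ => ?_
    split_ifs
    · rfl
    · simp
  have h2 : rieszMean a b k (Real.exp u) * pk k u - aak (SS a b) (Ap a b) k u =
      ∑ p ∈ R, if GoodPrime a b p ∧ p < 25 then (1 - Real.log p / u) ^ k * lp a b p * pk k u
        else 0 := by
    rw [h1]
    unfold aak
    rw [← hR, ← Finset.sum_sub_distrib]
    refine Finset.sum_congr rfl fun p _ => ?_
    unfold rt
    by_cases hg : GoodPrime a b p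
    · by_cases h25 : 25 ≤ p
      · have hS : p ∈ SS a b := ⟨hg, h25⟩
        rw [if_pos hg, if_pos hS, if_neg (by omega), cc_eq_lp (by omega)]
        unfold pk
        have : (1 - Real.log p / u) ^ k * u ^ k = (u - Real.log p) ^ k := by
          rw [← mul_pow]
          congr 1
          field_simp
        rw [sub_eq_zero, ← this]
        ring
      · have hS : p ∉ SS a b := fun h => h25 h.2
        rw [if_pos hg, if_neg hS, if_pos ⟨hg, by omega⟩, sub_zero]
    · have hS : p ∉ SS a b := fun h => hg h.1
      rw [if_neg hg, if_neg hS, if_neg (fun h => hg h.1), sub_zero]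
  rw [h2]
  calc |∑ p ∈ R, if GoodPrime a b p ∧ p < 25 then (1 - Real.log p / u) ^ k * lp a b p * pk k u
        else 0|
      ≤ ∑ p ∈ R, |if GoodPrime a b p ∧ p < 25 then (1 - Real.log p / u) ^ k * lp a b p * pk k u
        else 0| := Finset.abs_sum_le_sum_abs _ _
    _ ≤ ∑ p ∈ R, if p < 25 then |lp a b p| * pk k u else 0 := by
        refine Finset.sum_le_sum fun p hp => ?_
        by_cases h : GoodPrime a b p ∧ p < 25
        · rw [if_pos h, if_pos h.2, abs_mul, abs_mul, abs_of_pos hpk]
          have hp1 : (1 : ℝ) ≤ p := by exact_mod_cast h.1.1.one_le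
          have hlog : 0 ≤ Real.log p := Real.log_nonneg hp1
          have hle : Real.log p ≤ u := by
            rw [Real.log_le_iff_le_exp (by linarith)]
            rw [hR, Finset.mem_range] at hp
            exact (Nat.le_floor_iff (Real.exp_pos u).le).mp (by omega)
          have h3 : |(1 - Real.log p / u) ^ k| ≤ 1 := by
            have e1 : 0 ≤ Real.log p / u := by positivity
            have e2 : Real.log p / u ≤ 1 := by rw [div_le_one hu]; exact hle
            rw [abs_of_nonneg (pow_nonneg (by linarith) k)]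
            exact pow_le_one₀ (by linarith) (by linarith)
          calc |(1 - Real.log p / u) ^ k| * |lp a b p| * pk k u ≤ 1 * |lp a b p| * pk k u := by
                gcongr
            _ = _ := by ring
        · rw [if_neg h, abs_zero]
          split_ifs
          · positivity
          · exact le_rfl
    _ = ∑ p ∈ R.filter (· < 25), |lp a b p| * pk k u := by rw [Finset.sum_filter]
    _ ≤ ∑ p ∈ Finset.range 25, |lp a b p| * pk k u := by
        refine Finset.sum_le_sum_of_subset_of_nonneg ?_ fun p _ _ => by positivity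
        intro p hp
        rw [Finset.mem_filter] at hp
        exact Finset.mem_range.mpr hp.2
    _ = (∑ p ∈ Finset.range 25, |lp a b p|) * pk k u := by rw [Finset.sum_mul]

theorem pk_pos (k : ℕ) {u : ℝ} (hu : 0 < u) : 0 < pk k u := by unfold pk; positivity

theorem hloc (a b : ℤ) (k : ℕ) (u : ℝ) :
    |aak (SS a b) (Ap a b) k u| ≤ Real.exp (2 * u) + Real.exp u := (eData a b).aak_abs k u

/-- Unconditional lower bound for the upper exponent. -/
theorem upper {F : ℂ → ℂ} (hF : IsLSeries a b F) {r : ℕ} (hr : analyticOrderAt F 1 = r) (k : ℕ) :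
    ∃ M : ℝ, ∃ᶠ x : ℝ in atTop, r * Real.log (Real.log x) - M < rieszMean a b k x := by
  by_contra hcon
  push Not at hcon
  obtain ⟨B, hB0, hB⟩ := riesz_approx a b
  refine (data k hF).limsup (hloc a b k) (eData a b).GG_bound (ordZero hF hr) fun M => ?_
  have h1 := Real.tendsto_exp_atTop.eventually (hcon (M + B))
  filter_upwards [h1, eventually_gt_atTop 0] with u h2 hu
  rw [Real.log_exp] at h2
  have h3 := (abs_le.mp (hB k u hu)).1
  have h4 := mul_le_mul_of_nonneg_right h2 (pk_pos k hu).le
  linarith

/-- Lower exponent, if there are no real zeros to the right of `1`. -/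
theorem lower {F : ℂ → ℂ} (hF : IsLSeries a b F) {r : ℕ} (hr : analyticOrderAt F 1 = r)
    (hne : ∀ s : ℝ, 1 < s → F s ≠ 0) (k : ℕ) :
    ∃ M : ℝ, ∃ᶠ x : ℝ in atTop, rieszMean a b k x < r * Real.log (Real.log x) + M := by
  by_contra hcon
  push Not at hcon
  obtain ⟨B, hB0, hB⟩ := riesz_approx a b
  refine (data k hF).liminf (hloc a b k) (eData a b).GG_bound (ordZero hF hr) (fun w hw => ?_)
    fun M => ?_
  · unfold PhiF
    refine mul_ne_zero ?_ (small_ne_zero_real hw.le)
    have := hne (1 + w) (by linarith)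
    push_cast at this
    exact this
  have h1 := Real.tendsto_exp_atTop.eventually (hcon (M + B))
  filter_upwards [h1, eventually_gt_atTop 0] with u h2 hu
  rw [Real.log_exp] at h2
  have h3 := (abs_le.mp (hB k u hu)).2
  have h4 := mul_le_mul_of_nonneg_right h2 (pk_pos k hu).le
  linarith

/-- One-sided subexponential bounds imply that there are no zeros in `Re s > 1`. -/
theorem no_zeros {F : ℂ → ℂ} (hF : IsLSeries a b F) (k : ℕ)
    (h : ∀ ε : ℝ, 0 < ε → ∀ᶠ x : ℝ in atTop, rieszMean a b k x ≤ x ^ ε) {s : ℂ} (hs : 1 < s.re) :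
    F s ≠ 0 := by
  obtain ⟨B, hB0, hB⟩ := riesz_approx a b
  have hconv := (data k hF).conv_of_upper (hloc a b k) fun ε hε => by
    have h1 := Real.tendsto_exp_atTop.eventually (h (ε / 2) (half_pos hε))
    -- `(1 + B) u^k ≤ exp (ε/2 u)`
    have h2 := (isLittleO_pow_exp_pos_mul_atTop k (half_pos hε)).bound
      (show (0 : ℝ) < 1 / (1 + B) by positivity)
    filter_upwards [h1, h2, eventually_gt_atTop 0] with u h3 h4 hu
    rw [Real.norm_of_nonneg (by positivity), Real.norm_of_nonneg (Real.exp_pos _).le] at h4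
    have h5 := (abs_le.mp (hB k u hu)).1
    have h6 : pk k u ≤ u ^ k := by
      unfold pk
      exact div_le_self (by positivity)
        (by exact_mod_cast Nat.one_le_iff_ne_zero.mpr k.factorial_ne_zero)
    have h7 : Real.exp u ^ (ε / 2) = Real.exp (ε / 2 * u) := by
      rw [← Real.exp_mul]; congr 1; ring
    rw [h7] at h3
    have h8 : 1 ≤ Real.exp (ε / 2 * u) := Real.one_le_exp (by positivity)
    have h9 : aak (SS a b) (Ap a b) k u ≤ pk k u * ((1 + B) * Real.exp (ε / 2 * u)) := by
      have e1 := mul_le_mul_of_nonneg_right h3 (pk_pos k hu).le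
      have e2 : B * pk k u ≤ B * pk k u * Real.exp (ε / 2 * u) :=
        le_mul_of_one_le_right (mul_nonneg hB0 (pk_pos k hu).le) h8
      linarith
    refine h9.trans ?_
    calc pk k u * ((1 + B) * Real.exp (ε / 2 * u)) ≤
          (1 / (1 + B) * Real.exp (ε / 2 * u)) * ((1 + B) * Real.exp (ε / 2 * u)) := by
          refine mul_le_mul_of_nonneg_right (h6.trans h4) (by positivity)
      _ = Real.exp (ε / 2 * u) * Real.exp (ε / 2 * u) := by field_simp
      _ = Real.exp (ε * u) := by rw [← Real.exp_add]; congr 1; ring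
  have h1 := (data k hF).nonvanish hconv (z := s - 1) (by simp; linarith)
  unfold PhiF at h1
  rw [add_sub_cancel] at h1
  exact left_ne_zero_of_mul h1

/-- `K log log x` is subexponential. -/
theorem no_zeros_of_loglog {F : ℂ → ℂ} (hF : IsLSeries a b F) (k : ℕ) {K : ℝ}
    (h : ∀ᶠ x : ℝ in atTop, rieszMean a b k x ≤ K * Real.log (Real.log x)) {s : ℂ}
    (hs : 1 < s.re) : F s ≠ 0 := by
  refine no_zeros hF k (fun ε hε => ?_) hs
  have h1 := (isLittleO_log_rpow_atTop hε).bound (show (0 : ℝ) < 1 / (|K| + 1) by positivity)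
  have h2 : ∀ᶠ x : ℝ in atTop, Real.exp 1 ≤ x := eventually_ge_atTop _
  filter_upwards [h, h1, h2] with x h3 h4 h5
  have hx : 0 < x := lt_of_lt_of_le (Real.exp_pos 1) h5
  have hl : 1 ≤ Real.log x := by
    rw [Real.le_log_iff_exp_le hx]; exact h5
  rw [Real.norm_of_nonneg (by linarith), Real.norm_of_nonneg (by positivity)] at h4
  have hll : 0 ≤ Real.log (Real.log x) := Real.log_nonneg hl
  have hle : Real.log (Real.log x) ≤ Real.log x :=
    (Real.log_le_sub_one_of_pos (by linarith)).trans (by linarith)
  refine h3.trans ?_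
  calc K * Real.log (Real.log x) ≤ |K| * Real.log x :=
        mul_le_mul (le_abs_self K) hle hll (abs_nonneg _)
    _ ≤ |K| * (1 / (|K| + 1) * x ^ ε) := by gcongr
    _ = (|K| / (|K| + 1)) * x ^ ε := by ring
    _ ≤ 1 * x ^ ε := by
        gcongr
        rw [div_le_one (by positivity)]
        linarith
    _ = _ := one_mul _

/-- A one-sided bound forces the next Riesz mean. -/
theorem mean {F : ℂ → ℂ} (hF : IsLSeries a b F) {r : ℕ} (hr : analyticOrderAt F 1 = r) (k : ℕ)
    {K : ℝ} (h : ∀ᶠ x : ℝ in atTop, rieszMean a b k x ≤ K * Real.log (Real.log x)) :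
    Tendsto (fun x : ℝ => rieszMean a b (k + 1) x / Real.log (Real.log x)) atTop (𝓝 r) := by
  obtain ⟨B, hB0, hB⟩ := riesz_approx a b
  have h1 : ∀ᶠ u : ℝ in atTop, aak (SS a b) (Ap a b) k u ≤ (K + B) * (pk k u * Real.log u) := by
    filter_upwards [Real.tendsto_exp_atTop.eventually h, eventually_ge_atTop (Real.exp 1)]
      with u h2 hu1
    have hu : 0 < u := lt_of_lt_of_le (Real.exp_pos 1) hu1
    rw [Real.log_exp] at h2
    have h3 := (abs_le.mp (hB k u hu)).1
    have h4 := mul_le_mul_of_nonneg_right h2 (pk_pos k hu).le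
    have h5 : 1 ≤ Real.log u := by
      rw [Real.le_log_iff_exp_le hu]; exact hu1
    have h6 : B * pk k u ≤ B * pk k u * Real.log u :=
      le_mul_of_one_le_right (mul_nonneg hB0 (pk_pos k hu).le) h5
    linarith
  have h2 := (data k hF).mean (hloc a b k) (eData a b).GG_bound (ordZero hF hr) h1
  have h3 : Tendsto (fun u : ℝ => rieszMean a b (k + 1) (Real.exp u) / Real.log u) atTop (𝓝 r) := by
    have h4 : Tendsto (fun u : ℝ => B / Real.log u) atTop (𝓝 0) :=
      Tendsto.const_div_atTop Real.tendsto_log_atTop B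
    have h5 : Tendsto (fun u : ℝ => rieszMean a b (k + 1) (Real.exp u) / Real.log u -
        (∫ u in Ioc 0 u, aak (SS a b) (Ap a b) k u) /
          (u ^ (k + 1) / (k + 1).factorial * Real.log u)) atTop (𝓝 0) := by
      rw [tendsto_zero_iff_norm_tendsto_zero]
      refine squeeze_zero' (Eventually.of_forall fun u => norm_nonneg _) ?_ h4
      filter_upwards [eventually_gt_atTop 1] with u hu1
      have hu : 0 < u := by linarith
      have hl : 0 < Real.log u := Real.log_pos hu1
      have hp := pk_pos (k + 1) hu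
      rw [(eData a b).integral_aak k hu]
      have e1 : u ^ (k + 1) / ((k + 1).factorial : ℝ) = pk (k + 1) u := rfl
      rw [e1, Real.norm_eq_abs]
      have e2 : rieszMean a b (k + 1) (Real.exp u) / Real.log u -
          aak (SS a b) (Ap a b) (k + 1) u / (pk (k + 1) u * Real.log u) =
          (rieszMean a b (k + 1) (Real.exp u) * pk (k + 1) u -
            aak (SS a b) (Ap a b) (k + 1) u) / (pk (k + 1) u * Real.log u) := by
        field_simp
      rw [e2, abs_div, abs_of_pos (mul_pos hp hl)]
      calc |rieszMean a b (k + 1) (Real.exp u) * pk (k + 1) u -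
            aak (SS a b) (Ap a b) (k + 1) u| / (pk (k + 1) u * Real.log u) ≤
            (B * pk (k + 1) u) / (pk (k + 1) u * Real.log u) :=
              div_le_div_of_nonneg_right (hB (k + 1) u hu) (mul_pos hp hl).le
        _ = B / Real.log u := by field_simp
    have h6 := h5.add h2
    rw [zero_add] at h6
    refine h6.congr fun u => ?_
    ring
  refine (h3.comp Real.tendsto_log_atTop).congr' ?_
  filter_upwards [eventually_gt_atTop 0] with x hx
  simp only [Function.comp_apply]
  rw [Real.exp_log hx]

end Pool.Agent.W263.BSD
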