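import Pool.Agent.W263.BSD.Euler2

/-! Asymptotic consequences near `w = 0`. -/

set_option autoImplicit false

namespace Pool.Agent.W263.BSD

open MeasureTheory Filter Topology Set

/-- exponential functions -/
noncomputable def ex (c : ℝ) (u : ℝ) : ℝ := Real.exp (c * u)

theorem ex_meas (c : ℝ) : Measurable (ex c) := by unfold ex; fun_prop

theorem ex_LInt {c w : ℝ} (h : c < w) : LInt (ex c) w := by
  unfold LInt ex
  have h1 := integrableOn_exp_mul_Ioi (a := c - w) (by linarith) 0
  refine h1.congr_fun (fun u _ => ?_) measurableSet_Ioi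
  simp only []
  rw [← Real.exp_add]; congr 1; ring

theorem ex_lap {c w : ℝ} (h : c < w) : lap (ex c) w = 1 / (w - c) := by
  unfold lap ex
  have h1 := integral_exp_mul_Ioi (a := c - w) (by linarith) 0
  have h2 : (fun u : ℝ => Real.exp (c * u) * Real.exp (-(w * u))) =
      fun u => Real.exp ((c - w) * u) := by
    funext u; rw [← Real.exp_add]; congr 1; ring
  rw [h2, h1, mul_zero, Real.exp_zero, ← neg_sub w c, neg_div_neg_eq]

theorem lap_mono {f g : ℝ → ℝ} {w : ℝ} (hf : LInt f w) (hg : LInt g w)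
    (h : ∀ u, 0 < u → f u ≤ g u) : lap f w ≤ lap g w := by
  have := lap_nonneg (f := fun u => g u - f u) (fun u hu => by have := h u hu; linarith) w
  rw [lap_sub hg hf] at this
  linarith

/-- `log (u + e)` -/
noncomputable def ell (u : ℝ) : ℝ := Real.log (u + Real.exp 1)

theorem ell_meas : Measurable ell := by unfold ell; fun_prop

theorem ell_nonneg {u : ℝ} (hu : 0 ≤ u) : 1 ≤ ell u := by
  unfold ell
  rw [Real.le_log_iff_exp_le (by positivity)]
  linarith

theorem log_le_ell {u : ℝ} (hu : 0 < u) : Real.log u ≤ ell u := by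
  unfold ell
  apply Real.log_le_log hu
  linarith [Real.exp_pos 1]

theorem ell_le {u : ℝ} (hu : 2 ≤ u) : ell u ≤ Real.log u + 1 := by
  unfold ell
  have h1 := Real.exp_one_gt_d9
  rw [← Real.log_exp 1, ← Real.log_mul (by positivity) (Real.exp_pos 1).ne', Real.log_exp 1]
  apply Real.log_le_log (by positivity)
  nlinarith

theorem ell_mono {u v : ℝ} (hu : 0 ≤ u) (huv : u ≤ v) : ell u ≤ ell v := by
  unfold ell
  apply Real.log_le_log (by positivity)
  linarith

/-- `u^k / k!` -/
noncomputable def pk (k : ℕ) (u : ℝ) : ℝ := u ^ k / k.factorial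

theorem pk_meas (k : ℕ) : Measurable (pk k) := by unfold pk; fun_prop

theorem pk_nonneg (k : ℕ) {u : ℝ} (hu : 0 ≤ u) : 0 ≤ pk k u := by unfold pk; positivity

theorem pk_le (k : ℕ) {u v : ℝ} (hu : 0 ≤ u) (huv : u ≤ v) : pk k u ≤ Real.exp v := by
  unfold pk
  exact (Real.pow_div_factorial_le_exp u hu k).trans (Real.exp_le_exp.mpr huv)

theorem pk_LInt (k : ℕ) {w : ℝ} (hw : 0 < w) : LInt (pk k) w := by
  have := (pow_LInt k hw).const_mul (1 / (k.factorial : ℝ))
  have e : (fun u : ℝ => 1 / (k.factorial : ℝ) * u ^ k) = pk k := by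
    funext u; unfold pk; ring
  rwa [e] at this

theorem pk_lap (k : ℕ) {w : ℝ} (hw : 0 < w) : lap (pk k) w = 1 / w ^ (k + 1) := by
  have e : (fun u : ℝ => 1 / (k.factorial : ℝ) * u ^ k) = pk k := by
    funext u; unfold pk; ring
  rw [← e, lap_const_mul, pow_lap k hw]
  have : (k.factorial : ℝ) ≠ 0 := by positivity
  field_simp

/-- `u^k / k! log (u + e)` -/
noncomputable def pl (k : ℕ) (u : ℝ) : ℝ := pk k u * ell u

theorem pl_meas (k : ℕ) : Measurable (pl k) := (pk_meas k).mul ell_meas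

theorem pl_LInt (k : ℕ) {w : ℝ} (hw : 0 < w) : LInt (pl k) w := by
  have h1 : LInt (fun u => (1 / (k.factorial : ℝ)) * u ^ (k + 1) + Real.exp 1 * pk k u) w :=
    ((pow_LInt (k + 1) hw).const_mul _).add ((pk_LInt k hw).const_mul _)
  refine LInt.of_bound (pl_meas k) h1 fun u hu => ?_
  unfold pl
  have h2 := pk_nonneg k hu.le
  have h3 := ell_nonneg hu.le
  rw [abs_of_nonneg (mul_nonneg h2 (by linarith))]
  have h4 : ell u ≤ u + Real.exp 1 := by
    unfold ell
    have := Real.log_le_sub_one_of_pos (show 0 < u + Real.exp 1 by positivity)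
    linarith
  calc pk k u * ell u ≤ pk k u * (u + Real.exp 1) := mul_le_mul_of_nonneg_left h4 h2
    _ = _ := by unfold pk; ring

theorem pl_lap_le (k : ℕ) {w : ℝ} (hw : 0 < w) (hw1 : w ≤ 1) :
    w ^ (k + 1) * lap (pl k) w ≤ -Real.log w + (Real.exp 1 + k) := by
  have h1 : lap (pl k) w ≤ lap (fun u => (-Real.log w + Real.exp 1 - 1) * pk k u +
      (w / (k.factorial : ℝ)) * u ^ (k + 1)) w := by
    refine lap_mono (pl_LInt k hw) (((pk_LInt k hw).const_mul _).add
      ((pow_LInt (k + 1) hw).const_mul _)) ?_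
    intro u hu
    have h2 : ell u ≤ -Real.log w + Real.exp 1 - 1 + w * u := by
      unfold ell
      have h2 : Real.log (u + Real.exp 1) = -Real.log w + Real.log (w * (u + Real.exp 1)) := by
        rw [Real.log_mul hw.ne' (by positivity)]; ring
      have h3 := Real.log_le_sub_one_of_pos (show 0 < w * (u + Real.exp 1) by positivity)
      have h4 : w * Real.exp 1 ≤ Real.exp 1 := by
        have := Real.exp_pos 1
        nlinarith
      rw [h2]
      nlinarith
    have h5 := mul_le_mul_of_nonneg_left h2 (pk_nonneg k hu.le)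
    unfold pl
    refine h5.trans (le_of_eq ?_)
    unfold pk
    rw [pow_succ]
    ring
  rw [lap_add ((pk_LInt k hw).const_mul _) ((pow_LInt (k + 1) hw).const_mul _), lap_const_mul,
    lap_const_mul, pk_lap k hw, pow_lap (k + 1) hw] at h1
  have h5 := mul_le_mul_of_nonneg_left h1 (pow_pos hw (k + 1)).le
  refine h5.trans (le_of_eq ?_)
  rw [Nat.factorial_succ]
  have : (k.factorial : ℝ) ≠ 0 := by positivity
  push_cast
  field_simp
  ring

/-- the constant of the lower bound -/
noncomputable def ck (k : ℕ) : ℝ := 2 * Real.Gamma (k + 1 / 2) / k.factorial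

theorem sqrtinv_LInt (k : ℕ) {w : ℝ} (hw : 0 < w) : LInt (fun u => u ^ ((k + 1 / 2 : ℝ) - 1)) w := by
  unfold LInt
  by_contra h
  have h1 := integral_undef h
  rw [Real.integral_rpow_mul_exp_neg_mul_Ioi (a := k + 1 / 2) (by positivity) hw] at h1
  have h2 : 0 < (1 / w) ^ (k + 1 / 2 : ℝ) * Real.Gamma (k + 1 / 2) :=
    mul_pos (by positivity) (Real.Gamma_pos_of_pos (by positivity))
  linarith

theorem le_pl_lap (k : ℕ) {w : ℝ} (hw : 0 < w) :
    -Real.log w - ck k ≤ w ^ (k + 1) * lap (pl k) w := by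
  have h1 : lap (fun u => (-Real.log w) * pk k u -
      (2 * w ^ (-(1 / 2) : ℝ) / (k.factorial : ℝ)) * u ^ ((k + 1 / 2 : ℝ) - 1)) w ≤ lap (pl k) w := by
    refine lap_mono (((pk_LInt k hw).const_mul _).sub ((sqrtinv_LInt k hw).const_mul _))
      (pl_LInt k hw) ?_
    intro u hu
    have h2 : -Real.log w + Real.log (w * u) ≤ ell u := by
      rw [Real.log_mul hw.ne' hu.ne']
      have := log_le_ell hu
      linarith
    have h3 : -2 * (w * u) ^ (-(1 / 2) : ℝ) ≤ Real.log (w * u) := by
      set x := w * u with hx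
      have hx0 : 0 < x := mul_pos hw hu
      have h4 := Real.log_le_sub_one_of_pos (show 0 < x ^ (-(1 / 2) : ℝ) by positivity)
      rw [Real.log_rpow hx0] at h4
      linarith
    have h5 : (w * u) ^ (-(1 / 2) : ℝ) = w ^ (-(1 / 2) : ℝ) * u ^ (-(1 / 2) : ℝ) :=
      Real.mul_rpow hw.le hu.le
    have h6 : u ^ ((k + 1 / 2 : ℝ) - 1) = u ^ k * u ^ (-(1 / 2) : ℝ) := by
      rw [show ((k : ℝ) + 1 / 2) - 1 = (k : ℝ) + -(1 / 2) by ring, Real.rpow_add hu,
        Real.rpow_natCast]
    have h7 : -Real.log w - 2 * (w ^ (-(1 / 2) : ℝ) * u ^ (-(1 / 2) : ℝ)) ≤ ell u := by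
      rw [h5] at h3
      linarith
    have h8 := mul_le_mul_of_nonneg_left h7 (pk_nonneg k hu.le)
    unfold pl
    refine le_trans (le_of_eq ?_) h8
    rw [h6]
    unfold pk
    ring
  rw [lap_sub ((pk_LInt k hw).const_mul _) ((sqrtinv_LInt k hw).const_mul _), lap_const_mul,
    lap_const_mul, pk_lap k hw] at h1
  have h6 : lap (fun u => u ^ ((k + 1 / 2 : ℝ) - 1)) w =
      (1 / w) ^ (k + 1 / 2 : ℝ) * Real.Gamma (k + 1 / 2) := by
    unfold lap
    rw [Real.integral_rpow_mul_exp_neg_mul_Ioi (a := k + 1 / 2) (by positivity) hw]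
  rw [h6] at h1
  have h7 := mul_le_mul_of_nonneg_left h1 (pow_pos hw (k + 1)).le
  refine le_trans (le_of_eq ?_) h7
  have h8 : w ^ (k + 1) * (w ^ (-(1 / 2) : ℝ) * (1 / w) ^ (k + 1 / 2 : ℝ)) = 1 := by
    rw [one_div w, Real.inv_rpow hw.le, ← Real.rpow_neg hw.le, ← Real.rpow_add hw,
      ← Real.rpow_natCast, ← Real.rpow_add hw]
    rw [show (((k + 1 : ℕ) : ℝ) + (-(1 / 2) + -((k : ℝ) + 1 / 2))) = 0 by push_cast; ring,
      Real.rpow_zero]
  have h9 : w ^ (k + 1) * (-Real.log w * (1 / w ^ (k + 1))) = -Real.log w := by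
    have : w ^ (k + 1) ≠ 0 := (pow_pos hw (k + 1)).ne'
    field_simp
  rw [mul_sub, h9]
  unfold ck
  linear_combination (2 * Real.Gamma (k + 1 / 2) / (k.factorial : ℝ)) * h8

variable {k : ℕ} {a : ℝ → ℝ} {Φ G : ℂ → ℂ} {c0 : ℝ}

/-- the order of vanishing at `0` -/
def OrdZero (Φ : ℂ → ℂ) (r : ℕ) : Prop :=
  ∃ g : ℂ → ℂ, AnalyticAt ℂ g 0 ∧ g 0 ≠ 0 ∧ ∀ᶠ z in 𝓝 0, Φ z = z ^ r * g z

theorem OrdZero.limit {r : ℕ} (h : OrdZero Φ r) :
    ∃ c : ℝ, 0 < c ∧ Tendsto (fun w : ℝ => ‖Φ w‖ / w ^ r) (𝓝[>] 0) (𝓝 c) := by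
  obtain ⟨g, hg, hg0, he⟩ := h
  refine ⟨‖g 0‖, norm_pos_iff.mpr hg0, ?_⟩
  have h1 : Tendsto (fun w : ℝ => (w : ℂ)) (𝓝[>] 0) (𝓝 0) := by
    have := Complex.continuous_ofReal.tendsto 0
    rw [Complex.ofReal_zero] at this
    exact tendsto_nhdsWithin_of_tendsto_nhds this
  have h2 : Tendsto (fun w : ℝ => ‖g w‖) (𝓝[>] 0) (𝓝 ‖g 0‖) :=
    (hg.continuousAt.tendsto.comp h1).norm
  refine h2.congr' ?_
  filter_upwards [h1.eventually he, self_mem_nhdsWithin] with w h3 h4
  have hw : (0 : ℝ) < w := h4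
  rw [h3, norm_mul, norm_pow, Complex.norm_real, Real.norm_of_nonneg hw.le]
  field_simp

/-- **The upper estimate of `a` cannot be better than `u^k/k! (r log u - O(1))`.** -/
theorem Data.limsup (D : Data (k + 1) a Φ G c0) (hloc : ∀ u, |a u| ≤ Real.exp (2 * u) + Real.exp u)
    (hGb : ∃ C : ℝ, ∀ᶠ w : ℝ in 𝓝[>] 0, |(G w).re| ≤ C) {r : ℕ} (hr : OrdZero Φ r)
    (h : ∀ M : ℝ, ∀ᶠ u in atTop, a u ≤ pk k u * (r * Real.log u - M)) : False := by
  obtain ⟨C, hC⟩ := hGb
  obtain ⟨c, hc0, hc⟩ := hr.limit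
  -- choice of `M`
  set M : ℝ := C + r * (Real.exp 1 + k) + Real.log (c + 1) + 1 with hM
  obtain ⟨U, hU⟩ := eventually_atTop.mp (h M)
  set V : ℝ := max U 1 with hV
  have hV1 : 1 ≤ V := le_max_right _ _
  set K : ℝ := (Real.exp (2 * V) + Real.exp V + |M| * Real.exp V) * Real.exp V with hK
  have hK0 : 0 ≤ K := by positivity
  set κ : ℝ → ℝ := fun u => (r * pl k u + (-M) * pk k u) + K * ex (-1) u with hκ
  have hκm : Measurable κ :=
    (((pl_meas k).const_mul _).add ((pk_meas k).const_mul _)).add ((ex_meas (-1)).const_mul _)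
  have hκ1 : ∀ w > 0, LInt (fun u => r * pl k u + (-M) * pk k u) w := fun w hw =>
    ((pl_LInt k hw).const_mul _).add ((pk_LInt k hw).const_mul _)
  have hκi : ∀ w > 0, LInt κ w := fun w hw =>
    (hκ1 w hw).add ((ex_LInt (show (-1 : ℝ) < w by linarith)).const_mul _)
  have hle : ∀ u, 0 < u → a u ≤ κ u := by
    intro u hu
    rw [hκ]
    simp only [ex, pl]
    have hpk := pk_nonneg k hu.le
    have h1 : 0 ≤ (r : ℝ) * (pk k u * ell u) :=
      mul_nonneg (by positivity) (mul_nonneg hpk (by linarith [ell_nonneg hu.le]))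
    rcases le_or_gt V u with h2 | h2
    · have h3 := hU u ((le_max_left _ _).trans h2)
      have h4 : pk k u * (r * Real.log u) ≤ pk k u * (r * ell u) :=
        mul_le_mul_of_nonneg_left (mul_le_mul_of_nonneg_left (log_le_ell hu) (by positivity)) hpk
      have h5 : 0 ≤ K * Real.exp (-1 * u) := by positivity
      linarith
    · have h3 := (abs_le.mp (hloc u)).2
      have h4 : Real.exp (2 * V) + Real.exp V + |M| * Real.exp V ≤ K * Real.exp (-1 * u) := by
        rw [hK, mul_assoc, ← Real.exp_add]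
        have : 1 ≤ Real.exp (V + -1 * u) := Real.one_le_exp (by linarith)
        have h5 : 0 ≤ Real.exp (2 * V) + Real.exp V + |M| * Real.exp V := by positivity
        nlinarith
      have h5 : Real.exp u ≤ Real.exp V := Real.exp_le_exp.mpr h2.le
      have h5' : Real.exp (2 * u) ≤ Real.exp (2 * V) := Real.exp_le_exp.mpr (by linarith)
      have h6 : M * pk k u ≤ |M| * Real.exp V :=
        mul_le_mul (le_abs_self M) (pk_le k hu.le h2.le) hpk (abs_nonneg _)
      linarith
  have hconv := D.core_upper le_rfl hκm hκi hle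
  -- lower bound for `Φ w / w ^ r`
  have hlow : ∀ᶠ w : ℝ in 𝓝[>] 0,
      Real.exp (M - C - r * (Real.exp 1 + k) - K * w) ≤ ‖Φ w‖ / w ^ r := by
    filter_upwards [hC, self_mem_nhdsWithin, Ioo_mem_nhdsGT (show (0 : ℝ) < 1 by norm_num)]
      with w h1 h2 h3
    have hw : (0 : ℝ) < w := h2
    rw [D.real_eq le_rfl hconv hw, Complex.norm_real, Real.norm_of_nonneg (Real.exp_pos _).le]
    have h4 : lap a w ≤ lap κ w := lap_mono (hconv w hw) (hκi w hw) hle
    have hwk : 0 < w ^ (k + 1) := pow_pos hw _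
    have h5 : w ^ (k + 1) * lap κ w ≤ r * (-Real.log w + (Real.exp 1 + k)) - M + K * w := by
      rw [hκ, lap_add (hκ1 w hw) ((ex_LInt (show (-1 : ℝ) < w by linarith)).const_mul _),
        lap_add ((pl_LInt k hw).const_mul _) ((pk_LInt k hw).const_mul _), lap_const_mul,
        lap_const_mul, lap_const_mul, pk_lap k hw, ex_lap (show (-1 : ℝ) < w by linarith)]
      have e1 := mul_le_mul_of_nonneg_left (pl_lap_le k hw h3.2.le) (show (0 : ℝ) ≤ r by positivity)
      have e2 : w ^ (k + 1) * (-M * (1 / w ^ (k + 1))) = -M := by field_simp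
      have e3 : 1 / (w - -1) ≤ 1 := by
        rw [div_le_one (by linarith)]; linarith
      have e4 : w ^ (k + 1) * (K * (1 / (w - -1))) ≤ K * w := by
        have e7 : w ^ (k + 1) ≤ w := by
          have := pow_le_pow_of_le_one hw.le h3.2.le (show 1 ≤ k + 1 by omega)
          rwa [pow_one] at this
        calc w ^ (k + 1) * (K * (1 / (w - -1))) ≤ w * (K * 1) := by
              have : 0 ≤ 1 / (w - -1) := by
                apply div_nonneg zero_le_one; linarith
              gcongr
          _ = K * w := by ring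
      have e5 : w ^ (k + 1) * (r * lap (pl k) w) = r * (w ^ (k + 1) * lap (pl k) w) := by ring
      rw [mul_add, mul_add, e2, e5]
      linarith
    have h6 : w ^ (k + 1) * lap a w ≤ w ^ (k + 1) * lap κ w := mul_le_mul_of_nonneg_left h4 hwk.le
    have h7 := (abs_le.mp h1).1
    have h8 : w ^ r = Real.exp (r * Real.log w) := by
      rw [mul_comm, Real.exp_mul, Real.exp_log hw, Real.rpow_natCast]
    rw [h8, ← Real.exp_sub]
    apply Real.exp_le_exp.mpr
    linarith
  have hlim : Tendsto (fun w : ℝ => Real.exp (M - C - r * (Real.exp 1 + k) - K * w)) (𝓝[>] 0)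
      (𝓝 (Real.exp (M - C - r * (Real.exp 1 + k) - K * 0))) := by
    have : Continuous fun w : ℝ => Real.exp (M - C - r * (Real.exp 1 + k) - K * w) := by fun_prop
    exact tendsto_nhdsWithin_of_tendsto_nhds (this.tendsto 0)
  have h9 := le_of_tendsto_of_tendsto hlim hc hlow
  have h10 : M - C - r * (Real.exp 1 + k) - K * 0 = Real.log (c + 1) + 1 := by rw [hM]; ring
  rw [h10, Real.exp_add, Real.exp_log (by linarith)] at h9
  have h11 : 1 ≤ Real.exp 1 := Real.one_le_exp zero_le_one
  nlinarith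

/-- **The lower estimate of `a` cannot be better than `u^k/k! (r log u + O(1))`,** if `Φ` has no
positive zeros. -/
theorem Data.liminf (D : Data (k + 1) a Φ G c0) (hloc : ∀ u, |a u| ≤ Real.exp (2 * u) + Real.exp u)
    (hGb : ∃ C : ℝ, ∀ᶠ w : ℝ in 𝓝[>] 0, |(G w).re| ≤ C) {r : ℕ} (hr : OrdZero Φ r)
    (hne : ∀ w : ℝ, 0 < w → Φ w ≠ 0)
    (h : ∀ M : ℝ, ∀ᶠ u in atTop, pk k u * (r * Real.log u + M) ≤ a u) : False := by
  obtain ⟨C, hC⟩ := hGb
  obtain ⟨c, hc0, hc⟩ := hr.limit
  set M : ℝ := C + ck k * r - Real.log (c / 2) with hM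
  obtain ⟨U, hU⟩ := eventually_atTop.mp (h (M + r))
  set V : ℝ := max U 2 with hV
  have hV1 : 2 ≤ V := le_max_right _ _
  set K : ℝ := (Real.exp V * (r * ell V + |M|) + Real.exp (2 * V) + Real.exp V) * Real.exp V
    with hK
  have hellV : 1 ≤ ell V := ell_nonneg (by linarith)
  have hK0 : 0 ≤ K := by positivity
  set κ : ℝ → ℝ := fun u => (r * pl k u + M * pk k u) + (-K) * ex (-1) u with hκ
  have hκm : Measurable κ :=
    (((pl_meas k).const_mul _).add ((pk_meas k).const_mul _)).add ((ex_meas (-1)).const_mul _)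
  have hκ1 : ∀ w > 0, LInt (fun u => r * pl k u + M * pk k u) w := fun w hw =>
    ((pl_LInt k hw).const_mul _).add ((pk_LInt k hw).const_mul _)
  have hκi : ∀ w > 0, LInt κ w := fun w hw =>
    (hκ1 w hw).add ((ex_LInt (show (-1 : ℝ) < w by linarith)).const_mul _)
  have hle : ∀ u, 0 < u → κ u ≤ a u := by
    intro u hu
    rw [hκ]
    simp only [ex, pl]
    have hpk := pk_nonneg k hu.le
    rcases le_or_gt V u with h2 | h2
    · have h3 := hU u ((le_max_left _ _).trans h2)
      have h4 : pk k u * (r * ell u) ≤ pk k u * (r * (Real.log u + 1)) :=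
        mul_le_mul_of_nonneg_left (mul_le_mul_of_nonneg_left (ell_le (by linarith)) (by positivity))
          hpk
      have h5 : 0 ≤ K * Real.exp (-1 * u) := by positivity
      linarith
    · have h3 := (abs_le.mp (hloc u)).1
      have h0 : pk k u * (r * ell u + M) ≤ Real.exp V * (r * ell V + |M|) := by
        have e1 : (r : ℝ) * ell u ≤ r * ell V :=
          mul_le_mul_of_nonneg_left (ell_mono hu.le h2.le) (by positivity)
        have e2 : r * ell u + M ≤ r * ell V + |M| := by linarith [le_abs_self M]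
        calc pk k u * (r * ell u + M) ≤ pk k u * (r * ell V + |M|) :=
              mul_le_mul_of_nonneg_left e2 hpk
          _ ≤ Real.exp V * (r * ell V + |M|) :=
              mul_le_mul_of_nonneg_right (pk_le k hu.le h2.le) (by positivity)
      have h4 : Real.exp V * (r * ell V + |M|) + Real.exp (2 * V) + Real.exp V ≤
          K * Real.exp (-1 * u) := by
        rw [hK, mul_assoc, ← Real.exp_add]
        have : 1 ≤ Real.exp (V + -1 * u) := Real.one_le_exp (by linarith)
        have h5 : 0 ≤ Real.exp V * (r * ell V + |M|) + Real.exp (2 * V) + Real.exp V := by positivity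
        nlinarith
      have h5 : Real.exp u ≤ Real.exp V := Real.exp_le_exp.mpr h2.le
      have h5' : Real.exp (2 * u) ≤ Real.exp (2 * V) := Real.exp_le_exp.mpr (by linarith)
      linarith
  have hconv := D.core le_rfl hκm hκi (Or.inr rfl)
    (fun u hu => by have := hle u hu; linarith) (fun s hs _ => hne s hs)
  have hup : ∀ᶠ w : ℝ in 𝓝[>] 0,
      ‖Φ w‖ / w ^ r ≤ Real.exp (C + ck k * r - M + K * w) := by
    filter_upwards [hC, self_mem_nhdsWithin, Ioo_mem_nhdsGT (show (0 : ℝ) < 1 by norm_num)]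
      with w h1 h2 h3
    have hw : (0 : ℝ) < w := h2
    have hwk : 0 < w ^ (k + 1) := pow_pos hw _
    rw [D.real_eq le_rfl hconv hw, Complex.norm_real, Real.norm_of_nonneg (Real.exp_pos _).le]
    have h4 : lap κ w ≤ lap a w := lap_mono (hκi w hw) (hconv w hw) hle
    have h5 : r * (-Real.log w - ck k) + M - K * w ≤ w ^ (k + 1) * lap κ w := by
      rw [hκ, lap_add (hκ1 w hw) ((ex_LInt (show (-1 : ℝ) < w by linarith)).const_mul _),
        lap_add ((pl_LInt k hw).const_mul _) ((pk_LInt k hw).const_mul _), lap_const_mul,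
        lap_const_mul, lap_const_mul, pk_lap k hw, ex_lap (show (-1 : ℝ) < w by linarith)]
      have e1 := mul_le_mul_of_nonneg_left (le_pl_lap k hw) (show (0 : ℝ) ≤ r by positivity)
      have e2 : w ^ (k + 1) * (M * (1 / w ^ (k + 1))) = M := by field_simp
      have e3 : 1 / (w - -1) ≤ 1 := by
        rw [div_le_one (by linarith)]; linarith
      have e4 : w ^ (k + 1) * (K * (1 / (w - -1))) ≤ K * w := by
        have e7 : w ^ (k + 1) ≤ w := by
          have := pow_le_pow_of_le_one hw.le h3.2.le (show 1 ≤ k + 1 by omega)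
          rwa [pow_one] at this
        calc w ^ (k + 1) * (K * (1 / (w - -1))) ≤ w * (K * 1) := by
              have : 0 ≤ 1 / (w - -1) := by
                apply div_nonneg zero_le_one; linarith
              gcongr
          _ = K * w := by ring
      have e5 : w ^ (k + 1) * (r * lap (pl k) w) = r * (w ^ (k + 1) * lap (pl k) w) := by ring
      have e6 : w ^ (k + 1) * (-K * (1 / (w - -1))) = -(w ^ (k + 1) * (K * (1 / (w - -1)))) := by
        ring
      rw [mul_add, mul_add, e2, e5, e6]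
      linarith
    have h6 : w ^ (k + 1) * lap κ w ≤ w ^ (k + 1) * lap a w := mul_le_mul_of_nonneg_left h4 hwk.le
    have h7 := (abs_le.mp h1).2
    have h8 : w ^ r = Real.exp (r * Real.log w) := by
      rw [mul_comm, Real.exp_mul, Real.exp_log hw, Real.rpow_natCast]
    rw [h8, ← Real.exp_sub]
    apply Real.exp_le_exp.mpr
    linarith
  have hlim : Tendsto (fun w : ℝ => Real.exp (C + ck k * r - M + K * w)) (𝓝[>] 0)
      (𝓝 (Real.exp (C + ck k * r - M + K * 0))) := by
    have : Continuous fun w : ℝ => Real.exp (C + ck k * r - M + K * w) := by fun_prop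
    exact tendsto_nhdsWithin_of_tendsto_nhds (this.tendsto 0)
  have h9 := le_of_tendsto_of_tendsto hc hlim hup
  have h10 : C + ck k * r - M + K * 0 = Real.log (c / 2) := by rw [hM]; ring
  rw [h10, Real.exp_log (by linarith)] at h9
  linarith

end Pool.Agent.W263.BSD
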