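import Mathlib

/-! Landau's lemma for moment generating functions of nonnegative random variables
(with respect to arbitrary measures). -/

set_option autoImplicit false

namespace Pool.Agent.W263.BSD

open MeasureTheory ProbabilityTheory Filter Topology Set

/-- Landau's lemma: the abscissa of convergence of the Laplace transform of a positive measure is
a singularity of its real-analytic continuation. -/
theorem landau {Ω : Type*} {mΩ : MeasurableSpace Ω} {X : Ω → ℝ} {μ : Measure Ω}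
    (hX : ∀ᵐ ω ∂μ, 0 ≤ X ω) {s : ℝ} {g : ℝ → ℝ} (hg : AnalyticAt ℝ g s)
    (hint : ∀ t < s, t ∈ integrableExpSet X μ)
    (heq : ∀ᶠ t in 𝓝[<] s, mgf X μ t = g t) :
    ∃ t > s, t ∈ integrableExpSet X μ := by
  obtain ⟨p, r, hp⟩ := hg
  -- the region of equality
  obtain ⟨l, hl, hls⟩ := mem_nhdsLT_iff_exists_Ioo_subset.mp heq
  have hl' : l < s := hl
  obtain ⟨r', hr'0, hr'r⟩ : ∃ r' : ℝ, 0 < r' ∧ ENNReal.ofReal r' < r := by
    obtain ⟨q, hq0, hqr⟩ := ENNReal.lt_iff_exists_nnreal_btwn.mp hp.r_pos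
    refine ⟨q, by exact_mod_cast hq0, by simpa using hqr⟩
  obtain ⟨ρ, hρ0, hρ1, hρ2⟩ : ∃ ρ : ℝ, 0 < ρ ∧ ρ < s - l ∧ 4 * ρ < r' :=
    ⟨min ((s - l) / 2) (r' / 8), by positivity [sub_pos.mpr hl'],
      by have := min_le_left ((s - l) / 2) (r' / 8); linarith,
      by have := min_le_right ((s - l) / 2) (r' / 8); linarith⟩
  set v : ℝ := s + (-ρ) with hv
  have hvI : v ∈ interior (integrableExpSet X μ) := by
    rw [mem_interior]
    exact ⟨Iio s, fun t ht => hint t ht, isOpen_Iio, by rw [mem_Iio]; linarith⟩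
  have hXm : AEMeasurable X μ := aemeasurable_of_mem_interior_integrableExpSet hvI
  have h1 := hasFPowerSeriesAt_mgf hvI
  have hnn : ((‖(-ρ : ℝ)‖₊ : NNReal) : ENNReal) = ENNReal.ofReal ρ := by
    rw [nnnorm_neg, ENNReal.ofReal, ← Real.norm_of_nonneg hρ0.le, norm_toNNReal,
      Real.norm_of_nonneg hρ0.le]
  have hlt : ((‖(-ρ : ℝ)‖₊ : NNReal) : ENNReal) < r := by
    rw [hnn]
    exact lt_of_le_of_lt (ENNReal.ofReal_le_ofReal (by linarith)) hr'r
  have h2 := hp.changeOrigin hlt
  have h3 : mgf X μ =ᶠ[𝓝 v] g := by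
    filter_upwards [Ioo_mem_nhds (show l < v by linarith) (show v < s by linarith)] with t ht
      using hls ht
  have h4 := (h1.congr h3).eq_formalMultilinearSeries h2.hasFPowerSeriesAt
  have h5 : ENNReal.ofReal (2 * ρ) < (p.changeOrigin (-ρ)).radius := by
    refine lt_of_lt_of_le ?_ h2.r_le
    rw [hnn]
    refine lt_of_lt_of_le ?_ (tsub_le_tsub_right hr'r.le _)
    rw [← ENNReal.ofReal_sub _ hρ0.le]
    exact (ENNReal.ofReal_lt_ofReal_iff (by linarith)).mpr (by linarith)
  have h6 := (p.changeOrigin (-ρ)).summable_norm_mul_pow (r := (2 * ρ).toNNReal) h5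
  rw [← h4] at h6
  have h6' : Summable fun n : ℕ =>
      (∫ ω, X ω ^ n * Real.exp (v * X ω) ∂μ) / (n.factorial : ℝ) * (2 * ρ) ^ n := by
    refine h6.congr fun n => ?_
    rw [FormalMultilinearSeries.ofScalars_norm, Real.norm_of_nonneg, Real.coe_toNNReal _ (by linarith)]
    refine div_nonneg (integral_nonneg_of_ae ?_) (by positivity)
    filter_upwards [hX] with ω hω
    positivity
  refine ⟨v + 2 * ρ, by linarith, ?_⟩
  rw [integrableExpSet, mem_ofPred_eq]
  refine ⟨?_, ?_⟩
  · exact ((hXm.const_mul _).exp).aestronglyMeasurable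
  rw [hasFiniteIntegral_iff_ofReal (Eventually.of_forall fun ω => (Real.exp_pos _).le)]
  have h7 : ∀ᵐ ω ∂μ, ENNReal.ofReal (Real.exp ((v + 2 * ρ) * X ω)) =
      ∑' n : ℕ, ENNReal.ofReal (X ω ^ n * Real.exp (v * X ω) * ((2 * ρ) ^ n / n.factorial)) := by
    filter_upwards [hX] with ω hω
    have hs : HasSum (fun n : ℕ => (2 * ρ * X ω) ^ n / n.factorial) (Real.exp (2 * ρ * X ω)) := by
      have := NormedSpace.expSeries_div_hasSum_exp (𝔸 := ℝ) (2 * ρ * X ω)
      rwa [← Real.exp_eq_exp_ℝ] at this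
    have hs2 : HasSum (fun n : ℕ => X ω ^ n * Real.exp (v * X ω) * ((2 * ρ) ^ n / n.factorial))
        (Real.exp ((v + 2 * ρ) * X ω)) := by
      have := hs.mul_left (Real.exp (v * X ω))
      rw [← Real.exp_add, show v * X ω + 2 * ρ * X ω = (v + 2 * ρ) * X ω by ring] at this
      have e : (fun i : ℕ => Real.exp (v * X ω) * ((2 * ρ * X ω) ^ i / (i.factorial : ℝ))) =
          fun n : ℕ => X ω ^ n * Real.exp (v * X ω) * ((2 * ρ) ^ n / n.factorial) := by
        funext n; ring
      rwa [e] at this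
    rw [← hs2.tsum_eq, ENNReal.ofReal_tsum_of_nonneg (fun n => by positivity) hs2.summable]
  rw [lintegral_congr_ae h7, lintegral_tsum]
  · have h8 : ∀ n : ℕ, ∫⁻ ω, ENNReal.ofReal (X ω ^ n * Real.exp (v * X ω) *
        ((2 * ρ) ^ n / n.factorial)) ∂μ = ENNReal.ofReal
        ((∫ ω, X ω ^ n * Real.exp (v * X ω) ∂μ) / (n.factorial : ℝ) * (2 * ρ) ^ n) := by
      intro n
      rw [← ofReal_integral_eq_lintegral_ofReal]
      · rw [integral_mul_const]
        congr 1; ring
      · exact (integrable_pow_mul_exp_of_mem_interior_integrableExpSet hvI n).mul_const _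
      · filter_upwards [hX] with ω hω
        positivity
    simp only [h8]
    exact h6'.tsum_ofReal_lt_top
  · intro n
    refine AEMeasurable.ennreal_ofReal ?_
    exact ((hXm.pow_const n).mul ((hXm.const_mul _).exp)).mul_const _

end Pool.Agent.W263.BSD
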