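import Mathlib

/-! Expansion of the logarithm of a local factor. -/

set_option autoImplicit false

namespace Pool.Agent.W263.BSD

open Complex

/-- expansion of `log (1 - t X + δ² X²)`, `|t| ≤ 2 δ`, `δ ≤ 1/5`, `‖X‖ ≤ 1` -/
theorem log_expand {t δ : ℝ} (hδ0 : 0 ≤ δ) (hδ : δ ≤ 1 / 5) (ht : |t| ≤ 2 * δ) {X : ℂ}
    (hX : ‖X‖ ≤ 1) :
    ‖log (1 - t * X + δ ^ 2 * X ^ 2) - (-t * X + (δ ^ 2 - t ^ 2 / 2) * X ^ 2)‖ ≤ 30 * δ ^ 3 := by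
  set y : ℂ := -t * X + δ ^ 2 * X ^ 2 with hy
  have hX2 : ‖X‖ ^ 2 ≤ 1 := pow_le_one₀ (norm_nonneg _) hX
  have ht' : ‖(t : ℂ)‖ ≤ 2 * δ := by rw [norm_real]; exact ht
  have hδn : ‖(δ : ℂ)‖ = δ := by rw [norm_real, Real.norm_of_nonneg hδ0]
  have hy1 : ‖y‖ ≤ 2 * δ + δ ^ 2 := by
    rw [hy]
    refine (norm_add_le _ _).trans (add_le_add ?_ ?_)
    · rw [norm_mul, norm_neg]
      calc ‖(t : ℂ)‖ * ‖X‖ ≤ (2 * δ) * 1 := by gcongr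
        _ = 2 * δ := by ring
    · rw [norm_mul, norm_pow, norm_pow, hδn]
      calc δ ^ 2 * ‖X‖ ^ 2 ≤ δ ^ 2 * 1 := by gcongr
        _ = δ ^ 2 := by ring
  have hy2 : ‖y‖ ≤ 11 / 5 * δ := hy1.trans (by nlinarith)
  have hy3 : ‖y‖ ≤ 1 / 2 := hy2.trans (by linarith)
  have h1 := norm_log_sub_logTaylor_le 2 (z := y) (by linarith)
  have h2 : logTaylor (2 + 1) y = y - y ^ 2 / 2 := by
    simp [logTaylor_succ, logTaylor_zero]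
    ring
  rw [h2] at h1
  have h3 : ‖y‖ ^ (2 + 1) * (1 - ‖y‖)⁻¹ / (2 + 1) ≤ 11 * δ ^ 3 := by
    have h4 : (1 - ‖y‖)⁻¹ ≤ 2 := by
      rw [inv_le_comm₀ (by linarith) (by norm_num)]; linarith
    have h40 : 0 ≤ (1 - ‖y‖)⁻¹ := inv_nonneg.mpr (by linarith)
    have h5 : ‖y‖ ^ (2 + 1) ≤ (11 / 5 * δ) ^ 3 := by
      exact pow_le_pow_left₀ (norm_nonneg _) hy2 3
    calc ‖y‖ ^ (2 + 1) * (1 - ‖y‖)⁻¹ / (2 + 1) ≤ (11 / 5 * δ) ^ 3 * 2 / (2 + 1) := by gcongr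
      _ ≤ 11 * δ ^ 3 := by
        have : 0 ≤ δ ^ 3 := by positivity
        nlinarith
  have h6 : 1 - t * X + δ ^ 2 * X ^ 2 = 1 + y := by rw [hy]; ring
  rw [h6]
  have h7 : log (1 + y) - (-t * X + (δ ^ 2 - t ^ 2 / 2) * X ^ 2) =
      (log (1 + y) - (y - y ^ 2 / 2)) + (t * δ ^ 2 * X ^ 3 - δ ^ 4 * X ^ 4 / 2) := by
    rw [hy]; ring
  rw [h7]
  refine (norm_add_le _ _).trans ?_
  have h8 : ‖(t * δ ^ 2 * X ^ 3 - δ ^ 4 * X ^ 4 / 2 : ℂ)‖ ≤ 3 * δ ^ 3 := by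
    refine (norm_sub_le _ _).trans ?_
    have e1 : ‖(t * δ ^ 2 * X ^ 3 : ℂ)‖ ≤ 2 * δ ^ 3 := by
      rw [norm_mul, norm_mul, norm_pow, norm_pow, hδn]
      calc ‖(t : ℂ)‖ * δ ^ 2 * ‖X‖ ^ 3 ≤ (2 * δ) * δ ^ 2 * 1 := by
            gcongr
            exact pow_le_one₀ (norm_nonneg _) hX
        _ = 2 * δ ^ 3 := by ring
    have e2 : ‖(δ ^ 4 * X ^ 4 / 2 : ℂ)‖ ≤ δ ^ 3 := by
      rw [norm_div, norm_mul, norm_pow, norm_pow, hδn]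
      have e3 : ‖X‖ ^ 4 ≤ 1 := pow_le_one₀ (norm_nonneg _) hX
      have e4 : ‖(2 : ℂ)‖ = 2 := by norm_num
      rw [e4]
      calc δ ^ 4 * ‖X‖ ^ 4 / 2 ≤ δ ^ 4 * 1 / 2 := by gcongr
        _ ≤ δ ^ 3 := by
          have h9 : δ ^ 4 = δ * δ ^ 3 := by ring
          have h10 : 0 ≤ δ ^ 3 := by positivity
          rw [h9]
          nlinarith
    linarith
  have h11 : 0 ≤ δ ^ 3 := by positivity
  calc _ ≤ 11 * δ ^ 3 + 3 * δ ^ 3 := add_le_add (h1.trans h3) h8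
    _ ≤ 30 * δ ^ 3 := by linarith

/-- the factor is in the slit plane -/
theorem factor_slit {t δ : ℝ} (hδ0 : 0 ≤ δ) (hδ : δ ≤ 1 / 5) (ht : |t| ≤ 2 * δ) {X : ℂ}
    (hX : ‖X‖ ≤ 1) : 1 - t * X + δ ^ 2 * X ^ 2 ∈ slitPlane := by
  have hX2 : ‖X‖ ^ 2 ≤ 1 := pow_le_one₀ (norm_nonneg _) hX
  have ht' : ‖(t : ℂ)‖ ≤ 2 * δ := by rw [norm_real]; exact ht
  have hδn : ‖(δ : ℂ)‖ = δ := by rw [norm_real, Real.norm_of_nonneg hδ0]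
  have hy1 : ‖-t * X + δ ^ 2 * X ^ 2‖ ≤ 2 * δ + δ ^ 2 := by
    refine (norm_add_le _ _).trans (add_le_add ?_ ?_)
    · rw [norm_mul, norm_neg]
      calc ‖(t : ℂ)‖ * ‖X‖ ≤ (2 * δ) * 1 := by gcongr
        _ = 2 * δ := by ring
    · rw [norm_mul, norm_pow, norm_pow, hδn]
      calc δ ^ 2 * ‖X‖ ^ 2 ≤ δ ^ 2 * 1 := by gcongr
        _ = δ ^ 2 := by ring
  have h6 : (1 - t * X + δ ^ 2 * X ^ 2 : ℂ) = 1 + (-t * X + δ ^ 2 * X ^ 2) := by ring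
  rw [h6]
  apply mem_slitPlane_of_norm_lt_one
  nlinarith

end Pool.Agent.W263.BSD
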