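import Pool.Agent.W263.BSD.Final

/-! One-sided bounds outside small exceptional sets and zero-free half planes. -/

set_option autoImplicit false

namespace Pool.Agent.W263.BSD

open MeasureTheory Filter Topology Set Classical

variable {S : Set ℕ} {A : ℕ → ℝ}

theorem EData.cc_le (E : EData S A) {p : ℕ} (hp : p ∈ S) : |cc A p| ≤ 4 * dl p := by
  have h25 := E.big p hp
  have h2 := E.log_fac hp (X := 1) (by simp)
  rw [← E.cc_eq hp] at h2
  have h3 : ((cc A p : ℂ) - (-(tt A p) * 1 + mm A p * 1 ^ 2)) =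
      ((cc A p - (-(tt A p) + mm A p) : ℝ) : ℂ) := by push_cast; ring
  rw [h3, Complex.norm_real, Real.norm_eq_abs] at h2
  have h4 := abs_le.mp h2
  have h5 := abs_le.mp (E.tt_le hp)
  have h6 := abs_le.mp (E.mm_le hp)
  have h7 := dl_nonneg p
  have h8 := dl_le h25
  have h9 : dl p ^ 2 ≤ 1 / 5 * dl p := by nlinarith
  have h9' : dl p ^ 3 ≤ 1 / 25 * dl p := by
    have : dl p ^ 3 = dl p ^ 2 * dl p := by ring
    rw [this]
    have : dl p ^ 2 ≤ 1 / 25 := by nlinarith
    nlinarith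
  rw [← dl_sq (by omega)] at h6
  rw [abs_le]
  constructor <;> nlinarith

theorem sum_dl (N : ℕ) : ∑ p ∈ Finset.range (N + 1), dl p ≤ 2 * √N := by
  induction N with
  | zero => simp [dl]
  | succ n ih =>
    rw [Finset.sum_range_succ]
    have h0 : (0 : ℝ) ≤ n := Nat.cast_nonneg n
    set x := √(n : ℝ) with hx
    set y := √((n + 1 : ℕ) : ℝ) with hy
    have hx2 : x ^ 2 = n := Real.sq_sqrt h0
    have hy2 : y ^ 2 = n + 1 := by
      rw [hy, Real.sq_sqrt (by positivity)]
      push_cast; ring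
    have hx0 : 0 ≤ x := Real.sqrt_nonneg _
    have hy0 : 0 < y := Real.sqrt_pos.mpr (by positivity)
    have h1 : dl (n + 1) = 1 / y := rfl
    have h2 : 1 / y ≤ 2 * y - 2 * x := by
      rw [div_le_iff₀ hy0]
      nlinarith [sq_nonneg (y - x)]
    rw [h1]
    linarith

/-- the trivial bound -/
theorem EData.aak_half (E : EData S A) (k : ℕ) {u : ℝ} (hu : 0 < u) :
    |aak S A k u| ≤ 8 * (pk k u * Real.exp (u / 2)) := by
  have hpk := pk_nonneg k hu.le
  have h1 : ∀ p ∈ Finset.range (⌊Real.exp u⌋₊ + 1), |rt S A k p u| ≤ 4 * pk k u * dl p := by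
    intro p hp
    unfold rt
    split_ifs with h
    · have h1 := (mem_iff E h u).mp hp
      have h2 := log_prime_pos E h
      have h3 : |(u - Real.log p) ^ k / (k.factorial : ℝ)| ≤ pk k u := by
        rw [abs_of_nonneg (div_nonneg (pow_nonneg (by linarith) k) (by positivity))]
        unfold pk
        gcongr
        linarith
      rw [abs_mul]
      calc |cc A p| * |(u - Real.log p) ^ k / (k.factorial : ℝ)| ≤ (4 * dl p) * pk k u :=
            mul_le_mul (E.cc_le h) h3 (abs_nonneg _) (by have := dl_nonneg p; positivity)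
        _ = _ := by ring
    · rw [abs_zero]
      have := dl_nonneg p
      positivity
  calc |aak S A k u| ≤ ∑ p ∈ Finset.range (⌊Real.exp u⌋₊ + 1), |rt S A k p u| :=
        Finset.abs_sum_le_sum_abs _ _
    _ ≤ ∑ p ∈ Finset.range (⌊Real.exp u⌋₊ + 1), 4 * pk k u * dl p := Finset.sum_le_sum h1
    _ = 4 * pk k u * ∑ p ∈ Finset.range (⌊Real.exp u⌋₊ + 1), dl p := by rw [Finset.mul_sum]
    _ ≤ 4 * pk k u * (2 * √(⌊Real.exp u⌋₊ : ℝ)) := by
        gcongr
        exact sum_dl _
    _ ≤ 4 * pk k u * (2 * Real.exp (u / 2)) := by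
        gcongr
        rw [show Real.exp (u / 2) = √(Real.exp u) from by
          rw [Real.sqrt_eq_rpow, ← Real.exp_mul]; congr 1; ring]
        exact Real.sqrt_le_sqrt (Nat.floor_le (Real.exp_pos u).le)
    _ = _ := by ring

theorem pkex_LInt (k : ℕ) {c w : ℝ} (h : c < w) : LInt (fun u => pk k u * Real.exp (c * u)) w := by
  have h1 := pk_LInt k (sub_pos.mpr h)
  unfold LInt at *
  refine h1.congr (Eventually.of_forall fun u => ?_)
  simp only []
  rw [mul_assoc, ← Real.exp_add]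
  congr 2; ring

/-- The majorant: a small bound outside `E`, the trivial bound on `E`. -/
noncomputable def kap (k : ℕ) (θ B0 C : ℝ) (E : Set ℝ) (u : ℝ) : ℝ :=
  pk k u * Real.exp (θ * u) + B0 * pk k u + C * E.indicator (fun u => pk k u * Real.exp (u / 2)) u

theorem kap_meas (k : ℕ) (θ B0 C : ℝ) {E : Set ℝ} (hE : MeasurableSet E) :
    Measurable (kap k θ B0 C E) := by
  have hm1 : Measurable fun u => pk k u * Real.exp (θ * u) := (pk_meas k).mul (by fun_prop)
  have hm2 : Measurable fun u => pk k u * Real.exp (u / 2) := (pk_meas k).mul (by fun_prop)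
  exact (hm1.add ((pk_meas k).const_mul B0)).add ((hm2.indicator hE).const_mul C)

theorem kap_LInt (k : ℕ) {θ B0 C : ℝ} (hθ : 0 ≤ θ) {E : Set ℝ} (hEm : MeasurableSet E)
    (hE : IntegrableOn (fun u => Real.exp ((1 / 2 - θ) * u)) (E ∩ Ioi 0)) {w' : ℝ} (hw' : θ < w') :
    LInt (kap k θ B0 C E) w' := by
  set ε := w' - θ with hε
  have hε0 : 0 < ε := by linarith
  have hm2 : Measurable fun u => pk k u * Real.exp (u / 2) := (pk_meas k).mul (by fun_prop)
  refine ((pkex_LInt k (by linarith)).add ((pk_LInt k (by linarith)).const_mul B0)).add ?_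
  refine LInt.const_mul ?_ C
  obtain ⟨K, hK⟩ : ∃ K : ℝ, ∀ u, 0 < u → pk k u ≤ K * Real.exp (ε * u) := by
    refine ⟨(1 / ε) ^ k, fun u hu => ?_⟩
    have h1 := Real.pow_div_factorial_le_exp (ε * u) (by positivity) k
    have : pk k u = (1 / ε) ^ k * ((ε * u) ^ k / k.factorial) := by
      unfold pk
      rw [mul_pow, ← mul_div_assoc, ← mul_assoc, ← mul_pow, one_div_mul_cancel hε0.ne', one_pow,
        one_mul]
    rw [this]
    gcongr
  unfold LInt
  have h3 : IntegrableOn (E.indicator (fun u => Real.exp ((1 / 2 - θ) * u))) (Ioi 0) := by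
    unfold IntegrableOn
    rw [integrable_indicator_iff hEm, IntegrableOn, Measure.restrict_restrict hEm]
    exact hE
  refine Integrable.mono (h3.const_mul K) ?_ ?_
  · exact ((hm2.indicator hEm).mul (by fun_prop)).aestronglyMeasurable
  · refine (ae_restrict_iff' measurableSet_Ioi).mpr (Eventually.of_forall fun u hu => ?_)
    have hu' : (0 : ℝ) < u := hu
    by_cases hu2 : u ∈ E
    · simp only [indicator_of_mem hu2]
      have hp := pk_nonneg k hu'.le
      have hK0 : 0 ≤ K := by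
        have := (pk_nonneg k hu'.le).trans (hK u hu')
        by_contra hneg
        push Not at hneg
        have : K * Real.exp (ε * u) < 0 := mul_neg_of_neg_of_pos hneg (Real.exp_pos _)
        linarith
      rw [Real.norm_of_nonneg (by positivity), Real.norm_of_nonneg (by positivity)]
      calc pk k u * Real.exp (u / 2) * Real.exp (-(w' * u))
          ≤ (K * Real.exp (ε * u)) * Real.exp (u / 2) * Real.exp (-(w' * u)) := by
            gcongr
            exact hK u hu'
        _ = K * Real.exp (ε * u + u / 2 + -(w' * u)) := by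
            rw [Real.exp_add, Real.exp_add]; ring
        _ = K * Real.exp ((1 / 2 - θ) * u) := by
            congr 2
            rw [hε]; ring
    · simp only [indicator_of_notMem hu2]
      simp

theorem le_kap (k : ℕ) {θ B0 C : ℝ} (_hC : 0 ≤ C) (hB0 : 0 ≤ B0) {E : Set ℝ} {u v : ℝ} (hu : 0 < u)
    (h1 : v ≤ C * (pk k u * Real.exp (u / 2)))
    (h2 : u ∉ E → v ≤ pk k u * (Real.exp (θ * u) + B0)) : v ≤ kap k θ B0 C E u := by
  unfold kap
  have hp := pk_nonneg k hu.le
  by_cases hu2 : u ∈ E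
  · rw [indicator_of_mem hu2]
    have h3 : 0 ≤ pk k u * Real.exp (θ * u) + B0 * pk k u := by positivity
    linarith
  · rw [indicator_of_notMem hu2]
    have := h2 hu2
    linarith

/-- abstract version -/
theorem Data.conv_except {m : ℕ} {a : ℝ → ℝ} {Φ G : ℂ → ℂ} {c0 : ℝ} (D : Data m a Φ G c0) (k : ℕ)
    {C B0 : ℝ} (hB0 : 0 ≤ B0) (hC : 0 ≤ C)
    (hloc : ∀ u, 0 < u → a u ≤ C * (pk k u * Real.exp (u / 2))) {θ : ℝ} (hθ : 0 ≤ θ)
    (E : ℝ → Set ℝ) (hEm : ∀ ε, MeasurableSet (E ε))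
    (hE : ∀ ε > 0, IntegrableOn (fun u => Real.exp ((1 / 2 - (θ + ε)) * u)) (E ε ∩ Ioi 0))
    (h : ∀ ε > 0, ∀ u, 0 < u → u ∉ E ε → a u ≤ pk k u * (Real.exp ((θ + ε) * u) + B0)) :
    ∀ w > θ, LInt a w := by
  intro w hw
  have hε0 : 0 < (w - θ) / 2 := by linarith
  refine D.core_upper (w0 := θ + (w - θ) / 2) (by linarith) (kap_meas k (θ + (w - θ) / 2) B0 C (hEm _))
    (fun w' hw' => kap_LInt k (by linarith) (hEm _) (hE _ hε0) hw') (fun u hu => ?_) w (by linarith)
  exact le_kap k hC hB0 hu (hloc u hu) (fun h2 => h _ hε0 u hu h2)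

/-- abstract version, lower bounds -/
theorem Data.conv_except_lower {m : ℕ} {a : ℝ → ℝ} {Φ G : ℂ → ℂ} {c0 : ℝ} (D : Data m a Φ G c0)
    (k : ℕ) {C B0 : ℝ} (hB0 : 0 ≤ B0) (hC : 0 ≤ C)
    (hloc : ∀ u, 0 < u → -a u ≤ C * (pk k u * Real.exp (u / 2))) {θ : ℝ} (hθ : 0 ≤ θ)
    (hne : ∀ w : ℝ, θ < w → Φ w ≠ 0)
    (E : ℝ → Set ℝ) (hEm : ∀ ε, MeasurableSet (E ε))
    (hE : ∀ ε > 0, IntegrableOn (fun u => Real.exp ((1 / 2 - (θ + ε)) * u)) (E ε ∩ Ioi 0))
    (h : ∀ ε > 0, ∀ u, 0 < u → u ∉ E ε → -a u ≤ pk k u * (Real.exp ((θ + ε) * u) + B0)) :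
    ∀ w > θ, LInt a w := by
  intro w hw
  have hε0 : 0 < (w - θ) / 2 := by linarith
  have hm := kap_meas k (θ + (w - θ) / 2) B0 C (hEm ((w - θ) / 2))
  refine D.core (w0 := θ + (w - θ) / 2) (by linarith)
    (κ := fun u => (-1) * kap k (θ + (w - θ) / 2) B0 C (E ((w - θ) / 2)) u) (hm.const_mul (-1))
    (fun w' hw' => (kap_LInt k (by linarith) (hEm _) (hE _ hε0) hw').const_mul (-1)) (Or.inr rfl)
    (fun u hu => ?_) (fun s hs _ => hne s (by linarith)) w (by linarith)
  have := le_kap k hC hB0 hu (hloc u hu) (fun h2 => h _ hε0 u hu h2)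
  linarith

theorem Data.nonvanish' {m : ℕ} {a : ℝ → ℝ} {Φ G : ℂ → ℂ} {c0 : ℝ} (D : Data m a Φ G c0) {θ : ℝ}
    (hθ : 0 ≤ θ) (h : ∀ w > θ, LInt a w) {z : ℂ} (hz : θ < z.re) : Φ z ≠ 0 := by
  rw [D.eq_of_conv hθ h z hz]
  exact Complex.exp_ne_zero _

variable {a b : ℤ}

theorem rieszMean_measurable (k : ℕ) : Measurable (rieszMean a b k) := by
  unfold rieszMean
  have h1 : (fun x : ℝ => ∑ p ∈ (Finset.range (⌊x⌋₊ + 1)).filter (GoodPrime a b),
      (1 - Real.log p / Real.log x) ^ k * Real.log (((pointCount a b p : ℝ) + 1) / p)) =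
      fun x : ℝ => (fun q : ℕ × ℝ => ∑ p ∈ (Finset.range (q.1 + 1)).filter (GoodPrime a b),
      (1 - Real.log p / Real.log q.2) ^ k * Real.log (((pointCount a b p : ℝ) + 1) / p)) (⌊x⌋₊, x) := rfl
  rw [h1]
  have hg : Measurable (fun q : ℕ × ℝ => ∑ p ∈ (Finset.range (q.1 + 1)).filter (GoodPrime a b),
      (1 - Real.log p / Real.log q.2) ^ k * Real.log (((pointCount a b p : ℝ) + 1) / p)) := by
    refine measurable_from_prod_countable_right fun n => ?_
    have h2 : ∀ p ∈ (Finset.range (n + 1)).filter (GoodPrime a b), Measurable (fun x : ℝ =>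
        (1 - Real.log p / Real.log x) ^ k * Real.log (((pointCount a b p : ℝ) + 1) / p)) := by
      intro p _
      fun_prop
    exact Finset.measurable_fun_sum _ h2
  exact hg.comp (Nat.measurable_floor.prodMk measurable_id)

theorem riesz_small (k : ℕ) {x : ℝ} (hx : x < 2) : rieszMean a b k x = 0 := by
  unfold rieszMean
  rw [Finset.sum_eq_zero]
  intro p hp
  rw [Finset.mem_filter, Finset.mem_range] at hp
  have h1 := hp.2.1.two_le
  have h2 : ⌊x⌋₊ < 2 := (Nat.floor_lt' (by norm_num)).mpr (by exact_mod_cast hx)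
  omega

/-- change of variables `x = e^u` -/
theorem exc_int {f : ℝ → ℝ} (hfm : Measurable f) (hf : ∀ x : ℝ, x < 2 → f x = 0) {θ ε : ℝ}
    (h : IntegrableOn (fun x : ℝ => x ^ (-(1 / 2 + θ + ε))) {x : ℝ | 2 ≤ x ∧ x ^ (θ + ε) < f x}) :
    IntegrableOn (fun u => Real.exp ((1 / 2 - (θ + ε)) * u))
      ({u : ℝ | Real.exp ((θ + ε) * u) < f (Real.exp u)} ∩ Ioi 0) := by
  have hm : MeasurableSet {u : ℝ | Real.exp ((θ + ε) * u) < f (Real.exp u)} :=
    measurableSet_lt (by fun_prop) (hfm.comp Real.measurable_exp)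
  have himg : Real.exp '' ({u : ℝ | Real.exp ((θ + ε) * u) < f (Real.exp u)} ∩ Ioi 0) ⊆
      {x : ℝ | 2 ≤ x ∧ x ^ (θ + ε) < f x} := by
    rintro x ⟨u, ⟨hu1, hu2⟩, rfl⟩
    have hu1' : Real.exp ((θ + ε) * u) < f (Real.exp u) := hu1
    refine ⟨?_, ?_⟩
    · by_contra hcon
      push Not at hcon
      rw [hf _ hcon] at hu1'
      exact absurd hu1' (not_lt.mpr (Real.exp_pos _).le)
    · rw [← Real.exp_mul]
      rw [mul_comm] at hu1'
      exact hu1'
  have h2 := h.mono_set himg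
  have h3 := (integrableOn_image_iff_integrableOn_abs_deriv_smul
    (hm.inter measurableSet_Ioi)
    (f' := Real.exp) (f := Real.exp) (fun x _ => (Real.hasDerivAt_exp x).hasDerivWithinAt)
    (Real.exp_injective.injOn) (fun x : ℝ => x ^ (-(1 / 2 + θ + ε)))).mp h2
  refine h3.congr_fun ?_ (hm.inter measurableSet_Ioi)
  intro u _
  simp only [smul_eq_mul]
  rw [abs_of_pos (Real.exp_pos u), ← Real.exp_mul, ← Real.exp_add]
  congr 1; ring

theorem no_zeros_except {F : ℂ → ℂ} (hF : IsLSeries a b F) (k : ℕ) {θ : ℝ} (hθ : 0 ≤ θ)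
    (h : ∀ ε : ℝ, 0 < ε → IntegrableOn (fun x : ℝ => x ^ (-(1 / 2 + θ + ε)))
      {x : ℝ | 2 ≤ x ∧ x ^ (θ + ε) < rieszMean a b k x}) {s : ℂ} (hs : 1 + θ < s.re) :
    F s ≠ 0 := by
  obtain ⟨B, hB0, hB⟩ := riesz_approx a b
  have hconv := (data k hF).conv_except k (C := 8) hB0 (by norm_num)
    (fun u hu => (le_abs_self _).trans ((eData a b).aak_half k hu)) hθ
    (fun ε => {u : ℝ | Real.exp ((θ + ε) * u) < rieszMean a b k (Real.exp u)})
    (fun ε => measurableSet_lt (by fun_prop) ((rieszMean_measurable k).comp Real.measurable_exp))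
    (fun ε hε => exc_int (rieszMean_measurable k) (fun x hx => riesz_small k hx) (h ε hε))
    (fun ε hε u hu hu2 => by
      have h3 : rieszMean a b k (Real.exp u) ≤ Real.exp ((θ + ε) * u) := not_lt.mp hu2
      have h5 := (abs_le.mp (hB k u hu)).1
      have e1 := mul_le_mul_of_nonneg_right h3 (pk_pos k hu).le
      linarith)
  have h1 := (data k hF).nonvanish' hθ hconv (z := s - 1) (by simp; linarith)
  unfold PhiF at h1
  rw [add_sub_cancel] at h1
  exact left_ne_zero_of_mul h1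

theorem no_zeros_except_lower {F : ℂ → ℂ} (hF : IsLSeries a b F) (k : ℕ) {θ : ℝ} (hθ : 0 ≤ θ)
    (hne : ∀ s : ℝ, 1 + θ < s → F s ≠ 0)
    (h : ∀ ε : ℝ, 0 < ε → IntegrableOn (fun x : ℝ => x ^ (-(1 / 2 + θ + ε)))
      {x : ℝ | 2 ≤ x ∧ x ^ (θ + ε) < -rieszMean a b k x}) {s : ℂ} (hs : 1 + θ < s.re) :
    F s ≠ 0 := by
  obtain ⟨B, hB0, hB⟩ := riesz_approx a b
  have hconv := (data k hF).conv_except_lower k (C := 8) hB0 (by norm_num)
    (fun u hu => (neg_le_abs _).trans ((eData a b).aak_half k hu)) hθ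
    (fun w hw => by
      unfold PhiF
      refine mul_ne_zero ?_ (small_ne_zero_real (by linarith))
      have := hne (1 + w) (by linarith)
      push_cast at this
      exact this)
    (fun ε => {u : ℝ | Real.exp ((θ + ε) * u) < -rieszMean a b k (Real.exp u)})
    (fun ε => measurableSet_lt (by fun_prop)
      ((rieszMean_measurable k).comp Real.measurable_exp).neg)
    (fun ε hε => exc_int (f := fun x => -rieszMean a b k x) (rieszMean_measurable k).neg
      (fun x hx => by rw [riesz_small k hx, neg_zero]) (h ε hε))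
    (fun ε hε u hu hu2 => by
      have h3 : -rieszMean a b k (Real.exp u) ≤ Real.exp ((θ + ε) * u) := not_lt.mp hu2
      have h5 := (abs_le.mp (hB k u hu)).2
      have e1 := mul_le_mul_of_nonneg_right h3 (pk_pos k hu).le
      linarith)
  have h1 := (data k hF).nonvanish' hθ hconv (z := s - 1) (by simp; linarith)
  unfold PhiF at h1
  rw [add_sub_cancel] at h1
  exact left_ne_zero_of_mul h1

end Pool.Agent.W263.BSD
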