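import Pool.Agent.W263.BSD.Landau

/-! Laplace transforms of real functions on `(0, ∞)`. -/

set_option autoImplicit false

namespace Pool.Agent.W263.BSD

open MeasureTheory ProbabilityTheory Filter Topology Set

/-- absolute convergence of the Laplace integral at `w` -/
def LInt (f : ℝ → ℝ) (w : ℝ) : Prop :=
  IntegrableOn (fun u => f u * Real.exp (-(w * u))) (Ioi 0)

/-- Laplace transform -/
noncomputable def lap (f : ℝ → ℝ) (w : ℝ) : ℝ := ∫ u in Ioi 0, f u * Real.exp (-(w * u))

/-- Laplace transform, complex argument -/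
noncomputable def lapC (f : ℝ → ℝ) (w : ℂ) : ℂ :=
  ∫ u in Ioi (0 : ℝ), (f u : ℂ) * Complex.exp (-(w * u))

theorem lapC_ofReal (f : ℝ → ℝ) (w : ℝ) : lapC f w = (lap f w : ℂ) := by
  unfold lapC lap
  rw [← integral_complex_ofReal]
  congr 1
  funext u
  push_cast
  rfl

theorem LInt.mono {f : ℝ → ℝ} (hf : Measurable f) {w w' : ℝ} (h : LInt f w) (hw : w ≤ w') :
    LInt f w' := by
  unfold LInt at *
  refine Integrable.mono h ?_ ?_
  · exact (hf.mul (by fun_prop)).aestronglyMeasurable
  · refine (ae_restrict_iff' measurableSet_Ioi).mpr (Eventually.of_forall fun u hu => ?_)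
    rw [norm_mul, norm_mul, Real.norm_of_nonneg (Real.exp_pos _).le,
      Real.norm_of_nonneg (Real.exp_pos _).le]
    refine mul_le_mul_of_nonneg_left (Real.exp_le_exp.mpr ?_) (norm_nonneg _)
    have : w * u ≤ w' * u := mul_le_mul_of_nonneg_right hw (le_of_lt hu)
    linarith

theorem LInt.add {f g : ℝ → ℝ} {w : ℝ} (hf : LInt f w) (hg : LInt g w) :
    LInt (fun u => f u + g u) w := by
  unfold LInt at *
  refine (Integrable.add hf hg).congr (Eventually.of_forall fun u => ?_)
  simp only [Pi.add_apply]; ring

theorem LInt.sub {f g : ℝ → ℝ} {w : ℝ} (hf : LInt f w) (hg : LInt g w) :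
    LInt (fun u => f u - g u) w := by
  unfold LInt at *
  refine (Integrable.sub hf hg).congr (Eventually.of_forall fun u => ?_)
  simp only [Pi.sub_apply]; ring

theorem lap_sub {f g : ℝ → ℝ} {w : ℝ} (hf : LInt f w) (hg : LInt g w) :
    lap (fun u => f u - g u) w = lap f w - lap g w := by
  unfold lap
  rw [← integral_sub hf hg]
  congr 1; funext u; ring

theorem lap_add {f g : ℝ → ℝ} {w : ℝ} (hf : LInt f w) (hg : LInt g w) :
    lap (fun u => f u + g u) w = lap f w + lap g w := by
  unfold lap
  rw [← integral_add hf hg]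
  congr 1; funext u; ring

theorem LInt.const_mul {f : ℝ → ℝ} {w : ℝ} (hf : LInt f w) (c : ℝ) :
    LInt (fun u => c * f u) w := by
  unfold LInt at *
  refine (Integrable.const_mul hf c).congr (Eventually.of_forall fun u => ?_)
  simp only []; ring

theorem lap_const_mul {f : ℝ → ℝ} {w : ℝ} (c : ℝ) :
    lap (fun u => c * f u) w = c * lap f w := by
  unfold lap
  rw [← integral_const_mul]
  congr 1; funext u; ring

/-- the measure with density `f` on `(0, ∞)` -/
noncomputable def dens (f : ℝ → ℝ) : Measure ℝ :=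
  (volume.restrict (Ioi 0)).withDensity (fun u => ENNReal.ofReal (f u))

theorem dens_pos (f : ℝ → ℝ) (hf : Measurable f) : ∀ᵐ u ∂(dens f), 0 ≤ (id u : ℝ) := by
  unfold dens
  refine (ae_withDensity_iff hf.ennreal_ofReal).mpr ?_
  refine (ae_restrict_iff' measurableSet_Ioi).mpr (Eventually.of_forall fun u hu _ => ?_)
  exact le_of_lt hu

theorem mem_integrableExpSet_dens {f : ℝ → ℝ} (hf : Measurable f) (h0 : ∀ u, 0 < u → 0 ≤ f u)
    (t : ℝ) : t ∈ integrableExpSet id (dens f) ↔ LInt f (-t) := by
  unfold integrableExpSet LInt dens IntegrableOn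
  rw [mem_ofPred_eq, integrable_withDensity_iff_integrable_smul' hf.ennreal_ofReal
    (Eventually.of_forall fun _ => ENNReal.ofReal_lt_top)]
  apply integrable_congr
  refine (ae_restrict_iff' measurableSet_Ioi).mpr (Eventually.of_forall fun u hu => ?_)
  simp only [id, smul_eq_mul]
  rw [ENNReal.toReal_ofReal (h0 u hu)]
  congr 2; ring

theorem mgf_dens {f : ℝ → ℝ} (hf : Measurable f) (h0 : ∀ u, 0 < u → 0 ≤ f u)
    (t : ℝ) : mgf id (dens f) t = lap f (-t) := by
  unfold mgf lap dens
  rw [integral_withDensity_eq_integral_toReal_smul hf.ennreal_ofReal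
    (Eventually.of_forall fun _ => ENNReal.ofReal_lt_top)]
  apply integral_congr_ae
  refine (ae_restrict_iff' measurableSet_Ioi).mpr (Eventually.of_forall fun u hu => ?_)
  simp only [id, smul_eq_mul]
  rw [ENNReal.toReal_ofReal (h0 u hu)]
  congr 2; ring

theorem complexMGF_dens {f : ℝ → ℝ} (hf : Measurable f) (h0 : ∀ u, 0 < u → 0 ≤ f u)
    (z : ℂ) : complexMGF id (dens f) z = lapC f (-z) := by
  unfold complexMGF lapC dens
  rw [integral_withDensity_eq_integral_toReal_smul hf.ennreal_ofReal
    (Eventually.of_forall fun _ => ENNReal.ofReal_lt_top)]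
  apply integral_congr_ae
  refine (ae_restrict_iff' measurableSet_Ioi).mpr (Eventually.of_forall fun u hu => ?_)
  simp only [id]
  rw [ENNReal.toReal_ofReal (h0 u hu), Complex.real_smul]
  congr 2; ring

theorem lapC_differentiableAt_pos {f : ℝ → ℝ} (hf : Measurable f) (h0 : ∀ u, 0 < u → 0 ≤ f u)
    {w0 : ℝ} (h : ∀ w > w0, LInt f w) {z : ℂ} (hz : w0 < z.re) :
    DifferentiableAt ℂ (lapC f) z := by
  have h1 : lapC f = fun z => complexMGF id (dens f) (-z) := by
    funext z
    rw [complexMGF_dens hf h0, neg_neg]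
  rw [h1]
  have h2 : DifferentiableAt ℂ (complexMGF id (dens f)) (-z) := by
    apply (analyticAt_complexMGF _).differentiableAt
    rw [mem_interior]
    refine ⟨Iio (-w0), fun t ht => ?_, isOpen_Iio, by simpa using hz⟩
    rw [mem_integrableExpSet_dens hf h0]
    exact h _ (by have : t < -w0 := ht; linarith)
  exact h2.comp z differentiable_neg.differentiableAt

theorem LInt.posPart {f : ℝ → ℝ} (hf : Measurable f) {w : ℝ} (h : LInt f w) :
    LInt (fun u => max (f u) 0) w := by
  unfold LInt at *
  refine Integrable.mono h (((hf.max measurable_const).mul (by fun_prop)).aestronglyMeasurable) ?_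
  refine Eventually.of_forall fun u => ?_
  rw [norm_mul, norm_mul]
  refine mul_le_mul_of_nonneg_right ?_ (norm_nonneg _)
  rw [Real.norm_eq_abs, Real.norm_eq_abs, abs_of_nonneg (le_max_right _ _)]
  exact max_le (le_abs_self _) (abs_nonneg _)

theorem LInt.neg {f : ℝ → ℝ} {w : ℝ} (h : LInt f w) : LInt (fun u => -f u) w := by
  have := h.const_mul (-1)
  simpa using this

theorem LInt.complex {f : ℝ → ℝ} (hf : Measurable f) {z : ℂ} (h : LInt f z.re) :
    IntegrableOn (fun u : ℝ => (f u : ℂ) * Complex.exp (-(z * u))) (Ioi 0) := by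
  unfold LInt IntegrableOn at *
  refine Integrable.mono h ?_ (Eventually.of_forall fun u => ?_)
  · exact ((Complex.measurable_ofReal.comp hf).mul (by fun_prop)).aestronglyMeasurable
  · rw [norm_mul, norm_mul, Complex.norm_exp, Complex.norm_real,
      Real.norm_of_nonneg (Real.exp_pos _).le]
    simp

/-- The Laplace transform is holomorphic to the right of its abscissa of convergence. -/
theorem lapC_differentiableAt {f : ℝ → ℝ} (hf : Measurable f)
    {w0 : ℝ} (h : ∀ w > w0, LInt f w) {z : ℂ} (hz : w0 < z.re) :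
    DifferentiableAt ℂ (lapC f) z := by
  have h1 : lapC f =ᶠ[𝓝 z] fun z => lapC (fun u => max (f u) 0) z -
      lapC (fun u => max (-f u) 0) z := by
    have ho : IsOpen {z : ℂ | w0 < z.re} := isOpen_lt continuous_const Complex.continuous_re
    filter_upwards [ho.mem_nhds hz] with y hy
    have hy' : w0 < y.re := hy
    unfold lapC
    rw [← integral_sub]
    · congr 1
      funext u
      rw [← sub_mul]
      congr 1
      rw [← Complex.ofReal_sub]
      congr 1
      rcases le_total (f u) 0 with h | h
      · simp only []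
        rw [max_eq_right h, max_eq_left (by linarith)]; ring
      · simp only []
        rw [max_eq_left h, max_eq_right (by linarith)]; ring
    · exact LInt.complex (hf.max measurable_const) ((h _ hy').posPart hf)
    · exact LInt.complex (hf.neg.max measurable_const) (LInt.posPart hf.neg (h _ hy').neg)
  rw [h1.differentiableAt_iff]
  refine DifferentiableAt.sub ?_ ?_
  · exact lapC_differentiableAt_pos (hf.max measurable_const) (fun u _ => le_max_right _ _)
      (fun w hw => (h w hw).posPart hf) hz
  · exact lapC_differentiableAt_pos (hf.neg.max measurable_const) (fun u _ => le_max_right _ _)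
      (fun w hw => LInt.posPart hf.neg (h w hw).neg) hz

theorem lap_nonneg {f : ℝ → ℝ} (h0 : ∀ u, 0 < u → 0 ≤ f u) (w : ℝ) : 0 ≤ lap f w := by
  unfold lap
  exact setIntegral_nonneg measurableSet_Ioi fun u hu => mul_nonneg (h0 u hu) (Real.exp_pos _).le

end Pool.Agent.W263.BSD
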