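import Pool.Agent.W263.BSD.Lead1

/-! Laplace transforms of step sums. -/

set_option autoImplicit false

namespace Pool.Agent.W263.BSD

open MeasureTheory Filter Topology Set Classical

/-- `∑_{n ≤ e^u} c_n` -/
noncomputable def stp (c : ℕ → ℝ) (u : ℝ) : ℝ := ∑ n ∈ Finset.range (⌊Real.exp u⌋₊ + 1), c n

theorem stp_meas (c : ℕ → ℝ) : Measurable (stp c) := by
  have h1 : stp c = (fun n : ℕ => ∑ m ∈ Finset.range (n + 1), c m) ∘ fun u => ⌊Real.exp u⌋₊ := rfl
  rw [h1]
  exact (measurable_from_top).comp (Nat.measurable_floor.comp Real.measurable_exp)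

theorem stp_mem {n : ℕ} (hn : n ≠ 0) (u : ℝ) :
    n ∈ Finset.range (⌊Real.exp u⌋₊ + 1) ↔ Real.log n ≤ u := by
  have hp' : (0 : ℝ) < n := by exact_mod_cast Nat.pos_of_ne_zero hn
  rw [Finset.mem_range, Nat.lt_succ_iff, Nat.le_floor_iff (Real.exp_pos u).le,
    Real.log_le_iff_le_exp hp']

variable {c : ℕ → ℝ}

theorem stp_abs (h0 : c 0 = 0) {w : ℝ} (hs : Summable fun n : ℕ => |c n| * (n : ℝ) ^ (-w))
    (hw : 0 ≤ w) (u : ℝ) :
    |stp c u| ≤ (∑' n : ℕ, |c n| * (n : ℝ) ^ (-w)) * Real.exp (w * u) := by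
  unfold stp
  refine (Finset.abs_sum_le_sum_abs _ _).trans ?_
  have h1 : ∀ n ∈ Finset.range (⌊Real.exp u⌋₊ + 1), |c n| ≤
      |c n| * (n : ℝ) ^ (-w) * Real.exp (w * u) := by
    intro n hn
    rcases eq_or_ne n 0 with rfl | hn0
    · rw [h0]; simp
    · have h2 := (stp_mem hn0 u).mp hn
      have hn' : (0 : ℝ) < n := by exact_mod_cast Nat.pos_of_ne_zero hn0
      have h3 : 1 ≤ (n : ℝ) ^ (-w) * Real.exp (w * u) := by
        rw [Real.rpow_def_of_pos hn', ← Real.exp_add]
        apply Real.one_le_exp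
        nlinarith
      rw [mul_assoc]
      exact le_mul_of_one_le_right (abs_nonneg _) h3
  refine (Finset.sum_le_sum h1).trans ?_
  rw [← Finset.sum_mul]
  refine mul_le_mul_of_nonneg_right ?_ (Real.exp_pos _).le
  exact hs.sum_le_tsum _ fun n _ => by positivity

theorem stp_LInt (h0 : c 0 = 0) (hs : ∀ w : ℝ, 0 < w → Summable fun n : ℕ => |c n| * (n : ℝ) ^ (-w))
    {w : ℝ} (hw : 0 < w) : LInt (stp c) w := by
  have h1 : LInt (fun u => (∑' n : ℕ, |c n| * (n : ℝ) ^ (-(w / 2))) * Real.exp (w / 2 * u)) w :=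
    (LInt_exp (by linarith)).const_mul _
  refine LInt.of_bound (stp_meas c) h1 fun u _ => ?_
  exact stp_abs h0 (hs _ (half_pos hw)) (half_pos hw).le u

theorem stp_hasSum (h0 : c 0 = 0) (hs : ∀ w : ℝ, 0 < w → Summable fun n : ℕ => |c n| * (n : ℝ) ^ (-w))
    {w : ℝ} (hw : 0 < w) :
    HasSum (fun n : ℕ => c n * (n : ℝ) ^ (-w)) (w * lap (stp c) w) := by
  set F : ℕ → ℝ → ℝ := fun n u => c n * (Ici (Real.log n)).indicator
    (fun u => Real.exp (-w * u)) u with hF
  have hI : ∀ n : ℕ, 1 ≤ n → ∫ u in Ioi (0 : ℝ), (Ici (Real.log n)).indicator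
      (fun u => Real.exp (-w * u)) u = (n : ℝ) ^ (-w) / w := by
    intro n hn
    have hn' : (0 : ℝ) < n := by exact_mod_cast hn
    have hlog : 0 ≤ Real.log n := Real.log_nonneg (by exact_mod_cast hn)
    have e1 : ∫ u in Ioi (0 : ℝ), (Ici (Real.log n)).indicator (fun u => Real.exp (-w * u)) u =
        ∫ u in Ici (0 : ℝ), (Ici (Real.log n)).indicator (fun u => Real.exp (-w * u)) u :=
      integral_Ici_eq_integral_Ioi.symm
    rw [e1, setIntegral_indicator measurableSet_Ici, Ici_inter_Ici, sup_eq_right.mpr hlog,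
      integral_Ici_eq_integral_Ioi, integral_exp_mul_Ioi (by linarith)]
    rw [Real.rpow_def_of_pos hn', neg_div_neg_eq]
    congr 2
    ring
  have hInt : ∀ n : ℕ, Integrable (fun u : ℝ => (Ici (Real.log n)).indicator
      (fun u => Real.exp (-w * u)) u) (volume.restrict (Ioi 0)) := by
    intro n
    have h1 : IntegrableOn (fun u : ℝ => Real.exp (-w * u)) (Ioi 0) :=
      integrableOn_exp_mul_Ioi (by linarith) 0
    exact h1.indicator measurableSet_Ici
  have h1 : ∀ n, Integrable (F n) (volume.restrict (Ioi 0)) := fun n => (hInt n).const_mul _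
  have hnorm : ∀ n u, ‖F n u‖ = |c n| * (Ici (Real.log n)).indicator
      (fun u => Real.exp (-w * u)) u := by
    intro n u
    rw [hF]
    simp only []
    rw [norm_mul, Real.norm_eq_abs, Real.norm_of_nonneg]
    exact indicator_nonneg (fun _ _ => (Real.exp_pos _).le) _
  have h2 : Summable fun n => ∫ u in Ioi (0 : ℝ), ‖F n u‖ := by
    refine ((hs w hw).mul_right (1 / w)).congr fun n => ?_
    simp only [hnorm]
    rw [integral_const_mul]
    rcases Nat.eq_zero_or_pos n with rfl | hn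
    · rw [h0]; simp
    · rw [hI n hn]; ring
  have h3 := hasSum_integral_of_summable_integral_norm h1 h2
  have h4 : ∫ u in Ioi (0 : ℝ), ∑' n, F n u = lap (stp c) w := by
    unfold lap
    refine setIntegral_congr_fun measurableSet_Ioi fun u _ => ?_
    have h5 : ∀ n ∉ Finset.range (⌊Real.exp u⌋₊ + 1), F n u = 0 := by
      intro n hn
      rw [hF]
      simp only []
      rcases Nat.eq_zero_or_pos n with rfl | hn0
      · rw [h0, zero_mul]
      · rw [stp_mem (by omega)] at hn
        rw [indicator_of_notMem (by simpa using hn), mul_zero]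
    rw [tsum_eq_sum h5]
    unfold stp
    rw [Finset.sum_mul]
    refine Finset.sum_congr rfl fun n hn => ?_
    rw [hF]
    simp only []
    rcases Nat.eq_zero_or_pos n with rfl | hn0
    · rw [h0, zero_mul, zero_mul]
    · rw [stp_mem (by omega)] at hn
      rw [indicator_of_mem (by simpa using hn), neg_mul]
  rw [h4] at h3
  have h5 := h3.mul_left w
  refine h5.congr_fun fun n => ?_
  rw [hF]
  simp only []
  rw [integral_const_mul]
  rcases Nat.eq_zero_or_pos n with rfl | hn0
  · rw [h0]; simp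
  · rw [hI n hn0]; field_simp

/-- dilation of the argument -/
theorem lap_half {f : ℝ → ℝ} {w : ℝ} :
    w * lap (fun u => f (u / 2)) w = (2 * w) * lap f (2 * w) := by
  have h1 := integral_comp_mul_left_Ioi (fun u : ℝ => f u * Real.exp (-(2 * w * u))) 0
    (show (0 : ℝ) < 1 / 2 by norm_num)
  rw [mul_zero] at h1
  have h2 : lap (fun u => f (u / 2)) w =
      ∫ x in Ioi (0 : ℝ), f (1 / 2 * x) * Real.exp (-(2 * w * (1 / 2 * x))) := by
    unfold lap
    refine setIntegral_congr_fun measurableSet_Ioi fun t _ => ?_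
    simp only []
    congr 2 <;> ring_nf
  rw [h2, h1]
  unfold lap
  rw [smul_eq_mul]
  norm_num
  ring

theorem LInt_half {f : ℝ → ℝ} {w : ℝ} (h : LInt f (2 * w)) :
    LInt (fun u => f (u / 2)) w := by
  unfold LInt at *
  have h1 := (integrableOn_Ioi_comp_mul_left_iff
    (fun u : ℝ => f u * Real.exp (-(2 * w * u))) 0 (show (0 : ℝ) < 1 / 2 by norm_num)).mpr
    (by rw [mul_zero]; exact h)
  refine h1.congr_fun (fun t _ => ?_) measurableSet_Ioi
  simp only []
  congr 2 <;> ring_nf

end Pool.Agent.W263.BSD
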