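import Pool.Agent.W263.BSD.Asy

/-! An elementary one-sided Tauberian theorem (boundedness). -/

set_option autoImplicit false

namespace Pool.Agent.W263.BSD

open MeasureTheory Filter Topology Set

/-- the step function `1_{u ≤ v}` -/
noncomputable def st (v u : ℝ) : ℝ := if u ≤ v then 1 else 0

theorem st_meas (v : ℝ) : Measurable (st v) :=
  Measurable.ite measurableSet_Iic measurable_const measurable_const

theorem one_LInt {w : ℝ} (hw : 0 < w) : LInt (fun _ => (1 : ℝ)) w := by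
  have := ex_LInt (c := 0) hw
  have e : ex 0 = fun _ => (1 : ℝ) := by funext u; simp [ex]
  rwa [e] at this

theorem one_lap {w : ℝ} (hw : 0 < w) : lap (fun _ => (1 : ℝ)) w = 1 / w := by
  have := ex_lap (c := 0) hw
  have e : ex 0 = fun _ => (1 : ℝ) := by funext u; simp [ex]
  rw [e, sub_zero] at this
  exact this

theorem st_LInt (v : ℝ) {w : ℝ} (hw : 0 < w) : LInt (st v) w := by
  refine Integrable.mono (one_LInt hw) ((st_meas v).mul (by fun_prop)).aestronglyMeasurable
    (Eventually.of_forall fun u => ?_)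
  rw [norm_mul, norm_mul]
  refine mul_le_mul_of_nonneg_right ?_ (norm_nonneg _)
  unfold st
  split_ifs <;> simp

theorem st_lap {v w : ℝ} (hv : 0 ≤ v) (hw : 0 < w) :
    lap (st v) w = (1 - Real.exp (-(w * v))) / w := by
  have h1 : lap (fun u => 1 - st v u) w = Real.exp (-(w * v)) / w := by
    unfold lap
    have e : ∀ u ∈ Ioi (0 : ℝ), (1 - st v u) * Real.exp (-(w * u)) =
        (Ioi v).indicator (fun u => Real.exp (-w * u)) u := by
      intro u _
      unfold st
      by_cases h : u ≤ v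
      · rw [if_pos h, indicator_of_notMem (by simpa using h)]; ring
      · rw [if_neg h, indicator_of_mem (by simpa using h)]
        rw [sub_zero, one_mul]; congr 1; ring
    rw [setIntegral_congr_fun measurableSet_Ioi e, setIntegral_indicator measurableSet_Ioi]
    rw [show Ioi (0 : ℝ) ∩ Ioi v = Ioi v from by
      rw [Ioi_inter_Ioi, sup_eq_right.mpr hv]]
    rw [integral_exp_mul_Ioi (by linarith)]
    rw [show -w * v = -(w * v) by ring, neg_div_neg_eq]
  have h2 := lap_sub (one_LInt hw) (st_LInt v hw)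
  rw [one_lap hw, h1] at h2
  rw [sub_div]
  linarith

theorem lin_LInt {w : ℝ} (hw : 0 < w) : LInt (fun u => u) w := by
  have := pow_LInt 1 hw
  simpa using this

theorem lin_lap {w : ℝ} (hw : 0 < w) : lap (fun u => u) w = 1 / w ^ 2 := by
  have := pow_lap 1 hw
  simpa using this

theorem rs_LInt {w : ℝ} (hw : 0 < w) : LInt (fun u => u ^ (-(1 / 2) : ℝ)) w := by
  have := sqrtinv_LInt 0 hw
  norm_num at this
  norm_num
  exact this

theorem rs_lap {w : ℝ} (hw : 0 < w) :
    lap (fun u => u ^ (-(1 / 2) : ℝ)) w = (1 / w) ^ (1 / 2 : ℝ) * Real.Gamma (1 / 2) := by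
  have h1 := Real.integral_rpow_mul_exp_neg_mul_Ioi (a := 1 / 2) (by norm_num) hw
  unfold lap
  rw [← h1]
  norm_num

/-- from doubling to all ratios -/
theorem slow_of_doubling {f : ℝ → ℝ} {K u0 : ℝ} (hK : 0 ≤ K) (hu0 : 0 < u0)
    (h : ∀ u v, u0 ≤ u → u ≤ v → v ≤ 2 * u → f v ≤ f u + K) :
    ∀ u v, u0 ≤ u → u ≤ v → f v ≤ f u + (3 * K) * √(v / u) := by
  have key : ∀ n : ℕ, ∀ u v, u0 ≤ u → u ≤ v → v ≤ 2 ^ n * u → f v ≤ f u + n * K := by
    intro n
    induction n with
    | zero =>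
      intro u v _ h2 h3
      have : v = u := le_antisymm (by simpa using h3) h2
      rw [this]; simp
    | succ n ih =>
      intro u v h1 h2 h3
      have hu : 0 < u := by linarith
      rcases le_total v (2 * u) with h4 | h4
      · have := h u v h1 h2 h4
        push_cast
        have : 0 ≤ (n : ℝ) * K := by positivity
        linarith
      · have e1 := ih (2 * u) v (by linarith) h4 (by rw [pow_succ] at h3; linarith)
        have e2 := h u (2 * u) h1 (by linarith) le_rfl
        push_cast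
        linarith
  have sq : ∀ n : ℕ, ((n : ℝ) + 1) ^ 2 ≤ 9 * 2 ^ n := by
    intro n
    induction n with
    | zero => norm_num
    | succ n ih =>
      rcases Nat.lt_or_ge n 2 with h | h
      · interval_cases n <;> norm_num
      · have : (2 : ℝ) ≤ n := by exact_mod_cast h
        have e : (2 : ℝ) ^ (n + 1) = 2 * 2 ^ n := by ring
        push_cast
        rw [e]
        nlinarith
  intro u v h1 h2
  have hu : 0 < u := by linarith
  have h3 : 1 ≤ v / u := by rwa [le_div_iff₀ hu, one_mul]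
  obtain ⟨n, hn1, hn2⟩ := exists_nat_pow_near h3 (one_lt_two : (1 : ℝ) < 2)
  have h4 : v ≤ 2 ^ (n + 1) * u := by
    rw [div_lt_iff₀ hu] at hn2; exact hn2.le
  have h5 := key (n + 1) u v h1 h2 h4
  have h6 : ((n : ℝ) + 1) ≤ 3 * √(v / u) := by
    have e1 : √((2 : ℝ) ^ n) ≤ √(v / u) := Real.sqrt_le_sqrt hn1
    have e2 : (n : ℝ) + 1 ≤ 3 * √((2 : ℝ) ^ n) := by
      have := (Real.le_sqrt' (by positivity : (0 : ℝ) < (n : ℝ) + 1)).mpr (sq n)
      rw [Real.sqrt_mul (by norm_num)] at this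
      have e3 : √(9 : ℝ) = 3 := by
        rw [show (9 : ℝ) = 3 ^ 2 by norm_num, Real.sqrt_sq (by norm_num)]
      rwa [e3] at this
    linarith
  have h7 : ((n : ℝ) + 1) * K ≤ 3 * √(v / u) * K := mul_le_mul_of_nonneg_right h6 hK
  push_cast at h5
  linarith

section bounded

variable {f : ℝ → ℝ} {B u0 L : ℝ}

theorem neg_part (hi : ∀ w > 0, LInt f w)
    (hB : ∀ w : ℝ, 0 < w → w ≤ 1 → |w * lap f w| ≤ B) (hu0 : 1 ≤ u0) (hL : 0 ≤ L)
    (hs : ∀ u v, u0 ≤ u → u ≤ v → f v ≤ f u + L * √(v / u)) {v1 M1 : ℝ} (hv1 : u0 ≤ v1)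
    (hM1 : 0 ≤ M1) (hup : ∀ v, 0 < v → v ≤ v1 → f v ≤ M1) :
    -f v1 ≤ M1 / 4 + 2 * (8 * L + B) := by
  have hv0 : 0 < v1 := by linarith
  have hB0 : 0 ≤ B := (abs_nonneg _).trans (hB 1 one_pos le_rfl)
  rcases le_or_gt 0 (f v1) with hf | hf
  · have : 0 ≤ M1 / 4 + 2 * (8 * L + B) := by positivity
    linarith
  set w : ℝ := 1 / (8 * v1) with hw
  have hw0 : 0 < w := by positivity
  have hw1 : w ≤ 1 := by
    rw [hw, div_le_one (by positivity)]; linarith
  have h1 := (abs_le.mp (hB w hw0 hw1)).1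
  -- comparison function
  have hg : LInt (fun u => (M1 * st v1 u + f v1 * (1 - st v1 u)) + (L / v1) * u) w :=
    (((st_LInt v1 hw0).const_mul M1).add
      (((one_LInt hw0).sub (st_LInt v1 hw0)).const_mul (f v1))).add ((lin_LInt hw0).const_mul _)
  have h2 : lap f w ≤ lap (fun u => (M1 * st v1 u + f v1 * (1 - st v1 u)) + (L / v1) * u) w := by
    refine lap_mono (hi w hw0) hg fun u hu => ?_
    unfold st
    by_cases h : u ≤ v1
    · rw [if_pos h]
      have := hup u hu h
      have : 0 ≤ L / v1 * u := by positivity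
      linarith
    · rw [if_neg h]
      push Not at h
      have e1 := hs v1 u hv1 h.le
      have e2 : √(u / v1) ≤ u / v1 := by
        rw [Real.sqrt_le_left (by positivity)]
        have : 1 ≤ u / v1 := by rw [le_div_iff₀ hv0]; linarith
        nlinarith
      have e3 : L * √(u / v1) ≤ L * (u / v1) := mul_le_mul_of_nonneg_left e2 hL
      have e4 : L / v1 * u = L * (u / v1) := by ring
      linarith
  rw [lap_add (((st_LInt v1 hw0).const_mul M1).add
      (((one_LInt hw0).sub (st_LInt v1 hw0)).const_mul (f v1))) ((lin_LInt hw0).const_mul _),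
    lap_add ((st_LInt v1 hw0).const_mul M1)
      (((one_LInt hw0).sub (st_LInt v1 hw0)).const_mul (f v1)),
    lap_const_mul, lap_const_mul, lap_const_mul, lap_sub (one_LInt hw0) (st_LInt v1 hw0),
    st_lap hv0.le hw0, one_lap hw0, lin_lap hw0] at h2
  have hwv : w * v1 = 1 / 8 := by rw [hw]; field_simp
  rw [hwv] at h2
  set E := Real.exp (-(1 / 8 : ℝ)) with hE
  have hE0 : 0 < E := Real.exp_pos _
  have hE1 : 7 / 8 ≤ E := by
    have := Real.add_one_le_exp (-(1 / 8 : ℝ))
    linarith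
  have h3 : w * lap f w ≤ M1 * (1 - E) + f v1 * E + 8 * L := by
    have e1 := mul_le_mul_of_nonneg_left h2 hw0.le
    have e2 : w * (M1 * ((1 - E) / w) + f v1 * (1 / w - (1 - E) / w) + L / v1 * (1 / w ^ 2)) =
        M1 * (1 - E) + f v1 * E + 8 * L := by
      have : L / v1 * (1 / w) = 8 * L := by rw [hw]; field_simp
      rw [← this]
      field_simp
      ring
    rwa [e2] at e1
  nlinarith

theorem pos_part (hi : ∀ w > 0, LInt f w)
    (hB : ∀ w : ℝ, 0 < w → w ≤ 1 → |w * lap f w| ≤ B) (hu0 : 1 ≤ u0) (hL : 0 ≤ L)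
    (hs : ∀ u v, u0 ≤ u → u ≤ v → f v ≤ f u + L * √(v / u)) {B0 : ℝ} (hB0 : 0 ≤ B0)
    (hloc : ∀ u, 0 < u → u ≤ u0 → |f u| ≤ B0) {v0 : ℝ} (hv : 8 * u0 ≤ v0)
    (hM0 : 0 ≤ f v0) (hup : ∀ v, 0 < v → v ≤ v0 → f v ≤ f v0 + 1) :
    f v0 ≤ 4 * (B + 2 * L + (1 / 4 + 2 * (8 * L + B)) + L / 4 + B0) := by
  set M := f v0 with hM
  have hv0 : 0 < v0 := by linarith
  have hBn : 0 ≤ B := (abs_nonneg _).trans (hB 1 one_pos le_rfl)
  set w : ℝ := 1 / v0 with hw
  have hw0 : 0 < w := by positivity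
  have hw1 : w ≤ 1 := by
    rw [hw, div_le_one (by positivity)]; linarith
  have h1 := (abs_le.mp (hB w hw0 hw1)).2
  set C2 : ℝ := 1 / 4 + 2 * (8 * L + B) with hC2
  have hC20 : 0 ≤ C2 := by positivity
  set c3 : ℝ := L * v0 ^ (1 / 2 : ℝ) with hc3
  have hc30 : 0 ≤ c3 := by positivity
  -- comparison function
  have hg1 := (st_LInt v0 hw0).const_mul M
  have hg2 := (rs_LInt hw0).const_mul c3
  have hg3 := (one_LInt hw0).const_mul (M / 4 + C2)
  have hg4 := (lin_LInt hw0).const_mul (L / 4 / v0)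
  have hg5 := (st_LInt u0 hw0).const_mul (B0 + M)
  have hg := (((hg1.sub hg2).sub hg3).sub hg4).sub hg5
  have h2 := lap_mono hg (hi w hw0) (fun u hu => by
    have hr : 0 ≤ u ^ (-(1 / 2) : ℝ) := by positivity
    have hr' : 0 ≤ c3 * u ^ (-(1 / 2) : ℝ) := by positivity
    have hl' : 0 ≤ L / 4 / v0 * u := by positivity
    rcases le_or_gt u u0 with h | h
    · have e1 : st v0 u = 1 := if_pos (by linarith)
      have e2 : st u0 u = 1 := if_pos h
      rw [e1, e2]
      have := (abs_le.mp (hloc u hu h)).1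
      linarith
    · have e2 : st u0 u = 0 := if_neg (by linarith)
      rw [e2]
      rcases le_or_gt u v0 with h3 | h3
      · have e1 : st v0 u = 1 := if_pos h3
        rw [e1]
        have e3 := hs u v0 h.le h3
        have e4 : L * √(v0 / u) = c3 * u ^ (-(1 / 2) : ℝ) := by
          rw [hc3, Real.sqrt_eq_rpow, Real.div_rpow hv0.le hu.le, Real.rpow_neg hu.le]
          ring
        rw [e4] at e3
        linarith
      · have e1 : st v0 u = 0 := if_neg (by linarith)
        rw [e1]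
        have e5 : √(u / v0) ≤ u / v0 := by
          rw [Real.sqrt_le_left (by positivity)]
          have : 1 ≤ u / v0 := by rw [le_div_iff₀ hv0]; linarith
          nlinarith
        have hq : 0 ≤ u / v0 := by positivity
        have e3 := neg_part hi hB hu0 hL hs (v1 := u) (M1 := M + 1 + L * (u / v0)) h.le
          (by positivity) (fun v hv hvu => by
            rcases le_or_gt v v0 with h4 | h4
            · have := hup v hv h4
              have : 0 ≤ L * (u / v0) := by positivity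
              linarith
            · have e6 := hs v0 v (by linarith) h4.le
              have e7 : √(v / v0) ≤ √(u / v0) := Real.sqrt_le_sqrt (by gcongr)
              have e8 : L * √(v / v0) ≤ L * (u / v0) :=
                mul_le_mul_of_nonneg_left (e7.trans e5) hL
              linarith)
        have e9 : L / 4 / v0 * u = L * (u / v0) / 4 := by ring
        rw [e9]
        linarith)
  rw [lap_sub (((hg1.sub hg2).sub hg3).sub hg4) hg5, lap_sub ((hg1.sub hg2).sub hg3) hg4,
    lap_sub (hg1.sub hg2) hg3, lap_sub hg1 hg2, lap_const_mul, lap_const_mul, lap_const_mul,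
    lap_const_mul, lap_const_mul, st_lap hv0.le hw0, st_lap (by linarith) hw0, one_lap hw0,
    lin_lap hw0, rs_lap hw0] at h2
  have hwv : w * v0 = 1 := by rw [hw]; field_simp
  have hwu : w * u0 ≤ 1 / 8 := by
    rw [hw, div_mul_eq_mul_div, one_mul, div_le_iff₀ hv0]; linarith
  rw [hwv] at h2
  have hG : Real.Gamma (1 / 2) ≤ 2 := by
    rw [Real.Gamma_one_half_eq, Real.sqrt_le_left (by norm_num)]
    linarith [Real.pi_lt_four]
  have h3 := mul_le_mul_of_nonneg_left h2 hw0.le
  set E := Real.exp (-1 : ℝ) with hE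
  have hE1 : E ≤ 3 / 8 := by
    rw [hE, Real.exp_neg]
    have := Real.exp_one_gt_d9
    rw [inv_le_comm₀ (Real.exp_pos 1) (by norm_num)]
    linarith
  have hE2 : 1 - Real.exp (-(w * u0)) ≤ 1 / 8 := by
    have := Real.add_one_le_exp (-(w * u0))
    linarith
  have e1 : w * (M * ((1 - E) / w) - c3 * ((1 / w) ^ (1 / 2 : ℝ) * Real.Gamma (1 / 2)) -
      (M / 4 + C2) * (1 / w) - L / 4 / v0 * (1 / w ^ 2) -
      (B0 + M) * ((1 - Real.exp (-(w * u0))) / w)) =
      M * (1 - E) - L * Real.Gamma (1 / 2) - (M / 4 + C2) - L / 4 -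
      (B0 + M) * (1 - Real.exp (-(w * u0))) := by
    have e2 : w * (c3 * ((1 / w) ^ (1 / 2 : ℝ) * Real.Gamma (1 / 2))) = L * Real.Gamma (1 / 2) := by
      have : 1 / w = v0 := by rw [hw]; field_simp
      rw [this, hc3]
      have e3 : v0 ^ (1 / 2 : ℝ) * v0 ^ (1 / 2 : ℝ) = v0 := by
        rw [← Real.rpow_add hv0]; norm_num
      calc w * (L * v0 ^ (1 / 2 : ℝ) * (v0 ^ (1 / 2 : ℝ) * Real.Gamma (1 / 2)))
          = (w * (v0 ^ (1 / 2 : ℝ) * v0 ^ (1 / 2 : ℝ))) * (L * Real.Gamma (1 / 2)) := by ring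
        _ = _ := by rw [e3, hwv, one_mul]
    have e4 : L / 4 / v0 * (1 / w) = L / 4 := by rw [hw]; field_simp
    rw [mul_sub, mul_sub, mul_sub, mul_sub, e2]
    have e5 : w * (L / 4 / v0 * (1 / w ^ 2)) = L / 4 / v0 * (1 / w) := by field_simp
    rw [e5, e4]
    field_simp
  rw [e1] at h3
  have e6 : L * Real.Gamma (1 / 2) ≤ 2 * L := by
    have := mul_le_mul_of_nonneg_left hG hL
    linarith
  have e7 : (B0 + M) * (1 - Real.exp (-(w * u0))) ≤ (B0 + M) * (1 / 8) :=
    mul_le_mul_of_nonneg_left hE2 (by positivity)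
  have e8 : M * (1 - E) ≥ M * (5 / 8) := mul_le_mul_of_nonneg_left (by linarith) hM0
  linarith

/-- **One-sided Tauberian theorem, boundedness.** -/
theorem bounded_of_slow (hi : ∀ w > 0, LInt f w)
    (hB : ∀ w : ℝ, 0 < w → w ≤ 1 → |w * lap f w| ≤ B) (hu0 : 1 ≤ u0) (hL : 0 ≤ L)
    (hs : ∀ u v, u0 ≤ u → u ≤ v → f v ≤ f u + L * √(v / u))
    (hloc : ∀ U : ℝ, ∃ B0 : ℝ, ∀ u, 0 < u → u ≤ U → |f u| ≤ B0) :
    ∃ M : ℝ, ∀ u, 0 < u → |f u| ≤ M := by
  obtain ⟨B1, hB1⟩ := hloc (8 * u0)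
  have hu0' : 0 < u0 := by linarith
  have hB10 : 0 ≤ B1 := (abs_nonneg _).trans (hB1 u0 hu0' (by linarith))
  have hBn : 0 ≤ B := (abs_nonneg _).trans (hB 1 one_pos le_rfl)
  set M2 : ℝ := 4 * (B + 2 * L + (1 / 4 + 2 * (8 * L + B)) + L / 4 + B1) + B1 + 1 with hM2
  have hM20 : 0 ≤ M2 := by positivity
  -- upper bound
  have hupper : ∀ v, 0 < v → f v ≤ M2 := by
    intro v' hv'
    by_contra hcon
    push Not at hcon
    obtain ⟨BU, hBU⟩ := hloc v'
    set S : Set ℝ := f '' Ioc 0 v' with hS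
    have hSne : S.Nonempty := ⟨f v', v', ⟨hv', le_rfl⟩, rfl⟩
    have hSb : BddAbove S := ⟨BU, by
      rintro y ⟨x, hx, rfl⟩
      exact (abs_le.mp (hBU x hx.1 hx.2)).2⟩
    obtain ⟨y, ⟨v0, hv0, rfl⟩, hy⟩ := exists_lt_of_lt_csSup hSne (sub_one_lt (sSup S))
    have h1 : ∀ v, 0 < v → v ≤ v' → f v ≤ f v0 + 1 := by
      intro v h2 h3
      have := le_csSup hSb ⟨v, ⟨h2, h3⟩, rfl⟩
      linarith
    have h2 : M2 - 1 < f v0 := by
      have := h1 v' hv' le_rfl
      linarith
    have h3 : 8 * u0 ≤ v0 := by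
      by_contra h4
      push Not at h4
      have := (abs_le.mp (hB1 v0 hv0.1 h4.le)).2
      have : 0 ≤ 4 * (B + 2 * L + (1 / 4 + 2 * (8 * L + B)) + L / 4 + B1) := by positivity
      linarith
    have h4 := pos_part hi hB hu0 hL hs hB10 (fun u h5 h6 => hB1 u h5 (by linarith)) h3
      (by linarith) (fun v h5 h6 => h1 v h5 (h6.trans hv0.2))
    linarith
  refine ⟨max M2 (M2 / 4 + 2 * (8 * L + B) + B1), fun u hu => ?_⟩
  rw [abs_le]
  refine ⟨?_, (hupper u hu).trans (le_max_left _ _)⟩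
  rw [neg_le]
  refine le_trans ?_ (le_max_right _ _)
  rcases le_or_gt u0 u with h | h
  · have := neg_part hi hB hu0 hL hs h hM20 (fun v h1 _ => hupper v h1)
    linarith
  · have := (abs_le.mp (hB1 u hu (by linarith))).1
    have : 0 ≤ M2 / 4 + 2 * (8 * L + B) := by positivity
    linarith

end bounded

end Pool.Agent.W263.BSD
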