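import Pool.Agent.W263.BSD.Main
import Pool.Agent.W263.BSD.Taub

/-! One-sided doubling conditions and the exact order of magnitude. -/

set_option autoImplicit false

namespace Pool.Agent.W263.BSD

open MeasureTheory Filter Topology Set Classical

variable {a : ℝ → ℝ} {Φ G : ℂ → ℂ} {c0 : ℝ}

/-- one-sided lower bounds imply convergence for all `w > 0` if there are no positive zeros -/
theorem Data.conv_of_lower {m : ℕ} (D : Data m a Φ G c0)
    (hloc : ∀ u, |a u| ≤ Real.exp (2 * u) + Real.exp u) (hne : ∀ w : ℝ, 0 < w → Φ w ≠ 0)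
    (h : ∀ ε > 0, ∀ᶠ u in atTop, -Real.exp (ε * u) ≤ a u) : ∀ w > 0, LInt a w := by
  intro w hw
  obtain ⟨U, hU⟩ := eventually_atTop.mp (h (w / 2) (half_pos hw))
  set V : ℝ := max U 1 with hV
  set K : ℝ := Real.exp (2 * V) + Real.exp V with hK
  set κ : ℝ → ℝ := fun u => (-1) * ex (w / 2) u + (-K) * ex 0 u with hκ
  have hκm : Measurable κ := ((ex_meas _).const_mul _).add ((ex_meas 0).const_mul _)
  have hκi : ∀ w' > w / 2, LInt κ w' := fun w' hw' =>
    ((ex_LInt hw').const_mul _).add ((ex_LInt (by linarith)).const_mul _)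
  refine D.core (half_pos hw).le hκm hκi (Or.inr rfl) (fun u hu => ?_)
    (fun s hs _ => hne s (by linarith)) w (by linarith)
  rw [hκ]
  simp only [ex, zero_mul, Real.exp_zero, mul_one]
  rcases le_or_gt V u with h2 | h2
  · have h3 := hU u ((le_max_left _ _).trans h2)
    have : 0 ≤ K := by positivity
    linarith
  · have h3 := (abs_le.mp (hloc u)).1
    have h5 : Real.exp u ≤ Real.exp V := Real.exp_le_exp.mpr h2.le
    have h5' : Real.exp (2 * u) ≤ Real.exp (2 * V) := Real.exp_le_exp.mpr (by linarith)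
    have := Real.exp_pos (w / 2 * u)
    linarith

theorem pl_zero : pl 0 = ell := by
  funext u; unfold pl pk; simp

/-- the Laplace transform of `a` near `0` -/
theorem Data.abel_near (D : Data 1 a Φ G c0)
    (hGb : ∃ C : ℝ, ∀ᶠ w : ℝ in 𝓝[>] 0, |(G w).re| ≤ C) {r : ℕ} (hr : OrdZero Φ r)
    (hconv : ∀ w > 0, LInt a w) :
    ∃ C : ℝ, ∀ᶠ w : ℝ in 𝓝[>] 0, |w * lap (fun u => a u - r * ell u) w| ≤ C := by
  obtain ⟨C, hC⟩ := hGb
  obtain ⟨c, hc0, hc⟩ := hr.limit
  have h1 : Tendsto (fun w : ℝ => Real.log (‖Φ w‖ / w ^ r)) (𝓝[>] 0) (𝓝 (Real.log c)) :=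
    hc.log hc0.ne'
  have h2 : ∀ᶠ w : ℝ in 𝓝[>] 0, |Real.log (‖Φ w‖ / w ^ r)| ≤ |Real.log c| + 1 := by
    have := h1.abs.eventually (gt_mem_nhds (show |Real.log c| < |Real.log c| + 1 by linarith))
    filter_upwards [this] with w hw using hw.le
  refine ⟨(C + (|Real.log c| + 1)) + r * (Real.exp 1 + |ck 0|), ?_⟩
  filter_upwards [hC, h2, self_mem_nhdsWithin, Ioo_mem_nhdsGT (show (0 : ℝ) < 1 by norm_num)]
    with w h3 h4 h5 h6
  have hw : (0 : ℝ) < w := h5
  rw [D.real_eq le_rfl hconv hw, Complex.norm_real, Real.norm_of_nonneg (Real.exp_pos _).le,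
    Real.log_div (Real.exp_pos _).ne' (pow_pos hw _).ne', Real.log_exp, Real.log_pow, pow_one] at h4
  have hell : LInt ell w := by
    have := pl_LInt 0 hw
    rwa [pl_zero] at this
  have e2 := pl_lap_le 0 hw h6.2.le
  have e3 := le_pl_lap 0 hw
  rw [pl_zero] at e2 e3
  norm_num at e2 e3
  rw [lap_sub (hconv w hw) (hell.const_mul _), lap_const_mul]
  have e1 : w * (lap a w - r * lap ell w) =
      ((G w).re - ((G w).re - w * lap a w - r * Real.log w)) -
      r * (w * lap ell w - -Real.log w) := by ring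
  rw [e1]
  refine (abs_sub _ _).trans (add_le_add ((abs_sub _ _).trans (add_le_add h3 h4)) ?_)
  rw [abs_mul, abs_of_nonneg (show (0 : ℝ) ≤ r by positivity)]
  refine mul_le_mul_of_nonneg_left ?_ (by positivity)
  rw [abs_le]
  have := le_abs_self (ck 0)
  have := Real.exp_pos 1
  have := abs_nonneg (ck 0)
  constructor <;> linarith

/-- from a bound near `0` to a bound on `(0, 1]` -/
theorem abel_all {f : ℝ → ℝ} (_hf : Measurable f) (hi : ∀ w > 0, LInt f w)
    (h : ∃ C : ℝ, ∀ᶠ w : ℝ in 𝓝[>] 0, |w * lap f w| ≤ C) :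
    ∃ B : ℝ, ∀ w : ℝ, 0 < w → w ≤ 1 → |w * lap f w| ≤ B := by
  obtain ⟨C, hC⟩ := h
  obtain ⟨δ, hδ, hδ'⟩ := mem_nhdsGT_iff_exists_Ioo_subset.mp hC
  have hδ0 : (0 : ℝ) < δ := hδ
  set w1 : ℝ := δ / 2 with hw1
  have hw10 : 0 < w1 := by positivity
  refine ⟨max C (∫ u in Ioi 0, |f u * Real.exp (-(w1 * u))|), fun w h1 h2 => ?_⟩
  rcases lt_or_ge w w1 with h3 | h3
  · exact (hδ' ⟨h1, by rw [hw1] at h3; linarith⟩).trans (le_max_left _ _)
  · refine le_trans ?_ (le_max_right _ _)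
    rw [abs_mul, abs_of_pos h1]
    have e1 : |lap f w| ≤ ∫ u in Ioi 0, |f u * Real.exp (-(w1 * u))| := by
      unfold lap
      refine (abs_integral_le_integral_abs).trans ?_
      refine setIntegral_mono_on (hi w h1).abs (hi w1 hw10).abs measurableSet_Ioi fun u hu => ?_
      rw [abs_mul, abs_mul, abs_of_pos (Real.exp_pos _), abs_of_pos (Real.exp_pos _)]
      refine mul_le_mul_of_nonneg_left (Real.exp_le_exp.mpr ?_) (abs_nonneg _)
      have : w1 * u ≤ w * u := mul_le_mul_of_nonneg_right h3 (le_of_lt hu)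
      linarith
    calc w * |lap f w| ≤ 1 * |lap f w| := mul_le_mul_of_nonneg_right h2 (abs_nonneg _)
      _ = |lap f w| := one_mul _
      _ ≤ _ := e1

theorem ell_LInt {w : ℝ} (hw : 0 < w) : LInt ell w := by
  have := pl_LInt 0 hw
  rwa [pl_zero] at this

theorem ell_double {u v : ℝ} (hu : 0 < u) (h : v ≤ 2 * u) (hv : 0 < v) :
    ell v ≤ ell u + Real.log 2 := by
  unfold ell
  have h1 := Real.exp_pos 1
  rw [← Real.log_mul (by positivity) (by norm_num)]
  apply Real.log_le_log (by positivity)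
  linarith

theorem sqrt_sub_exp (C1 C2 : ℝ) {ε : ℝ} (hε : 0 < ε) :
    ∀ᶠ u in atTop, C1 + C2 * √u ≤ Real.exp (ε * u) := by
  have h1 := (isLittleO_pow_exp_pos_mul_atTop 1 hε).bound
    (show (0 : ℝ) < 1 / (|C1| + |C2| + 1) by positivity)
  filter_upwards [h1, eventually_ge_atTop 1] with u h1 h2
  have hu : 0 < u := by linarith
  rw [Real.norm_of_nonneg (by positivity), Real.norm_of_nonneg (Real.exp_pos _).le, pow_one] at h1
  have h3 : √u ≤ u := by
    rw [Real.sqrt_le_left hu.le]; nlinarith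
  have h4 : C1 + C2 * √u ≤ (|C1| + |C2| + 1) * u := by
    have e1 : C1 ≤ |C1| * u := (le_abs_self C1).trans (le_mul_of_one_le_right (abs_nonneg _) h2)
    have e2 : C2 * √u ≤ |C2| * u :=
      mul_le_mul (le_abs_self C2) h3 (Real.sqrt_nonneg _) (abs_nonneg _)
    nlinarith
  refine h4.trans ?_
  calc (|C1| + |C2| + 1) * u ≤ (|C1| + |C2| + 1) * (1 / (|C1| + |C2| + 1) * Real.exp (ε * u)) := by
        gcongr
    _ = Real.exp (ε * u) := by field_simp

/-- **Upper doubling implies the exact order.** -/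
theorem Data.order_of_upper (D : Data 1 a Φ G c0)
    (hloc : ∀ u, |a u| ≤ Real.exp (2 * u) + Real.exp u)
    (hGb : ∃ C : ℝ, ∀ᶠ w : ℝ in 𝓝[>] 0, |(G w).re| ≤ C) {r : ℕ} (hr : OrdZero Φ r) {K u0 : ℝ}
    (hK : 0 ≤ K) (hu0 : 1 ≤ u0) (h : ∀ u v, u0 ≤ u → u ≤ v → v ≤ 2 * u → a v ≤ a u + K) :
    (∀ w > 0, LInt a w) ∧ ∃ M : ℝ, ∀ u, 0 < u → |a u - r * ell u| ≤ M := by
  have hu0' : 0 < u0 := by linarith
  have hs := slow_of_doubling hK hu0' h
  have hconv : ∀ w > 0, LInt a w := by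
    refine D.conv_of_upper hloc fun ε hε => ?_
    filter_upwards [sqrt_sub_exp (a u0) (3 * K * (1 / √u0)) hε, eventually_ge_atTop u0] with u h1 h2
    refine le_trans (hs u0 u le_rfl h2) (le_trans (le_of_eq ?_) h1)
    rw [Real.sqrt_div' _ hu0'.le]
    ring
  refine ⟨hconv, ?_⟩
  have hfi : ∀ w > 0, LInt (fun u => a u - r * ell u) w := fun w hw =>
    (hconv w hw).sub ((ell_LInt hw).const_mul _)
  have hfm : Measurable (fun u => a u - r * ell u) := D.meas.sub (ell_meas.const_mul _)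
  obtain ⟨B, hB⟩ := abel_all hfm hfi (D.abel_near hGb hr hconv)
  refine bounded_of_slow hfi hB hu0 (L := 3 * K) (by positivity) ?_ ?_
  · refine slow_of_doubling hK hu0' fun u v h1 h2 h3 => ?_
    have e1 := h u v h1 h2 h3
    have e2 : (r : ℝ) * ell u ≤ r * ell v :=
      mul_le_mul_of_nonneg_left (ell_mono (by linarith) h2) (by positivity)
    linarith
  · intro U
    refine ⟨Real.exp (2 * U) + Real.exp U + r * ell U, fun u hu huU => ?_⟩
    have e1 := hloc u
    have e2 : Real.exp u ≤ Real.exp U := Real.exp_le_exp.mpr huU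
    have e3 : Real.exp (2 * u) ≤ Real.exp (2 * U) := Real.exp_le_exp.mpr (by linarith)
    have e4 : (0 : ℝ) ≤ r * ell u := mul_nonneg (by positivity) (by linarith [ell_nonneg hu.le])
    have e5 : (r : ℝ) * ell u ≤ r * ell U :=
      mul_le_mul_of_nonneg_left (ell_mono hu.le huU) (by positivity)
    refine (abs_sub _ _).trans ?_
    rw [abs_of_nonneg e4]
    linarith

/-- **Lower doubling implies the exact order,** if there are no positive zeros. -/
theorem Data.order_of_lower (D : Data 1 a Φ G c0)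
    (hloc : ∀ u, |a u| ≤ Real.exp (2 * u) + Real.exp u)
    (hGb : ∃ C : ℝ, ∀ᶠ w : ℝ in 𝓝[>] 0, |(G w).re| ≤ C) {r : ℕ} (hr : OrdZero Φ r)
    (hne : ∀ w : ℝ, 0 < w → Φ w ≠ 0) {K u0 : ℝ}
    (hK : 0 ≤ K) (hu0 : 1 ≤ u0) (h : ∀ u v, u0 ≤ u → u ≤ v → v ≤ 2 * u → a u - K ≤ a v) :
    (∀ w > 0, LInt a w) ∧ ∃ M : ℝ, ∀ u, 0 < u → |a u - r * ell u| ≤ M := by
  have hu0' : 0 < u0 := by linarith
  have hs := slow_of_doubling (f := fun u => -a u) hK hu0' (fun u v h1 h2 h3 => by
    have := h u v h1 h2 h3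
    linarith)
  have hconv : ∀ w > 0, LInt a w := by
    refine D.conv_of_lower hloc hne fun ε hε => ?_
    filter_upwards [sqrt_sub_exp (-a u0) (3 * K * (1 / √u0)) hε, eventually_ge_atTop u0] with u h1 h2
    have e1 := hs u0 u le_rfl h2
    rw [Real.sqrt_div' _ hu0'.le] at e1
    have e2 : 3 * K * (√u / √u0) = 3 * K * (1 / √u0) * √u := by ring
    rw [e2] at e1
    linarith
  refine ⟨hconv, ?_⟩
  have hfi : ∀ w > 0, LInt (fun u => a u - r * ell u) w := fun w hw =>
    (hconv w hw).sub ((ell_LInt hw).const_mul _)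
  have hfi' : ∀ w > 0, LInt (fun u => -(a u - r * ell u)) w := fun w hw => (hfi w hw).neg
  have hfm : Measurable (fun u => a u - r * ell u) := D.meas.sub (ell_meas.const_mul _)
  obtain ⟨B, hB⟩ := abel_all hfm hfi (D.abel_near hGb hr hconv)
  have hB' : ∀ w : ℝ, 0 < w → w ≤ 1 → |w * lap (fun u => -(a u - r * ell u)) w| ≤ B := by
    intro w h1 h2
    have e1 : lap (fun u => -(a u - r * ell u)) w = -lap (fun u => a u - r * ell u) w := by
      have := lap_const_mul (f := fun u => a u - r * ell u) (w := w) (-1)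
      simp only [neg_mul, one_mul] at this
      exact this
    rw [e1, mul_neg, abs_neg]
    exact hB w h1 h2
  have hlog2 : 0 ≤ Real.log 2 := Real.log_nonneg (by norm_num)
  have hK' : 0 ≤ K + r * Real.log 2 := by positivity
  obtain ⟨M, hM⟩ := bounded_of_slow hfi' hB' hu0 (L := 3 * (K + r * Real.log 2)) (by positivity)
    (by
      refine slow_of_doubling hK' hu0' fun u v h1 h2 h3 => ?_
      have e1 := h u v h1 h2 h3
      have e2 : (r : ℝ) * ell v ≤ r * (ell u + Real.log 2) :=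
        mul_le_mul_of_nonneg_left (ell_double (by linarith) h3 (by linarith)) (by positivity)
      linarith) (by
      intro U
      refine ⟨Real.exp (2 * U) + Real.exp U + r * ell U, fun u hu huU => ?_⟩
      have e1 := hloc u
      have e2 : Real.exp u ≤ Real.exp U := Real.exp_le_exp.mpr huU
      have e3 : Real.exp (2 * u) ≤ Real.exp (2 * U) := Real.exp_le_exp.mpr (by linarith)
      have e4 : (0 : ℝ) ≤ r * ell u := mul_nonneg (by positivity) (by linarith [ell_nonneg hu.le])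
      have e5 : (r : ℝ) * ell u ≤ r * ell U :=
        mul_le_mul_of_nonneg_left (ell_mono hu.le huU) (by positivity)
      rw [abs_neg]
      refine (abs_sub _ _).trans ?_
      rw [abs_of_nonneg e4]
      linarith)
  refine ⟨M, fun u hu => ?_⟩
  have := hM u hu
  rwa [abs_neg] at this

end Pool.Agent.W263.BSD
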